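import Pool.Agent.Lib.MP_627a61_nt.Bx.Lem

/-!
# Symmetric matrices with degenerate or constant planes
-/

namespace Pool.Agent.Lib.MP_627a61_nt.Bx

section

variable {C K ν : Type} [Field C] [Field K] {ι : C →+* K}

/-- the value of the bilinear form at two sets -/
def fS {ν R : Type} [CommRing R] (φ : ν → ν → R) (S T : Finset ν) : R := ∑ i ∈ S, ∑ j ∈ T, φ i j

lemma fS_symm {φ : ν → ν → K} (hφ : ∀ i j, φ i j = φ j i) (S T : Finset ν) :
    fS φ S T = fS φ T S := by
  unfold fS
  rw [Finset.sum_comm]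
  exact Finset.sum_congr rfl fun i _ => Finset.sum_congr rfl fun j _ => hφ j i

lemma fS_union_left [DecidableEq ν] (φ : ν → ν → K) {S T : Finset ν} (h : Disjoint S T)
    (U : Finset ν) : fS φ (S ∪ T) U = fS φ S U + fS φ T U := by
  unfold fS
  rw [Finset.sum_union h]

lemma fS_union_right [DecidableEq ν] (φ : ν → ν → K) {S T : Finset ν} (h : Disjoint S T)
    (U : Finset ν) : fS φ U (S ∪ T) = fS φ U S + fS φ U T := by
  unfold fS
  rw [← Finset.sum_add_distrib]
  exact Finset.sum_congr rfl fun i _ => Finset.sum_union h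

lemma fS_union_self [DecidableEq ν] {φ : ν → ν → K} (hφ : ∀ i j, φ i j = φ j i) {S T : Finset ν}
    (h : Disjoint S T) : fS φ (S ∪ T) (S ∪ T) = fS φ S S + 2 * fS φ S T + fS φ T T := by
  rw [fS_union_left φ h, fS_union_right φ h, fS_union_right φ h, fS_symm hφ T S]
  ring

lemma fS_singleton (φ : ν → ν → K) (i j : ν) : fS φ {i} {j} = φ i j := by
  simp [fS]

lemma fS_smul (t : K) (φ : ν → ν → K) (S T : Finset ν) :
    fS (fun i j => t * φ i j) S T = t * fS φ S T := by
  unfold fS
  rw [Finset.mul_sum]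
  exact Finset.sum_congr rfl fun i _ => by rw [Finset.mul_sum]

variable (ι) in
/-- hypothesis on planes -/
def HPl (φ : ν → ν → K) : Prop :=
  ∀ S T : Finset ν, Disjoint S T → Pl ι (fS φ S S) (fS φ S T) (fS φ T T)

variable (ι) in
/-- hypothesis on pencils -/
def HPe (φ : ν → ν → K) : Prop :=
  ∀ S T U : Finset ν, Disjoint S T → Disjoint S U → Disjoint T U → fS φ S S = 0 →
    fS φ T T = 0 → fS φ U U = 0 → fS φ S T + fS φ S U + fS φ T U = 0 →
    ∃ (κ : K) (b₁ b₂ b₃ : C), fS φ S T = ι b₁ * κ ∧ fS φ S U = ι b₂ * κ ∧ fS φ T U = ι b₃ * κ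

lemma HPl.smul {φ : ν → ν → K} (h : HPl ι φ) (t : K) : HPl ι (fun i j => t * φ i j) := by
  intro S T hST
  rw [fS_smul, fS_smul, fS_smul]
  exact (h S T hST).smul t

lemma HPe.smul {φ : ν → ν → K} (h : HPe ι φ) {t : K} (ht : t ≠ 0) :
    HPe ι (fun i j => t * φ i j) := by
  intro S T U h1 h2 h3 h4 h5 h6 h7
  rw [fS_smul] at h4 h5 h6
  rw [fS_smul, fS_smul, fS_smul] at h7
  obtain ⟨κ, b₁, b₂, b₃, k1, k2, k3⟩ := h S T U h1 h2 h3 ((mul_eq_zero.1 h4).resolve_left ht)
    ((mul_eq_zero.1 h5).resolve_left ht) ((mul_eq_zero.1 h6).resolve_left ht) (by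
      apply mul_left_cancel₀ ht
      linear_combination h7)
  refine ⟨t * κ, b₁, b₂, b₃, ?_, ?_, ?_⟩
  · rw [fS_smul, k1]; ring
  · rw [fS_smul, k2]; ring
  · rw [fS_smul, k3]; ring

/-- three disjoint sets -/
lemma step0 [DecidableEq ν] [CharZero C] [IsAlgClosed C] [IsAlgClosed K] {φ : ν → ν → K}
    (hφ : ∀ i j, φ i j = φ j i) (hpl : HPl ι φ) (hpe : HPe ι φ) {S T : Finset ν}
    (hST : Disjoint S T) {α β γ : C} (hα : fS φ S S = ι α) (hβ : fS φ S T = ι β)
    (hγ : fS φ T T = ι γ) (hnd : β ^ 2 ≠ α * γ) {U : Finset ν} (hSU : Disjoint S U)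
    (hTU : Disjoint T U) : fS φ S U ∈ ι.fieldRange ∧ fS φ T U ∈ ι.fieldRange ∧
      fS φ U U ∈ ι.fieldRange := by
  have H1 := hpl S U hSU
  have H2 := hpl T U hTU
  have H3 := hpl (S ∪ T) U (Finset.disjoint_union_left.2 ⟨hSU, hTU⟩)
  have H4 := hpl S (T ∪ U) (Finset.disjoint_union_right.2 ⟨hST, hSU⟩)
  have H5 := hpl T (S ∪ U) (Finset.disjoint_union_right.2 ⟨hST.symm, hTU⟩)
  have HP := hpe S T U hST hSU hTU
  rw [hα] at H1
  rw [hγ] at H2
  rw [fS_union_self hφ hST, fS_union_left φ hST, hα, hβ, hγ] at H3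
  rw [fS_union_self hφ hTU, fS_union_right φ hTU, hα, hβ, hγ] at H4
  rw [fS_union_self hφ hSU, fS_union_right φ hSU, fS_symm hφ T S, hα, hβ, hγ] at H5
  rw [hα, hβ, hγ] at HP
  refine lemB hnd H1 H2 ?_ H4 H5 ?_
  · have h1 : ι (α + 2 * β + γ) = ι α + 2 * ι β + ι γ := by
      simp only [map_add, map_mul, map_ofNat]
    rw [h1]
    exact H3
  · intro h1 h2 h3 h4
    exact HP (by rw [h1, map_zero]) (by rw [h2, map_zero]) h3 h4

/-- the block of three singletons -/
lemma block3 [CharZero C] [IsAlgClosed C] {A B D P Q R : K} (hP : P ^ 2 = A * B)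
    (hQ : Q ^ 2 = A * D) (hR : R ^ 2 = B * D) {α β γ : C} (hα : A + 2 * P + B = ι α)
    (hβ : Q + R = ι β) (hγ : D = ι γ) (hnd : β ^ 2 ≠ α * γ) :
    A ∈ ι.fieldRange ∧ B ∈ ι.fieldRange ∧ D ∈ ι.fieldRange ∧ P ∈ ι.fieldRange ∧
      Q ∈ ι.fieldRange ∧ R ∈ ι.fieldRange := by
  have hK : CharZero K := charZero_of_injective_ringHom ι.injective
  have h2K : (2 : K) ∈ ι.fieldRange := ⟨2, map_ofNat ι 2⟩
  have hnd' : (Q + R) ^ 2 ≠ (A + 2 * P + B) * D := by
    rw [hα, hβ, hγ, ← map_pow, ← map_mul]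
    intro h
    exact hnd (ι.injective h)
  have h1 : Q * R ≠ P * D := by
    intro h
    apply hnd'
    linear_combination hQ + hR + 2 * h
  have h2 : Q * R = -(P * D) := by
    have h3 : (Q * R) ^ 2 = (P * D) ^ 2 := by
      rw [mul_pow, mul_pow, hQ, hR, hP]
      ring
    exact (sq_eq_sq_iff_eq_or_eq_neg.1 h3).resolve_left h1
  have hD0 : D ≠ 0 := by
    rintro rfl
    apply h1
    rw [h2]
    ring
  have hD : D ∈ ι.fieldRange := by
    rw [hγ]
    exact mem_map γ
  have hm : A + B - 2 * P ∈ ι.fieldRange := by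
    have h3 : A + B - 2 * P = D⁻¹ * (ι β) ^ 2 := by
      rw [← hβ]
      field_simp
      linear_combination (-1 : K) * hQ - hR - 2 * h2
    rw [h3]
    exact ι.fieldRange.mul_mem (ι.fieldRange.inv_mem hD) (ι.fieldRange.pow_mem (mem_map β) 2)
  have hp : A + 2 * P + B ∈ ι.fieldRange := by
    rw [hα]
    exact mem_map α
  have h4 : (2 : K)⁻¹ ∈ ι.fieldRange := ι.fieldRange.inv_mem h2K
  have hPm : P ∈ ι.fieldRange := by
    have h3 : P = 2⁻¹ * (2⁻¹ * ((A + 2 * P + B) - (A + B - 2 * P))) := by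
      field_simp
      ring
    rw [h3]
    exact ι.fieldRange.mul_mem h4 (ι.fieldRange.mul_mem h4 (ι.fieldRange.sub_mem hp hm))
  have hAB : A + B ∈ ι.fieldRange := by
    have h3 : A + B = (A + B - 2 * P) + 2 * P := by ring
    rw [h3]
    exact ι.fieldRange.add_mem hm (ι.fieldRange.mul_mem h2K hPm)
  have hdiff : A - B ∈ ι.fieldRange := by
    apply sqrt_mem
    have h3 : (A - B) ^ 2 = (A + B) ^ 2 - 2 * 2 * P ^ 2 := by
      rw [hP]
      ring
    rw [h3]
    exact ι.fieldRange.sub_mem (ι.fieldRange.pow_mem hAB 2)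
      (ι.fieldRange.mul_mem (ι.fieldRange.mul_mem h2K h2K) (ι.fieldRange.pow_mem hPm 2))
  have hA : A ∈ ι.fieldRange := by
    have h3 : A = 2⁻¹ * ((A + B) + (A - B)) := by
      field_simp
      ring
    rw [h3]
    exact ι.fieldRange.mul_mem h4 (ι.fieldRange.add_mem hAB hdiff)
  have hB : B ∈ ι.fieldRange := by
    have h3 : B = (A + B) - A := by ring
    rw [h3]
    exact ι.fieldRange.sub_mem hAB hA
  refine ⟨hA, hB, hD, hPm, sqrt_mem ?_, sqrt_mem ?_⟩
  · rw [hQ]
    exact ι.fieldRange.mul_mem hA hD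
  · rw [hR]
    exact ι.fieldRange.mul_mem hB hD

/-- all entries are constants -/
lemma all_mem [DecidableEq ν] {φ : ν → ν → K} (hφ : ∀ i j, φ i j = φ j i) [CharZero C]
    (W : Finset ν) (h1 : ∀ i ∈ W, ∀ j ∈ W, φ i j ∈ ι.fieldRange)
    (h2 : ∀ i ∈ W, ∀ l ∉ W, φ i l ∈ ι.fieldRange)
    (h3 : ∀ U : Finset ν, Disjoint W U → fS φ U U ∈ ι.fieldRange) :
    ∀ l m, φ l m ∈ ι.fieldRange := by
  have hK : CharZero K := charZero_of_injective_ringHom ι.injective
  have h2K : (2 : K) ∈ ι.fieldRange := ⟨2, map_ofNat ι 2⟩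
  have hdiag : ∀ l ∉ W, φ l l ∈ ι.fieldRange := by
    intro l hl
    have := h3 {l} (by simpa using hl)
    rwa [fS_singleton] at this
  intro l m
  by_cases hl : l ∈ W
  · by_cases hm : m ∈ W
    · exact h1 l hl m hm
    · exact h2 l hl m hm
  · by_cases hm : m ∈ W
    · rw [hφ]
      exact h2 m hm l hl
    · by_cases hlm : l = m
      · rw [hlm]
        exact hdiag m hm
      · have h4 := h3 ({l} ∪ {m}) (by
          rw [Finset.disjoint_union_right]
          exact ⟨by simpa using hl, by simpa using hm⟩)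
        rw [fS_union_self hφ (by simpa using hlm), fS_singleton, fS_singleton, fS_singleton] at h4
        have h5 : φ l m = 2⁻¹ * ((φ l l + 2 * φ l m + φ m m) - φ l l - φ m m) := by
          field_simp
          ring
        rw [h5]
        exact ι.fieldRange.mul_mem (ι.fieldRange.inv_mem h2K) (ι.fieldRange.sub_mem
          (ι.fieldRange.sub_mem h4 (hdiag l hl)) (hdiag m hm))

/-- from one plane which is not degenerate -/
lemma scale_step [DecidableEq ν] {φ : ν → ν → K} (hφ : ∀ i j, φ i j = φ j i)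
    (hpl : HPl ι φ) (hpe : HPe ι φ) {S T : Finset ν} (hST : Disjoint S T)
    (hnd : fS φ S T ^ 2 ≠ fS φ S S * fS φ T T)
    (H : ∀ ψ : ν → ν → K, (∀ i j, ψ i j = ψ j i) → HPl ι ψ → HPe ι ψ →
      (∀ t : K, (∀ i j, ψ i j = t * φ i j) → ∀ α β γ : C, fS ψ S S = ι α → fS ψ S T = ι β →
        fS ψ T T = ι γ → β ^ 2 ≠ α * γ → ∀ l m, ψ l m ∈ ι.fieldRange)) :
    ∃ (h : K) (c : ν → ν → C), h ≠ 0 ∧ ∀ i j, φ i j = ι (c i j) * h := by
  rcases hpl S T hST with h | ⟨κ, a, b, c, h1, h2, h3⟩
  · exact absurd h hnd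
  have hκ : κ ≠ 0 := by
    rintro rfl
    apply hnd
    rw [h1, h2, h3]
    ring
  have hψ := H (fun i j => κ⁻¹ * φ i j) (fun i j => by rw [hφ]) (hpl.smul _)
    (hpe.smul (inv_ne_zero hκ)) κ⁻¹ (fun _ _ => rfl) a b c
    (by rw [fS_smul, h1]; field_simp) (by rw [fS_smul, h2]; field_simp)
    (by rw [fS_smul, h3]; field_simp) (by
      intro h4
      apply hnd
      rw [h1, h2, h3, mul_pow, ← map_pow, h4, map_mul]
      ring)
  choose c' hc' using hψ
  refine ⟨κ, c', hκ, fun i j => ?_⟩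
  rw [hc' i j]
  field_simp

theorem keyalg3 [DecidableEq ν] [CharZero C] [IsAlgClosed C] [IsAlgClosed K] {φ : ν → ν → K}
    (hφ : ∀ i j, φ i j = φ j i) (hpl : HPl ι φ) (hpe : HPe ι φ) :
    (∀ i j k, φ i i * φ j k = φ i j * φ i k) ∨
    ∃ (h : K) (c : ν → ν → C), h ≠ 0 ∧ ∀ i j, φ i j = ι (c i j) * h := by
  have hK : CharZero K := charZero_of_injective_ringHom ι.injective
  have h2K : (2 : K) ∈ ι.fieldRange := ⟨2, map_ofNat ι 2⟩
  by_cases hA : ∀ i j, i ≠ j → φ i j ^ 2 = φ i i * φ j j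
  · by_cases hB : ∀ i k j, i ≠ k → i ≠ j → k ≠ j →
        (φ i j + φ k j) ^ 2 = (φ i i + 2 * φ i k + φ k k) * φ j j
    · left
      intro i j k
      by_cases hij : i = j
      · rw [hij]
      by_cases hik : i = k
      · rw [hik, hφ j k]
        ring
      by_cases hjk : j = k
      · rw [← hjk, ← pow_two]
        exact (hA i j hij).symm
      · have e1 := hB j k i hjk (Ne.symm hij) (Ne.symm hik)
        have e2 := hA i j hij
        have e3 := hA i k hik
        rw [hφ j i, hφ k i] at e1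
        apply mul_left_cancel₀ (two_ne_zero (α := K))
        linear_combination (-1 : K) * e1 + e2 + e3
    · right
      push Not at hB
      obtain ⟨i, k, j, hik, hij, hkj, hne⟩ := hB
      have hST : Disjoint ({i} ∪ {k} : Finset ν) {j} := by
        rw [Finset.disjoint_union_left]
        exact ⟨by simpa using hij, by simpa using hkj⟩
      have hdik : Disjoint ({i} : Finset ν) {k} := by simpa using hik
      refine scale_step hφ hpl hpe hST ?_ ?_
      · rw [fS_union_self hφ hdik, fS_union_left φ hdik]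
        simp only [fS_singleton]
        exact hne
      · intro ψ hψ hpl' hpe' t ht α β γ hα hβ hγ hnd
        have hA' : ∀ i j, i ≠ j → ψ i j ^ 2 = ψ i i * ψ j j := by
          intro i j hij
          rw [ht, ht, ht, mul_pow, hA i j hij]
          ring
        have hα' := hα
        have hβ' := hβ
        have hγ' := hγ
        rw [fS_union_self hψ hdik] at hα'
        rw [fS_union_left ψ hdik] at hβ'
        simp only [fS_singleton] at hα' hβ' hγ'
        obtain ⟨m1, m2, m3, m4, m5, m6⟩ := block3 (hA' i k hik) (hA' i j hij) (hA' k j hkj) hα' hβ'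
          hγ' hnd
        have hst : ∀ U : Finset ν, Disjoint ({i} ∪ {k} ∪ {j} : Finset ν) U →
            fS ψ {j} U ∈ ι.fieldRange ∧ fS ψ U U ∈ ι.fieldRange := by
          intro U hU
          rw [Finset.disjoint_union_left] at hU
          exact (step0 hψ hpl' hpe' hST hα hβ hγ hnd hU.1 hU.2).2
        refine all_mem hψ ({i} ∪ {k} ∪ {j}) ?_ ?_ fun U hU => (hst U hU).2
        · intro x hx y hy
          simp only [Finset.mem_union, Finset.mem_singleton] at hx hy
          rcases hx with (rfl | rfl) | rfl <;> rcases hy with (rfl | rfl) | rfl <;>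
            first
            | assumption
            | (rw [hψ]; assumption)
        · intro x hx l hl
          have hl' : Disjoint ({i} ∪ {k} ∪ {j} : Finset ν) {l} := by simpa using hl
          obtain ⟨n1, n2⟩ := hst {l} hl'
          rw [fS_singleton] at n1 n2
          simp only [Finset.mem_union, Finset.mem_singleton, not_or] at hx hl
          rcases hx with (rfl | rfl) | rfl
          · apply sqrt_mem
            rw [hA' x l (Ne.symm hl.1.1)]
            exact ι.fieldRange.mul_mem m1 n2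
          · apply sqrt_mem
            rw [hA' x l (Ne.symm hl.1.2)]
            exact ι.fieldRange.mul_mem m2 n2
          · exact n1
  · right
    push Not at hA
    obtain ⟨i, j, hij, hne⟩ := hA
    have hST : Disjoint ({i} : Finset ν) {j} := by simpa using hij
    refine scale_step hφ hpl hpe hST ?_ ?_
    · simp only [fS_singleton]
      exact hne
    · intro ψ hψ hpl' hpe' t ht α β γ hα hβ hγ hnd
      have hα' := hα
      have hβ' := hβ
      have hγ' := hγ
      simp only [fS_singleton] at hα' hβ' hγ'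
      have hst : ∀ U : Finset ν, Disjoint ({i} ∪ {j} : Finset ν) U →
          fS ψ {i} U ∈ ι.fieldRange ∧ fS ψ {j} U ∈ ι.fieldRange ∧ fS ψ U U ∈ ι.fieldRange := by
        intro U hU
        rw [Finset.disjoint_union_left] at hU
        exact step0 hψ hpl' hpe' hST hα hβ hγ hnd hU.1 hU.2
      refine all_mem hψ ({i} ∪ {j}) ?_ ?_ fun U hU => (hst U hU).2.2
      · have m1 : ψ i i ∈ ι.fieldRange := ⟨α, hα'.symm⟩
        have m2 : ψ i j ∈ ι.fieldRange := ⟨β, hβ'.symm⟩
        have m3 : ψ j j ∈ ι.fieldRange := ⟨γ, hγ'.symm⟩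
        intro x hx y hy
        simp only [Finset.mem_union, Finset.mem_singleton] at hx hy
        rcases hx with rfl | rfl <;> rcases hy with rfl | rfl <;>
          first
          | assumption
          | (rw [hψ]; assumption)
      · intro x hx l hl
        have hl' : Disjoint ({i} ∪ {j} : Finset ν) {l} := by simpa using hl
        obtain ⟨n1, n2, n3⟩ := hst {l} hl'
        rw [fS_singleton] at n1 n2
        simp only [Finset.mem_union, Finset.mem_singleton] at hx
        rcases hx with rfl | rfl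
        · exact n1
        · exact n2

end

end Pool.Agent.Lib.MP_627a61_nt.Bx
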