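import Pool.Agent.Lib.MP_627a61_nt.Bx.Lin
import Pool.Agent.Lib.MP_627a61_nt.Sq.Root

/-!
# Entire curves on the Buechi surface of nine squares (after Vojta)
-/

open scoped LinearAlgebra.Projectivization Topology
open Filter

namespace Pool.Agent.Lib.MP_627a61_nt.Bx

variable {ψ : ℂ → ℙ ℂ (Fin 9 → ℂ)} {f g : ℂ → Fin 9 → ℂ} {z : ℂ}

/-- Along an entire curve of the surface the resultant vanishes. -/
theorem Wr_zero (hψ : ∀ z, HolomorphicAt ψ z) (hq : ∀ z, IsQ (sqv (ψ z).rep)) :
    ∀ z f, IsLift ψ f z → Wr (sqv (f z)) (dsq (f z) (deriv f z)) = 0 := by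
  classical
  by_cases hzero : ∃ t, ∀ z, (ψ z).rep t = 0
  · obtain ⟨t, h0⟩ := hzero
    intro z f hf
    have h2 : f z t = 0 := by
      obtain ⟨μ, hμ, h3⟩ := hf.rep
      have h4 := h0 z
      rw [h3] at h4
      simpa [hμ] using h4
    obtain ⟨l, hl⟩ : ∃ l, t ≠ l := ⟨t + 1, by
      intro h
      have := congrArg (fun x => x - t) h
      simp at this⟩
    obtain ⟨m, hm1, hm2⟩ : ∃ m, t ≠ m ∧ l ≠ m := by
      have h5 : ({t, l} : Finset (Fin 9)) ≠ Finset.univ := by
        intro h6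
        have h7 := congrArg Finset.card h6
        rw [Finset.card_pair hl, Finset.card_univ, Fintype.card_fin] at h7
        omega
      obtain ⟨m, hm⟩ : ∃ m, m ∉ ({t, l} : Finset (Fin 9)) := by
        by_contra hcon
        push Not at hcon
        exact h5 (Finset.eq_univ_iff_forall.2 hcon)
      simp only [Finset.mem_insert, Finset.mem_singleton, not_or] at hm
      exact ⟨m, Ne.symm hm.1, Ne.symm hm.2⟩
    rw [W_eq (hf.isQ hq) (hf.isQ' hq) hl hm1 hm2, h2]
    ring
  · push Not at hzero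
    have hne : ∀ t, ∀ z, ∀ᶠ w in 𝓝[≠] z, (ψ w).rep t ≠ 0 := by
      intro t
      refine (curve_dichotomy hψ (fun w => w t) (fun x =>
        (ContinuousLinearMap.proj (R := ℂ) (φ := fun _ : Fin 9 => ℂ) t).analyticAt x) 1
        (fun c x => by simp)).resolve_left ?_
      intro h
      obtain ⟨z, hz⟩ := hzero t
      exact hz (h z)
    have hex : ∀ z, ∃ p : Fin 9 × Fin 9 × Fin 9, (p.1 ≠ p.2.1 ∧ p.1 ≠ p.2.2 ∧ p.2.1 ≠ p.2.2) ∧
        ∀ t, t ≠ p.1 → t ≠ p.2.1 → t ≠ p.2.2 → nrm (ψ z).rep ≤ 360 * ‖(ψ z).rep t‖ := by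
      intro z
      obtain ⟨j, l, m, h1, h2, h3, h⟩ := exists_triple (ψ z).rep_nonzero (hq z)
      exact ⟨(j, l, m), ⟨h1, h2, h3⟩, h⟩
    choose i hi hi' using hex
    have hi'' : ∀ z f, IsLift ψ f z → ∀ t, t ≠ (i z).1 → t ≠ (i z).2.1 → t ≠ (i z).2.2 →
        nrm (f z) ≤ 360 * ‖f z t‖ := by
      intro z f hf t h1 h2 h2'
      obtain ⟨μ, hμ, h3⟩ := hf.rep
      have h4 := hi' z t h1 h2 h2'
      rw [h3, nrm_smul] at h4
      simp only [Pi.smul_apply, smul_eq_mul, norm_mul] at h4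
      have h5 : 0 < ‖μ‖ := norm_pos_iff.2 hμ
      have h6 : ‖μ‖ * (nrm (f z)) ≤ ‖μ‖ * (360 * ‖f z t‖) := by linarith
      exact le_of_mul_le_mul_left h6 h5
    have hPne : ∀ z f, IsLift ψ f z → PP (f z) (i z).1 (i z).2.1 (i z).2.2 ≠ 0 := by
      intro z f hf
      unfold PP
      refine Finset.prod_ne_zero_iff.2 fun t ht => ?_
      simp only [Finset.mem_compl, Finset.mem_insert, Finset.mem_singleton, not_or] at ht
      have h1 := hi'' z f hf t ht.1 ht.2.1 ht.2.2
      have h2 := nrm_pos hf.ne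
      have h3 : 0 < ‖f z t‖ := by linarith
      exact norm_pos_iff.1 h3
    have hcz := curve_zero hψ
      (I := {p : Fin 9 × Fin 9 × Fin 9 // p.1 ≠ p.2.1 ∧ p.1 ≠ p.2.2 ∧ p.2.1 ≠ p.2.2})
      (fun p w v => Gf w v p.1.1 p.1.2.1 p.1.2.2) (m := 1) le_rfl (48 * 360 ^ 6)
      (fun z => ⟨i z, hi z⟩)
      (fun p w v μ ν hμ => Gf_scale w v hμ ν p.2.1 p.2.2.1 p.2.2.2)
      (by
        intro z f hf
        have h1 : AnalyticAt ℂ (fun w => PP (f w) (i z).1 (i z).2.1 (i z).2.2) z :=
          Finset.analyticAt_fun_prod _ fun t _ => hf.comp t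
        refine AnalyticAt.div ?_ h1 (hPne z f hf)
        unfold Uf
        exact analyticAt_const.mul ((((((hf.comp _).mul (hf.analyticAt_om _ _)).mul
          (hf.analyticAt_om _ _)).div_const).sub ((((hf.comp _).mul (hf.analyticAt_om _ _)).mul
          (hf.analyticAt_om _ _)).div_const)).add ((((hf.comp _).mul (hf.analyticAt_om _ _)).mul
          (hf.analyticAt_om _ _)).div_const)))
      (by
        intro z f hf t
        exact Gf_bound hf.ne _ t (hi z).1 (hi z).2.1 (hi z).2.2 (hi'' z f hf))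
      (by
        intro z f hf
        have h1 : ∀ᶠ w in 𝓝[≠] z, ∀ t, (ψ w).rep t ≠ 0 := by
          rw [Filter.eventually_all]
          exact fun t => hne t z
        filter_upwards [h1, hf.eventually.filter_mono nhdsWithin_le_nhds] with w h2 h3
        have h4 : ∀ t, f w t ≠ 0 := by
          intro t h5
          obtain ⟨μ, hμ, h6⟩ := h3.rep
          apply h2 t
          rw [h6]
          simp [h5]
        intro p
        rw [Gf_eq (h3.isQ hq) (h3.isQ' hq) h4 p.2.1 p.2.2.1 p.2.2.2,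
          Gf_eq (h3.isQ hq) (h3.isQ' hq) h4 (hi z).1 (hi z).2.1 (hi z).2.2])
    intro z f hf
    have h1 := hcz z f hf
    dsimp only at h1
    unfold Gf at h1
    rw [div_eq_zero_iff] at h1
    have h3 := h1.resolve_right (hPne z f hf)
    rw [W_eq (hf.isQ hq) (hf.isQ' hq) (hi z).1 (hi z).2.1 (hi z).2.2, h3, mul_zero]

/-- the constant coefficient as a linear map -/
def caL : (Fin 9 → ℂ) →ₗ[ℂ] ℂ := LinearMap.proj 0

/-- the leading coefficient as a linear map -/
noncomputable def ccL : (Fin 9 → ℂ) →ₗ[ℂ] ℂ :=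
  (1 / 1800 : ℂ) • (LinearMap.proj 2 - (2 : ℂ) • LinearMap.proj 1 + LinearMap.proj 0)

/-- the middle coefficient as a linear map -/
noncomputable def cbL : (Fin 9 → ℂ) →ₗ[ℂ] ℂ :=
  (1 / 60 : ℂ) • (LinearMap.proj 1 - caL - (900 : ℂ) • ccL)

lemma caL_apply (s : Fin 9 → ℂ) : caL s = ca s := rfl

lemma ccL_apply (s : Fin 9 → ℂ) : ccL s = cc s := by
  simp [ccL, cc]
  ring

lemma cbL_apply (s : Fin 9 → ℂ) : cbL s = cb s := by
  have h : cbL s = (1 / 60 : ℂ) * (s 1 - caL s - 900 * ccL s) := rfl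
  rw [h, caL_apply, ccL_apply, cb]
  ring

/-- five indices whose value is not `τ` -/
lemma exists_five (τ : ℂ) : ∃ S : Finset (Fin 9), S.card = 5 ∧ ∀ t ∈ S, nd t - τ ≠ 0 := by
  classical
  have h1 : (Finset.univ.filter fun t : Fin 9 => nd t - τ = 0).card ≤ 1 := by
    rw [Finset.card_le_one]
    intro p hp q hq
    rw [Finset.mem_filter] at hp hq
    by_contra hpq
    exact cast_sub_ne hpq (by linear_combination hq.2 - hp.2)
  have h2 := Finset.card_filter_add_card_filter_not (s := (Finset.univ : Finset (Fin 9)))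
    (fun t : Fin 9 => nd t - τ = 0)
  rw [Finset.card_univ, Fintype.card_fin] at h2
  obtain ⟨S, hS, hc⟩ := Finset.exists_subset_card_eq (n := 5)
    (s := Finset.univ.filter fun t : Fin 9 => ¬ nd t - τ = 0) (by omega)
  refine ⟨S, hc, fun t ht => ?_⟩
  have := hS ht
  rw [Finset.mem_filter] at this
  exact this.2

/-- a homogeneous polynomial in the squares -/
lemma analyticAt_sqv (L : (Fin 9 → ℂ) →ₗ[ℂ] ℂ) (x : Fin 9 → ℂ) :
    AnalyticAt ℂ (fun w => L (sqv w)) x := by
  have h1 : AnalyticAt ℂ (fun w : Fin 9 → ℂ => sqv w) x := by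
    rw [analyticAt_pi_iff]
    intro t
    exact ((ContinuousLinearMap.proj (R := ℂ) (φ := fun _ : Fin 9 => ℂ) t).analyticAt x).pow 2
  exact (L.toContinuousLinearMap.analyticAt (sqv x)).comp h1


/-- the discriminant of the quadratic polynomial through the squares -/
noncomputable def disc9 (w : Fin 9 → ℂ) : ℂ := cb (sqv w) ^ 2 - ca (sqv w) * cc (sqv w)

lemma disc9_of {w : Fin 9 → ℂ} {a b c : ℂ}
    (h : ∀ t : Fin 9, w t ^ 2 = a + 2 * nd t * b + nd t ^ 2 * c) :
    disc9 w = b ^ 2 - a * c := by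
  have h0 := h 0
  have h1 := h 1
  have h2 := h 2
  rw [nd_zero] at h0
  rw [nd_one] at h1
  rw [nd_two] at h2
  have ha : ca (sqv w) = a := by
    simp only [ca, sqv]
    linear_combination h0
  have hc : cc (sqv w) = c := by
    simp only [cc, sqv]
    linear_combination h2 / 1800 - h1 / 900 + h0 / 1800
  have hb : cb (sqv w) = b := by
    rw [cb, ha, hc]
    simp only [sqv]
    linear_combination h1 / 60
  unfold disc9
  rw [ha, hb, hc]

/-- **Entire curves on the Buechi surface** (Vojta's theorem, for nine squares). If the squares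
of the nine coordinates of an entire curve are the values at `0, ..., 8` of polynomials
`a + 2 * t * b + t ^ 2 * c`, then the curve is constant or these polynomials are all squares. -/
theorem buchi (ψ : ℂ → ℙ ℂ (Fin 9 → ℂ)) (hψ : ∀ z, HolomorphicAt ψ z)
    (h : ∀ z, ∃ a b c : ℂ, ∀ t : Fin 9,
      (ψ z).rep t ^ 2 = a + 2 * nd t * b + nd t ^ 2 * c) :
    (∀ z w, ψ z = ψ w) ∨ (∀ z, disc9 (ψ z).rep = 0) := by
  have hq : ∀ z, IsQ (sqv (ψ z).rep) := fun z => isQ_of (h z)
  -- the discriminant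
  rcases curve_dichotomy hψ disc9 (fun x => by
      have h1 := ((analyticAt_sqv cbL x).pow 2).sub
        ((analyticAt_sqv caL x).mul (analyticAt_sqv ccL x))
      refine h1.congr (Filter.Eventually.of_forall fun w => ?_)
      simp only [disc9, caL_apply, cbL_apply, ccL_apply, Pi.sub_apply, Pi.pow_apply, Pi.mul_apply])
    4 (fun t x => by
      unfold disc9
      rw [sqv_smul, ← cbL_apply, ← caL_apply, ← ccL_apply, map_smul, map_smul, map_smul]
      simp only [smul_eq_mul, cbL_apply, caL_apply, ccL_apply]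
      ring) with hdisc | hdisc
  · exact Or.inr hdisc
  left
  -- the leading coefficient
  rcases curve_dichotomy hψ (fun w => ccL (sqv w)) (analyticAt_sqv ccL) 2 (fun t x => by
      rw [sqv_smul, map_smul, smul_eq_mul]) with hc0 | hc0
  · refine curve_linear nodes_nd hψ (κ := fun _ => 1) (S := {0, 1, 2, 3, 4}) rfl
      (fun _ _ => one_ne_zero) ((2 : ℂ) • cbL) caL fun z t => ?_
    have h1 := hc0 z
    rw [ccL_apply] at h1
    rw [hq z t, h1, LinearMap.smul_apply, cbL_apply, caL_apply, smul_eq_mul]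
    ring
  -- a point where both do not vanish
  obtain ⟨f, hf⟩ : ∃ f, IsLift ψ f 0 := hψ 0
  obtain ⟨z₁, hz₁, hd₁, hc₁⟩ : ∃ z₁, IsLift ψ f z₁ ∧ disc9 (ψ z₁).rep ≠ 0 ∧
      ccL (sqv (ψ z₁).rep) ≠ 0 := by
    have h1 := ((hf.eventually.filter_mono (nhdsWithin_le_nhds (s := {(0 : ℂ)}ᶜ))).and
      (hdisc 0)).and (hc0 0)
    obtain ⟨z₁, ⟨h2, h3⟩, h4⟩ := h1.exists
    exact ⟨z₁, h2, h3, h4⟩
  obtain ⟨μ, hμ, hrep⟩ := hz₁.rep
  have hd : cb (sqv (f z₁)) ^ 2 - ca (sqv (f z₁)) * cc (sqv (f z₁)) ≠ 0 := by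
    intro h0
    apply hd₁
    rw [hrep]
    unfold disc9
    rw [sqv_smul, ← cbL_apply, ← caL_apply, ← ccL_apply, map_smul, map_smul, map_smul]
    simp only [smul_eq_mul, cbL_apply, caL_apply, ccL_apply]
    linear_combination μ ^ 4 * h0
  have hc : cc (sqv (f z₁)) ≠ 0 := by
    intro h0
    apply hc₁
    rw [hrep, sqv_smul, map_smul, ccL_apply, h0, smul_zero]
  have hana : ∀ L : (Fin 9 → ℂ) →ₗ[ℂ] ℂ, AnalyticAt ℂ (fun w => L (sqv (f w))) z₁ := fun L =>
    (analyticAt_sqv L (f z₁)).comp hz₁.1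
  have hda : ∀ᶠ w in 𝓝 z₁, deriv (fun w => ca (sqv (f w))) w = ca (dsq (f w) (deriv f w)) ∧
      deriv (fun w => cb (sqv (f w))) w = cb (dsq (f w) (deriv f w)) ∧
      deriv (fun w => cc (sqv (f w))) w = cc (dsq (f w) (deriv f w)) := by
    filter_upwards [hz₁.eventually] with w hw
    exact ⟨hw.hasDerivAt_ca.deriv, hw.hasDerivAt_cb.deriv, hw.hasDerivAt_cc.deriv⟩
  have ha' : AnalyticAt ℂ (fun w => ca (sqv (f w))) z₁ := hana caL
  have hb' : AnalyticAt ℂ (fun w => cb (sqv (f w))) z₁ := by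
    have := hana cbL
    simp only [cbL_apply] at this
    exact this
  have hc' : AnalyticAt ℂ (fun w => cc (sqv (f w))) z₁ := by
    have := hana ccL
    simp only [ccL_apply] at this
    exact this
  rcases exists_root ha' hb' hc' hc hd (by
      filter_upwards [hda, hz₁.eventually] with w h1 h2
      obtain ⟨e1, e2, e3⟩ := h1
      rw [e1, e2, e3]
      exact Wr_zero hψ hq w f h2) with hcase | hcase
  · -- the ratio of the coefficients is constant
    refine const_of_om hψ hz₁ ?_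
    filter_upwards [hcase, hda, hz₁.eventually] with w h1 h2 h3 j l
    obtain ⟨k1, k2, k3⟩ := h1
    obtain ⟨e1, e2, e3⟩ := h2
    rw [e1, e2] at k1
    rw [e1, e3] at k2
    rw [e2, e3] at k3
    have h4 : 2 * (f w j * f w l * om (f w) (deriv f w) j l) =
        sqv (f w) j * dsq (f w) (deriv f w) l - sqv (f w) l * dsq (f w) (deriv f w) j := by
      simp only [om, sqv, dsq]
      ring
    have h5 : sqv (f w) j * dsq (f w) (deriv f w) l - sqv (f w) l * dsq (f w) (deriv f w) j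
        = 0 := by
      rw [(h3.isQ hq) j, (h3.isQ hq) l, (h3.isQ' hq) j, (h3.isQ' hq) l]
      linear_combination (2 * (nd l - nd j)) * k1
        + (nd l ^ 2 - nd j ^ 2) * k2
        + (2 * nd j * nd l * (nd l - nd j)) * k3
    rw [h5] at h4
    linear_combination h4 / 2
  · -- a constant root
    obtain ⟨z₂, ⟨τ, hτ⟩, hz₂⟩ := (hcase.and_eventually hz₁.eventually).exists
    have hroot : ∀ z, (caL + (2 * τ) • cbL + (τ ^ 2) • ccL) (sqv (ψ z).rep) = 0 := by
      refine (curve_dichotomy hψ (fun w => (caL + (2 * τ) • cbL + (τ ^ 2) • ccL) (sqv w))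
        (analyticAt_sqv _) 2 (fun t x => by
          rw [sqv_smul, map_smul, smul_eq_mul])).resolve_right ?_
      intro h1
      have h2 : ∀ᶠ w in 𝓝[≠] z₂, False := by
        filter_upwards [h1 z₂, hτ.filter_mono nhdsWithin_le_nhds,
          hz₂.eventually.filter_mono nhdsWithin_le_nhds] with w k1 k2 k3
        apply k1
        obtain ⟨μ, hμ, h3⟩ := k3.rep
        rw [h3, sqv_smul, map_smul]
        simp only [LinearMap.add_apply, LinearMap.smul_apply, smul_eq_mul, caL_apply, cbL_apply,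
          ccL_apply]
        linear_combination μ ^ 2 * k2
      exact h2.exists.choose_spec
    obtain ⟨S, hS, hSτ⟩ := exists_five τ
    refine curve_linear nodes_nd hψ (κ := fun t => nd t - τ) (S := S) hS hSτ ccL
      (τ • ccL + (2 : ℂ) • cbL) fun z t => ?_
    have h1 := hroot z
    simp only [LinearMap.add_apply, LinearMap.smul_apply, smul_eq_mul, caL_apply, cbL_apply,
      ccL_apply] at h1 ⊢
    rw [hq z t]
    linear_combination h1

end Pool.Agent.Lib.MP_627a61_nt.Bx
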