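import Pool.Agent.Lib.MP_627a61_nt.Bx.Alg
import Pool.Agent.Lib.MP_627a61_nt.Sq.AhlforsSchwarz

/-!
# Lifts of curves in the eight-dimensional projective space
-/

open scoped LinearAlgebra.Projectivization Topology
open Filter

namespace Pool.Agent.Lib.MP_627a61_nt.Bx

/-- `f` is a holomorphic lift of the curve `ψ` near `z` -/
def IsLift (ψ : ℂ → ℙ ℂ (Fin 9 → ℂ)) (f : ℂ → Fin 9 → ℂ) (z : ℂ) : Prop :=
  AnalyticAt ℂ f z ∧ ∀ᶠ w in 𝓝 z, ∃ h : f w ≠ 0, ψ w = Projectivization.mk ℂ (f w) h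

variable {ψ : ℂ → ℙ ℂ (Fin 9 → ℂ)} {f g : ℂ → Fin 9 → ℂ} {z : ℂ}

lemma IsLift.eventually (h : IsLift ψ f z) : ∀ᶠ w in 𝓝 z, IsLift ψ f w := by
  filter_upwards [h.1.eventually_analyticAt, h.2.eventually_nhds] with w h1 h2 using ⟨h1, h2⟩

lemma IsLift.ne (h : IsLift ψ f z) : f z ≠ 0 := by
  obtain ⟨h0, -⟩ := h.2.self_of_nhds
  exact h0

lemma IsLift.rep (h : IsLift ψ f z) : ∃ t : ℂ, t ≠ 0 ∧ (ψ z).rep = t • f z := by
  obtain ⟨h0, h1⟩ := h.2.self_of_nhds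
  exact exists_rep_eq h1

lemma IsLift.comp (h : IsLift ψ f z) (t : Fin 9) : AnalyticAt ℂ (fun w => f w t) z :=
  ((ContinuousLinearMap.proj (R := ℂ) (φ := fun _ : Fin 9 => ℂ) t).analyticAt (f z)).comp h.1

lemma IsLift.hasDerivAt (h : IsLift ψ f z) (t : Fin 9) :
    HasDerivAt (fun w => f w t) (deriv f z t) z :=
  (hasDerivAt_pi.1 h.1.differentiableAt.hasDerivAt) t

lemma IsLift.comp' (h : IsLift ψ f z) (t : Fin 9) : AnalyticAt ℂ (fun w => deriv f w t) z :=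
  ((ContinuousLinearMap.proj (R := ℂ) (φ := fun _ : Fin 9 => ℂ) t).analyticAt _).comp
    (h.1.deriv)

lemma IsLift.compare (hf : IsLift ψ f z) (hg : IsLift ψ g z) :
    ∃ μ ν : ℂ, μ ≠ 0 ∧ g z = μ • f z ∧ deriv g z = μ • deriv f z + ν • f z := by
  obtain ⟨i, hi⟩ : ∃ i, f z i ≠ 0 := by
    by_contra hcon
    push Not at hcon
    exact hf.ne (funext hcon)
  have hfi : ∀ᶠ w in 𝓝 z, f w i ≠ 0 := (hf.comp i).continuousAt.eventually_ne hi
  have hgf : ∀ᶠ w in 𝓝 z, g w = (g w i / f w i) • f w := by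
    filter_upwards [hfi, hf.2, hg.2] with w h1 h2 h3
    obtain ⟨h4, h5⟩ := h2
    obtain ⟨h6, h7⟩ := h3
    rw [h5, Projectivization.mk_eq_mk_iff'] at h7
    obtain ⟨t, ht⟩ := h7
    have ht0 : t ≠ 0 := by
      rintro rfl
      rw [zero_smul] at ht
      exact h4 ht.symm
    have h8 : g w = t⁻¹ • f w := by
      rw [← ht, smul_smul, inv_mul_cancel₀ ht0, one_smul]
    have h9 : g w i = t⁻¹ * f w i := by
      rw [h8]
      rfl
    rw [h9, mul_div_assoc, div_self h1, mul_one]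
    exact h8
  have hμ : AnalyticAt ℂ (fun w => g w i / f w i) z := (hg.comp i).div (hf.comp i) hi
  have hd : HasDerivAt (fun w => (g w i / f w i) • f w)
      ((g z i / f z i) • deriv f z + (deriv (fun w => g w i / f w i) z) • f z) z :=
    hμ.differentiableAt.hasDerivAt.smul hf.1.differentiableAt.hasDerivAt
  refine ⟨g z i / f z i, deriv (fun w => g w i / f w i) z, ?_, hgf.self_of_nhds, ?_⟩
  · intro h0
    have h1 := hgf.self_of_nhds
    rw [h0, zero_smul] at h1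
    exact hg.ne h1
  · have h2 : g =ᶠ[𝓝 z] fun w => (g w i / f w i) • f w := hgf
    rw [h2.deriv_eq, hd.deriv]

lemma isQ_smul {s : Fin 9 → ℂ} {t : ℂ} (ht : t ≠ 0) (h : IsQ (t • s)) : IsQ s := by
  intro x
  have h1 := h x
  simp only [ca, cb, cc, Pi.smul_apply, smul_eq_mul] at h1 ⊢
  have h2 : t * (s x) = t * (s 0 + 2 * nd x *
      ((s 1 - s 0 - 900 * ((s 2 - 2 * s 1 + s 0) / 1800)) / 60)
      + nd x ^ 2 * ((s 2 - 2 * s 1 + s 0) / 1800)) := by
    rw [h1]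
    ring
  exact mul_left_cancel₀ ht h2

lemma IsLift.isQ (hq : ∀ z, IsQ (sqv (ψ z).rep)) (hf : IsLift ψ f z) : IsQ (sqv (f z)) := by
  obtain ⟨t, ht, h1⟩ := hf.rep
  have h2 := hq z
  rw [h1] at h2
  refine isQ_smul (t := t ^ 2) (pow_ne_zero 2 ht) ?_
  have h3 : sqv (t • f z) = t ^ 2 • sqv (f z) := by
    funext x
    simp only [sqv, Pi.smul_apply, smul_eq_mul]
    ring
  rw [← h3]
  exact h2

lemma IsLift.hasDerivAt_sq (h : IsLift ψ f z) (t : Fin 9) :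
    HasDerivAt (fun w => sqv (f w) t) (dsq (f z) (deriv f z) t) z := by
  have h1 : HasDerivAt (fun w => f w t * f w t) (deriv f z t * f z t + f z t * deriv f z t) z :=
    (h.hasDerivAt t).mul (h.hasDerivAt t)
  have e1 : (fun w => sqv (f w) t) = fun w => f w t * f w t := by
    funext w
    simp only [sqv]
    ring
  have e2 : dsq (f z) (deriv f z) t = deriv f z t * f z t + f z t * deriv f z t := by
    simp only [dsq]
    ring
  rw [e1, e2]
  exact h1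

lemma IsLift.hasDerivAt_ca (h : IsLift ψ f z) :
    HasDerivAt (fun w => ca (sqv (f w))) (ca (dsq (f z) (deriv f z))) z :=
  h.hasDerivAt_sq 0

lemma IsLift.hasDerivAt_cc (h : IsLift ψ f z) :
    HasDerivAt (fun w => cc (sqv (f w))) (cc (dsq (f z) (deriv f z))) z :=
  (((h.hasDerivAt_sq 2).sub ((h.hasDerivAt_sq 1).const_mul 2)).add
    (h.hasDerivAt_sq 0)).div_const 1800

lemma IsLift.hasDerivAt_cb (h : IsLift ψ f z) :
    HasDerivAt (fun w => cb (sqv (f w))) (cb (dsq (f z) (deriv f z))) z :=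
  (((h.hasDerivAt_sq 1).sub h.hasDerivAt_ca).sub (h.hasDerivAt_cc.const_mul 900)).div_const 60

lemma IsLift.isQ' (hq : ∀ z, IsQ (sqv (ψ z).rep)) (hf : IsLift ψ f z) :
    IsQ (dsq (f z) (deriv f z)) := by
  intro t
  have h1 := (hf.hasDerivAt_ca.add ((hf.hasDerivAt_cb).const_mul (2 * nd t))).add
    ((hf.hasDerivAt_cc).const_mul (nd t ^ 2))
  have h2 : (fun w => sqv (f w) t) =ᶠ[𝓝 z] fun w => ca (sqv (f w))
      + 2 * nd t * cb (sqv (f w)) + nd t ^ 2 * cc (sqv (f w)) := by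
    filter_upwards [hf.eventually] with w hw using (hw.isQ hq) t
  exact (hf.hasDerivAt_sq t).unique (h1.congr_of_eventuallyEq h2)

/-- A homogeneous condition holds everywhere along a curve or only at isolated points. -/
lemma curve_dichotomy (hψ : ∀ z, HolomorphicAt ψ z) (P : (Fin 9 → ℂ) → ℂ)
    (hP : ∀ x, AnalyticAt ℂ P x) (e : ℕ) (hom : ∀ (t : ℂ) x, P (t • x) = t ^ e * P x) :
    (∀ z, P (ψ z).rep = 0) ∨ ∀ z, ∀ᶠ w in 𝓝[≠] z, P (ψ w).rep ≠ 0 := by
  by_cases h : ∀ z, P (ψ z).rep = 0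
  · exact Or.inl h
  · push Not at h
    obtain ⟨z₀, hz₀⟩ := h
    right
    have h0 : (fun _ : Fin 1 => P (ψ z₀).rep) ≠ 0 := by
      intro h1
      exact hz₀ (congrFun h1 0)
    obtain ⟨-, -, -, h3⟩ := exists_division hψ (fun x (_ : Fin 1) => P x)
      (by
        intro x
        rw [analyticAt_pi_iff]
        intro i
        exact hP x) e
      (by
        intro t x
        funext i
        simp [hom]) h0
    intro z
    filter_upwards [h3 z] with w hw h4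
    apply hw
    funext i
    exact h4

/-- Ahlfors-Schwarz lemma for functions of the jet of a curve. -/
theorem curve_zero (hψ : ∀ z, HolomorphicAt ψ z) {I : Type*}
    (G : I → (Fin 9 → ℂ) → (Fin 9 → ℂ) → ℂ) {m : ℕ} (hm : 1 ≤ m) (C : ℝ) (i : ℂ → I)
    (hscale : ∀ i w v (μ ν : ℂ), μ ≠ 0 → G i (μ • w) (μ • v + ν • w) * μ ^ m = G i w v)
    (h1 : ∀ z f, IsLift ψ f z → AnalyticAt ℂ (fun w => G (i z) (f w) (deriv f w)) z)
    (h2 : ∀ z f, IsLift ψ f z → ∀ t : ℂ, ‖G (i z) (f z) (deriv f z)‖ * nrm (f z) ^ m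
      ≤ C * (nrm (deriv f z - t • f z) / nrm (f z)) ^ 2)
    (h3 : ∀ z f, IsLift ψ f z → ∀ᶠ w in 𝓝[≠] z, ∀ j,
      G j (f w) (deriv f w) = G (i z) (f w) (deriv f w)) :
    ∀ z f, IsLift ψ f z → G (i z) (f z) (deriv f z) = 0 := by
  have hψ' : ∀ z, ∃ f, IsLift ψ f z := hψ
  choose f hf using hψ'
  set F : ℂ → ℝ := fun z => ‖G (i z) (f z z) (deriv (f z) z)‖ * nrm (f z z) ^ m with hF
  have hcmp : ∀ z g, IsLift ψ g z → ∀ j,
      ‖G j (f z z) (deriv (f z) z)‖ * nrm (f z z) ^ m = ‖G j (g z) (deriv g z)‖ * nrm (g z) ^ m := by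
    intro z g hg j
    obtain ⟨μ, ν, hμ, e1, e2⟩ := (hf z).compare hg
    rw [e1, e2, ← hscale j (f z z) (deriv (f z) z) μ ν hμ, nrm_smul, norm_mul, norm_pow, mul_pow]
    ring
  have key : ∀ z₀ g, IsLift ψ g z₀ →
      ∀ᶠ z in 𝓝 z₀, F z = ‖G (i z₀) (g z) (deriv g z)‖ * nrm (g z) ^ m := by
    intro z₀ g hg
    have h4 := h3 z₀ g hg
    rw [eventually_nhdsWithin_iff] at h4
    filter_upwards [hg.eventually, h4] with z h5 h6
    rw [hF]
    dsimp only
    rw [hcmp z g h5 (i z)]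
    by_cases hz : z = z₀
    · rw [hz]
    · rw [h6 hz (i z)]
  have hF0 : ∀ z, F z = 0 := by
    refine ahlfors_schwarz (E := EuclideanSpace ℂ (Fin 9)) (m := m) hm (C := C) fun z₀ => ?_
    have hd : HasDerivAt (fun z => (WithLp.toLp 2 (f z₀ z) : EuclideanSpace ℂ (Fin 9)))
        (WithLp.toLp 2 (deriv (f z₀) z₀)) z₀ := by
      have h5 := (hf z₀).1.differentiableAt.hasDerivAt
      have h6 := ((EuclideanSpace.equiv (Fin 9) ℂ).symm :
        (Fin 9 → ℂ) →L[ℂ] EuclideanSpace ℂ (Fin 9)).hasFDerivAt (x := f z₀ z₀)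
      exact h6.comp_hasDerivAt z₀ h5
    refine ⟨fun z => WithLp.toLp 2 (f z₀ z), fun z => G (i z₀) (f z₀ z) (deriv (f z₀) z), ?_,
      h1 z₀ _ (hf z₀), ?_, ?_, ?_⟩
    · exact (((EuclideanSpace.equiv (Fin 9) ℂ).symm :
        (Fin 9 → ℂ) →L[ℂ] EuclideanSpace ℂ (Fin 9)).analyticAt _).comp (hf z₀).1
    · have := nrm_pos (hf z₀).ne
      exact norm_pos_iff.1 this
    · exact key z₀ _ (hf z₀)
    · intro t
      rw [hd.deriv]
      exact h2 z₀ _ (hf z₀) t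
  intro z g hg
  have h7 := (key z g hg).self_of_nhds
  rw [hF0 z] at h7
  have h8 := nrm_pos hg.ne
  have h9 : ‖G (i z) (g z) (deriv g z)‖ = 0 := by
    by_contra hne
    have : 0 < ‖G (i z) (g z) (deriv g z)‖ := lt_of_le_of_ne (norm_nonneg _) (Ne.symm hne)
    have : 0 < ‖G (i z) (g z) (deriv g z)‖ * nrm (g z) ^ m := by positivity
    linarith
  exact norm_eq_zero.1 h9

end Pool.Agent.Lib.MP_627a61_nt.Bx
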