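import Pool.Agent.Lib.MP_627a61_nt.Bx.Pencil
import Pool.Agent.Lib.MP_627a61_nt.Bx.Alg3
import Pool.Agent.Lib.MP_627a61_nt.Sq.Glue

/-!
# The dichotomy for the matrices along an entire curve, for the box `{0, ..., 3} ^ n`
-/

open scoped LinearAlgebra.Projectivization Topology
open Filter

namespace Pool.Agent.Lib.MP_627a61_nt.Bx

section

variable {ν : Type} [Fintype ν] [DecidableEq ν] {R : Type} [CommRing R]

/-- indicator function -/
def ind (R : Type) [CommRing R] (S : Finset ν) : ν → R := fun i => if i ∈ S then 1 else 0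

lemma sum_ind (φ : ν → ν → R) (S T : Finset ν) :
    ∑ i, ∑ j, ind R S i * ind R T j * φ i j = fS φ S T := by
  unfold fS ind
  have h1 : ∀ i, (∑ j, (if i ∈ S then (1 : R) else 0) * (if j ∈ T then 1 else 0) * φ i j) =
      if i ∈ S then ∑ j ∈ T, φ i j else 0 := by
    intro i
    by_cases hi : i ∈ S
    · simp [hi, ite_mul, Finset.sum_ite_mem]
    · simp [hi]
  simp only [h1, Finset.sum_ite_mem, Finset.univ_inter]

/-- the vector with three values -/
def vec3 (s t r : R) (S T U : Finset ν) : ν → R :=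
  fun i => s * ind R S i + t * ind R T i + r * ind R U i

lemma fS_symm' {φ : ν → ν → R} (hφ : ∀ i j, φ i j = φ j i) (S T : Finset ν) :
    fS φ S T = fS φ T S := by
  unfold fS
  rw [Finset.sum_comm]
  exact Finset.sum_congr rfl fun i _ => Finset.sum_congr rfl fun j _ => hφ j i

lemma qv_vec3 {φ : ν → ν → R} (hφ : ∀ i j, φ i j = φ j i) (s t r : R) (S T U : Finset ν) :
    qv φ (vec3 s t r S T U) = s ^ 2 * fS φ S S + t ^ 2 * fS φ T T + r ^ 2 * fS φ U U +
      2 * s * t * fS φ S T + 2 * s * r * fS φ S U + 2 * t * r * fS φ T U := by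
  have h1 : qv φ (vec3 s t r S T U) =
      s * s * (∑ i, ∑ j, ind R S i * ind R S j * φ i j) +
      s * t * (∑ i, ∑ j, ind R S i * ind R T j * φ i j) +
      s * r * (∑ i, ∑ j, ind R S i * ind R U j * φ i j) +
      t * s * (∑ i, ∑ j, ind R T i * ind R S j * φ i j) +
      t * t * (∑ i, ∑ j, ind R T i * ind R T j * φ i j) +
      t * r * (∑ i, ∑ j, ind R T i * ind R U j * φ i j) +
      r * s * (∑ i, ∑ j, ind R U i * ind R S j * φ i j) +
      r * t * (∑ i, ∑ j, ind R U i * ind R T j * φ i j) +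
      r * r * (∑ i, ∑ j, ind R U i * ind R U j * φ i j) := by
    unfold qv vec3
    simp only [Finset.mul_sum, ← Finset.sum_add_distrib]
    refine Finset.sum_congr rfl fun i _ => Finset.sum_congr rfl fun j _ => ?_
    ring
  rw [h1]
  simp only [sum_ind]
  rw [fS_symm' hφ T S, fS_symm' hφ U S, fS_symm' hφ U T]
  ring

lemma fS_mul (t : R) (φ : ν → ν → R) (S T : Finset ν) :
    fS (fun i j => t * φ i j) S T = t * fS φ S T := by
  unfold fS
  rw [Finset.mul_sum]
  exact Finset.sum_congr rfl fun i _ => by rw [Finset.mul_sum]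

lemma fS_map {R' : Type} [CommRing R'] (g : R →+* R') (φ : ν → ν → R) (S T : Finset ν) :
    fS (fun i j => g (φ i j)) S T = g (fS φ S T) := by
  unfold fS
  rw [map_sum]
  exact Finset.sum_congr rfl fun i _ => by rw [map_sum]

lemma fS_app (F : ν → ν → (ℂ → ℂ)) (S T : Finset ν) (w : ℂ) :
    (fS F S T) w = fS (fun i j => F i j w) S T :=
  (fS_map (Pi.evalRingHom (fun _ : ℂ => ℂ) w) F S T).symm

/-- the vector with entries in `Fin 4` -/
def v4 (s t r : ℕ) (hs : s ≤ 3) (ht : t ≤ 3) (hr : r ≤ 3) (S T U : Finset ν) : ν → Fin 4 :=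
  fun i => if i ∈ S then ⟨s, by omega⟩ else if i ∈ T then ⟨t, by omega⟩ else
    if i ∈ U then ⟨r, by omega⟩ else 0

lemma v4_cast {s t r : ℕ} (hs : s ≤ 3) (ht : t ≤ 3) (hr : r ≤ 3) {S T U : Finset ν}
    (hST : Disjoint S T) (hSU : Disjoint S U) (hTU : Disjoint T U) :
    (fun i => ((v4 s t r hs ht hr S T U i : ℕ) : R)) = vec3 (s : R) (t : R) (r : R) S T U := by
  funext i
  unfold v4 vec3 ind
  by_cases h1 : i ∈ S
  · have h2 : i ∉ T := Finset.disjoint_left.1 hST h1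
    have h3 : i ∉ U := Finset.disjoint_left.1 hSU h1
    simp [h1, h2, h3]
  · by_cases h2 : i ∈ T
    · have h3 : i ∉ U := Finset.disjoint_left.1 hTU h2
      simp [h1, h2, h3]
    · by_cases h3 : i ∈ U
      · simp [h1, h2, h3]
      · simp [h1, h2, h3]

end

/-- the three coefficients of the five vectors of the pencil -/
def cs : Fin 5 → ℕ := ![1, 1, 0, 3, 2]

/-- the three coefficients of the five vectors of the pencil -/
def ct : Fin 5 → ℕ := ![1, 0, 1, 2, 3]

/-- the three coefficients of the five vectors of the pencil -/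
def cr : Fin 5 → ℕ := ![0, 1, 1, 1, 1]

lemma cs_le : ∀ i, cs i ≤ 3 := by decide

lemma ct_le : ∀ i, ct i ≤ 3 := by decide

lemma cr_le : ∀ i, cr i ≤ 3 := by decide

lemma c_qa : ∀ i, (2 * (cs i : ℤ) * ct i - 2 * ct i * cr i = qa i) ∧
    (2 * (cs i : ℤ) * cr i - 2 * ct i * cr i = qb i) := by decide

section

variable {ν I : Type} [Fintype ν] [DecidableEq ν]

/-- the matrix given by the coordinates -/
noncomputable def mA (l : (ν → Fin 4) → I) (x : I → ℂ) (j k : ν) : ℂ :=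
  if j = k then x (l (v4 1 0 0 (by norm_num) (by norm_num) (by norm_num) {j} ∅ ∅)) ^ 2 else
    (x (l (v4 1 1 0 (by norm_num) (by norm_num) (by norm_num) {j} {k} ∅)) ^ 2 -
      x (l (v4 1 0 0 (by norm_num) (by norm_num) (by norm_num) {j} ∅ ∅)) ^ 2 -
      x (l (v4 1 0 0 (by norm_num) (by norm_num) (by norm_num) {k} ∅ ∅)) ^ 2) / 2

lemma mA_eq (l : (ν → Fin 4) → I) {lam : I → ν → ℂ}
    (hl : ∀ v, lam (l v) = fun a => ((v a : ℕ) : ℂ))
    (φ : ν → ν → ℂ) (hφ : ∀ i j, φ i j = φ j i) (x : I → ℂ)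
    (hx : ∀ i, x i ^ 2 = qv φ (lam i)) (j k : ν) : mA l x j k = φ j k := by
  have h1 : ∀ j : ν, x (l (v4 1 0 0 (by norm_num) (by norm_num) (by norm_num) {j} ∅ ∅)) ^ 2 =
      φ j j := by
    intro j
    rw [hx, hl, v4_cast _ _ _ (by simp) (by simp) (by simp), qv_vec3 hφ]
    simp [fS]
  unfold mA
  by_cases hjk : j = k
  · rw [if_pos hjk, h1, hjk]
  · rw [if_neg hjk, h1, h1, hx, hl, v4_cast _ _ _ (by simpa using hjk) (by simp) (by simp),
      qv_vec3 hφ]
    simp [fS]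
    ring

lemma mA_smul (l : (ν → Fin 4) → I) (t : ℂ) (x : I → ℂ) (j k : ν) :
    mA l (t • x) j k = t ^ 2 * mA l x j k := by
  unfold mA
  simp only [Pi.smul_apply, smul_eq_mul]
  by_cases hjk : j = k
  · rw [if_pos hjk, if_pos hjk]
    ring
  · rw [if_neg hjk, if_neg hjk]
    ring

end

theorem dich3 {ν I : Type} [Fintype ν] [DecidableEq ν] [Fintype I]
    (Φ : Submodule ℂ (ν → ν → ℂ)) (hΦ : Symm Φ) (lam : I → ν → ℂ)
    (hlam : ∀ v : ν → Fin 4, ∃ l, lam l = fun a => ((v a : ℕ) : ℂ))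
    (ψ : ℂ → ℙ ℂ (I → ℂ)) (hψ : ∀ z, HolomorphicAt ψ z) (hval : ∀ z, ψ z ∈ valSet Φ lam) (z₀ : ℂ) :
    (∀ᶠ z in 𝓝[≠] z₀, ∀ φ ∈ Φ, (∀ l, (ψ z).rep l ^ 2 = qv φ (lam l)) →
      ∀ i j k, φ i i * φ j k = φ i j * φ i k) ∨
    ∃ c : ν → ν → ℂ, ∃ᶠ z in 𝓝[≠] z₀, ∀ φ ∈ Φ, (∀ l, (ψ z).rep l ^ 2 = qv φ (lam l)) →
      ∃ h : ℂ, ∀ i j, φ i j = c i j * h := by
  choose l hl using hlam
  obtain ⟨f, hf, hw⟩ := hψ z₀
  have hfa : ∀ a, AnalyticAt ℂ (fun w => f w a) z₀ := fun a =>
    ((ContinuousLinearMap.proj (R := ℂ) (φ := fun _ : I => ℂ) a).analyticAt (f z₀)).comp hf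
  -- the matrix in terms of the lift
  obtain ⟨F, hF⟩ : ∃ F : ν → ν → (ℂ → ℂ), F = fun j k w => mA l (f w) j k := ⟨_, rfl⟩
  have hFan : ∀ j k, AnalyticAt ℂ (F j k) z₀ := by
    intro j k
    rw [hF]
    unfold mA
    by_cases hjk : j = k
    · simp only [if_pos hjk]
      exact (hfa _).pow 2
    · simp only [if_neg hjk]
      exact ((((hfa _).pow 2).sub ((hfa _).pow 2)).sub ((hfa _).pow 2)).div analyticAt_const
        two_ne_zero
  have hrel : ∀ᶠ w in 𝓝 z₀, ∃ τ : ℂ, τ ≠ 0 ∧ ∀ φ ∈ Φ, (∀ i, (ψ w).rep i ^ 2 = qv φ (lam i)) →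
      ∀ j k, φ j k = τ * F j k w := by
    filter_upwards [hw] with w h1
    obtain ⟨h2, h3⟩ := h1
    obtain ⟨t, ht, hrep⟩ := exists_rep_eq h3
    refine ⟨t ^ 2, pow_ne_zero _ ht, ?_⟩
    intro φ hφ hq j k
    rw [← mA_eq l hl φ (hΦ φ hφ) _ hq j k, hrep, mA_smul, hF]
  have hrel' : ∀ᶠ w in 𝓝[≠] z₀, ∃ τ : ℂ, τ ≠ 0 ∧ ∀ φ ∈ Φ,
      (∀ i, (ψ w).rep i ^ 2 = qv φ (lam i)) → ∀ j k, φ j k = τ * F j k w :=
    hrel.filter_mono nhdsWithin_le_nhds
  -- a form with the factor
  have hrel2 : ∀ᶠ w in 𝓝[≠] z₀, ∃ τ : ℂ, τ ≠ 0 ∧ (∀ i j, F i j w = F j i w) ∧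
      (fun i j => τ * F i j w) ∈ Φ ∧
      ∀ i, (ψ w).rep i ^ 2 = qv (fun i j => τ * F i j w) (lam i) := by
    filter_upwards [hrel'] with w h1
    obtain ⟨τ, hτ, h2⟩ := h1
    obtain ⟨φ, hφ, hq⟩ := hval w
    have h3 : φ = fun i j => τ * F i j w := by
      funext i j
      exact h2 φ hφ hq i j
    refine ⟨τ, hτ, fun i j => ?_, h3 ▸ hφ, fun i => ?_⟩
    · have h4 := hΦ φ hφ i j
      rw [h3] at h4
      exact mul_left_cancel₀ hτ h4
    · rw [hq i, h3]
  -- the field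
  obtain ⟨V, hV⟩ : ∃ V : Ultrafilter ℂ, (V : Filter ℂ) ≤ 𝓝[≠] z₀ :=
    ⟨Ultrafilter.of (𝓝[≠] z₀), Ultrafilter.of_le _⟩
  let g : (ℂ → ℂ) →+* Filter.Germ (V : Filter ℂ) ℂ := Filter.Germ.coeRingHom _
  let κ₀ : ℂ →+* Filter.Germ (V : Filter ℂ) ℂ := g.comp (Pi.constRingHom ℂ ℂ)
  have hg : ∀ a b : ℂ → ℂ, g a = g b ↔ ∀ᶠ w in (V : Filter ℂ), a w = b w := fun a b =>
    Filter.Germ.coe_eq
  let J : Filter.Germ (V : Filter ℂ) ℂ →+* AlgebraicClosure (Filter.Germ (V : Filter ℂ) ℂ) :=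
    algebraMap _ _
  have hJ : Function.Injective J := J.injective
  let ι : ℂ →+* AlgebraicClosure (Filter.Germ (V : Filter ℂ) ℂ) := J.comp κ₀
  obtain ⟨φ₀, hφ₀⟩ : ∃ φ₀ : ν → ν → AlgebraicClosure (Filter.Germ (V : Filter ℂ) ℂ),
      φ₀ = fun i j => J (g (F i j)) := ⟨_, rfl⟩
  have hfS : ∀ S T : Finset ν, fS φ₀ S T = J (g (fS F S T)) := by
    intro S T
    rw [hφ₀, ← fS_map g, ← fS_map J]
  have hsym : ∀ i j, φ₀ i j = φ₀ j i := by
    intro i j
    rw [hφ₀]
    show J (g (F i j)) = J (g (F j i))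
    congr 1
    rw [hg]
    apply Filter.Eventually.filter_mono hV
    filter_upwards [hrel2] with w h2
    obtain ⟨τ, -, h3, -⟩ := h2
    exact h3 i j
  -- transfer of three proportional functions
  have hprop : ∀ (a b c : ℂ → ℂ) (α β γ : ℂ),
      (∀ᶠ w in (V : Filter ℂ), ∃ κ : ℂ, a w = α * κ ∧ b w = β * κ ∧ c w = γ * κ) →
      ∃ (κ : AlgebraicClosure (Filter.Germ (V : Filter ℂ) ℂ)), J (g a) = ι α * κ ∧
        J (g b) = ι β * κ ∧ J (g c) = ι γ * κ := by
    intro a b c α β γ h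
    obtain ⟨κ, hκ⟩ := h.choice
    refine ⟨J (g κ), ?_, ?_, ?_⟩
    · show J (g a) = J (g (Pi.constRingHom ℂ ℂ α)) * J (g κ)
      rw [← map_mul, ← map_mul]
      congr 1
      rw [hg]
      filter_upwards [hκ] with z hz using hz.1
    · show J (g b) = J (g (Pi.constRingHom ℂ ℂ β)) * J (g κ)
      rw [← map_mul, ← map_mul]
      congr 1
      rw [hg]
      filter_upwards [hκ] with z hz using hz.2.1
    · show J (g c) = J (g (Pi.constRingHom ℂ ℂ γ)) * J (g κ)
      rw [← map_mul, ← map_mul]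
      congr 1
      rw [hg]
      filter_upwards [hκ] with z hz using hz.2.2
  -- planes
  have hplane : HPl ι φ₀ := by
    intro S T hST
    rw [hfS, hfS, hfS]
    have h9 : ∀ (φ : ν → ν → ℂ), φ ∈ Φ → ∀ z, (∀ i, (ψ z).rep i ^ 2 = qv φ (lam i)) →
        ∀ t : Fin 9, (ψ z).rep (l (v4 (pa t) (pb t) 0 (pa_le t) (pb_le t) (by norm_num) S T ∅)) ^ 2
          = (pa t : ℂ) ^ 2 * fS φ S S + 2 * (pa t : ℂ) * (pb t : ℂ) * fS φ S T +
            (pb t : ℂ) ^ 2 * fS φ T T := by
      intro φ hφ z hq t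
      rw [hq, hl, v4_cast _ _ _ hST (by simp) (by simp), qv_vec3 (hΦ φ hφ)]
      push_cast
      ring
    rcases plane9 ψ hψ
      (fun t => l (v4 (pa t) (pb t) 0 (pa_le t) (pb_le t) (by norm_num) S T ∅)) (fun z => by
        obtain ⟨φ, hφ, hq⟩ := hval z
        exact ⟨_, _, _, h9 φ hφ z hq⟩) with h1 | ⟨p, hp⟩
    · left
      rw [← map_pow, ← map_pow, ← map_mul, ← map_mul]
      congr 1
      rw [hg]
      apply Filter.Eventually.filter_mono hV
      filter_upwards [hrel2] with z h2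
      obtain ⟨τ, hτ, -, hφ, hq⟩ := h2
      have h4 := h1 z _ _ _ (h9 _ hφ z hq)
      rw [fS_mul, fS_mul, fS_mul] at h4
      rw [Pi.pow_apply, Pi.mul_apply, fS_app, fS_app, fS_app]
      apply mul_left_cancel₀ (pow_ne_zero 2 hτ)
      linear_combination h4
    · right
      obtain ⟨κ, k1, k2, k3⟩ := hprop (fS F S S) (fS F S T) (fS F T T) (p 0 ^ 2)
        ((p 1 ^ 2 - p 0 ^ 2 - p 2 ^ 2) / 2) (p 2 ^ 2) (by
          apply Filter.Eventually.filter_mono hV
          filter_upwards [hrel2, hp z₀] with z h2 h3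
          obtain ⟨τ, hτ, -, hφ, hq⟩ := h2
          obtain ⟨r, hr⟩ := h3
          have h6 := h9 _ hφ z hq
          have k0 := h6 0
          have k1 := h6 1
          have k2 := h6 2
          rw [hr, fS_mul, fS_mul, fS_mul] at k0 k1 k2
          have n0 : pa 0 = 1 := rfl
          have n1 : pa 1 = 1 := rfl
          have n2 : pa 2 = 0 := rfl
          have m0 : pb 0 = 0 := rfl
          have m1 : pb 1 = 1 := rfl
          have m2 : pb 2 = 1 := rfl
          rw [n0, m0] at k0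
          rw [n1, m1] at k1
          rw [n2, m2] at k2
          push_cast at k0 k1 k2
          rw [fS_app, fS_app, fS_app]
          refine ⟨r ^ 2 / τ, ?_, ?_, ?_⟩
          · field_simp
            linear_combination -k0
          · field_simp
            linear_combination (-1 : ℂ) * k1 + k0 + k2
          · field_simp
            linear_combination -k2)
      exact ⟨κ, _, _, _, k1, k2, k3⟩
  -- pencils
  have hpencil : HPe ι φ₀ := by
    intro S T U hST hSU hTU e1 e2 e3 e4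
    rw [hfS] at e1 e2 e3
    rw [hfS, hfS, hfS] at e4
    rw [hfS, hfS, hfS]
    have z1 : ∀ a : ℂ → ℂ, J (g a) = 0 → ∀ᶠ w in (V : Filter ℂ), a w = 0 := by
      intro a ha
      have h1 : g a = g 0 := by
        apply hJ
        rw [ha, map_zero, map_zero]
      rw [hg] at h1
      exact h1
    have w1 := z1 _ e1
    have w2 := z1 _ e2
    have w3 := z1 _ e3
    have w4 : ∀ᶠ w in (V : Filter ℂ), fS F S T w + fS F S U w + fS F T U w = 0 := by
      refine z1 (fS F S T + fS F S U + fS F T U) ?_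
      rw [map_add, map_add, map_add, map_add]
      exact e4
    have w5 := hrel2.filter_mono hV
    have h5 : ∀ᶠ w in (V : Filter ℂ), ∃ τ : ℂ, τ ≠ 0 ∧ ∀ i : Fin 5,
        (ψ w).rep (l (v4 (cs i) (ct i) (cr i) (cs_le i) (ct_le i) (cr_le i) S T U)) ^ 2 =
          ((qa i : ℤ) : ℂ) * (τ * fS F S T w) + ((qb i : ℤ) : ℂ) * (τ * fS F S U w) := by
      filter_upwards [w1, w2, w3, w4, w5] with w h1 h2 h3 h4 h5
      obtain ⟨τ, hτ, -, hφ, hq⟩ := h5
      refine ⟨τ, hτ, fun i => ?_⟩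
      rw [hq, hl, v4_cast _ _ _ hST hSU hTU, qv_vec3 (hΦ _ hφ)]
      simp only [fS_mul]
      rw [fS_app] at h1 h2 h3
      rw [fS_app, fS_app, fS_app] at h4
      rw [fS_app, fS_app, h1, h2, h3]
      obtain ⟨q1, q2⟩ := c_qa i
      have q1' : 2 * (cs i : ℂ) * ct i - 2 * ct i * cr i = ((qa i : ℤ) : ℂ) := by
        exact_mod_cast q1
      have q2' : 2 * (cs i : ℂ) * cr i - 2 * ct i * cr i = ((qb i : ℤ) : ℂ) := by
        exact_mod_cast q2
      rw [← q1', ← q2']
      linear_combination (2 * (ct i : ℂ) * cr i * τ) * h4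
    have h6 : ∃ᶠ w in 𝓝[≠] z₀, ∃ x y : ℂ, ∀ i : Fin 5,
        (ψ w).rep (l (v4 (cs i) (ct i) (cr i) (cs_le i) (ct_le i) (cr_le i) S T U)) ^ 2 =
          ((qa i : ℤ) : ℂ) * x + ((qb i : ℤ) : ℂ) * y := by
      refine (Filter.Eventually.frequently (h5.mono ?_)).filter_mono hV
      rintro w ⟨τ, -, h⟩
      exact ⟨_, _, h⟩
    obtain ⟨p, hp⟩ := pencil5 ψ hψ _ z₀ h6
    obtain ⟨κ, k1, k2, k3⟩ := hprop (fS F S T) (fS F S U) (fS F T U) (p 0 ^ 2 / 2)
      (p 1 ^ 2 / 2) (-(p 0 ^ 2 / 2) - p 1 ^ 2 / 2) (by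
        filter_upwards [h5, hp.filter_mono hV, w4] with w h7 h8 h9
        obtain ⟨τ, hτ, h10⟩ := h7
        obtain ⟨r, hr⟩ := h8
        have k0 := h10 0
        have k1 := h10 1
        rw [hr] at k0 k1
        have n0 : qa 0 = 2 := rfl
        have n1 : qa 1 = 0 := rfl
        have m0 : qb 0 = 0 := rfl
        have m1 : qb 1 = 2 := rfl
        rw [n0, m0] at k0
        rw [n1, m1] at k1
        push_cast at k0 k1
        have g1 : fS F S T w = p 0 ^ 2 / 2 * (r ^ 2 / τ) := by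
          field_simp
          linear_combination -k0
        have g2 : fS F S U w = p 1 ^ 2 / 2 * (r ^ 2 / τ) := by
          field_simp
          linear_combination -k1
        refine ⟨r ^ 2 / τ, g1, g2, ?_⟩
        rw [g1, g2] at h9
        linear_combination h9)
    exact ⟨κ, _, _, _, k1, k2, k3⟩
  rcases keyalg3 hsym hplane hpencil with h | h
  · left
    have key : ∀ i j k, ∀ᶠ w in 𝓝[≠] z₀, F i i w * F j k w = F i j w * F i k w := by
      intro i j k
      have h1 : g (F i i * F j k) = g (F i j * F i k) := by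
        apply hJ
        rw [map_mul, map_mul, map_mul, map_mul]
        have := h i j k
        rw [hφ₀] at this
        exact this
      rw [hg] at h1
      have h2 : ∃ᶠ w in 𝓝[≠] z₀, F i i w * F j k w - F i j w * F i k w = 0 := by
        refine (Filter.Eventually.frequently h1).filter_mono hV |>.mono ?_
        intro w hw
        exact sub_eq_zero.2 hw
      have han : AnalyticAt ℂ (fun w => F i i w * F j k w - F i j w * F i k w) z₀ :=
        ((hFan _ _).mul (hFan _ _)).sub ((hFan _ _).mul (hFan _ _))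
      have h3 := han.frequently_zero_iff_eventually_zero.1 h2
      filter_upwards [h3.filter_mono nhdsWithin_le_nhds] with w hw
      exact sub_eq_zero.1 hw
    have key' : ∀ᶠ w in 𝓝[≠] z₀, ∀ i j k, F i i w * F j k w = F i j w * F i k w := by
      rw [Filter.eventually_all]
      intro i
      rw [Filter.eventually_all]
      intro j
      rw [Filter.eventually_all]
      exact key i j
    filter_upwards [key', hrel'] with w h1 h2
    obtain ⟨τ, -, h3⟩ := h2
    intro φ hφ hq i j k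
    rw [h3 φ hφ hq, h3 φ hφ hq, h3 φ hφ hq, h3 φ hφ hq]
    linear_combination τ ^ 2 * h1 i j k
  · right
    obtain ⟨h, c, hh, hc⟩ := h
    -- all entries are constant multiples of one function
    obtain ⟨c', h', hc'⟩ : ∃ (c' : ν → ν → ℂ) (h' : ℂ → ℂ), ∀ i j,
        g (F i j) = g (Pi.constRingHom ℂ ℂ (c' i j) * h') := by
      by_cases h0 : ∀ i j, c i j = 0
      · refine ⟨0, 0, fun i j => ?_⟩
        apply hJ
        have h1 := hc i j
        rw [h0, map_zero, zero_mul, hφ₀] at h1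
        rw [mul_zero, map_zero, map_zero]
        exact h1
      · push Not at h0
        obtain ⟨i₀, j₀, h0⟩ := h0
        refine ⟨fun i j => c i j / c i₀ j₀, F i₀ j₀, fun i j => ?_⟩
        apply hJ
        rw [map_mul, map_mul]
        have h1 := hc i j
        have h2 := hc i₀ j₀
        have h3 : ι (c i₀ j₀) ≠ 0 := by
          rw [Ne, map_eq_zero]
          exact h0
        have h4 : J (g (Pi.constRingHom ℂ ℂ (c i j / c i₀ j₀))) = ι (c i j / c i₀ j₀) := rfl
        have h5 : φ₀ i j = ι (c i j / c i₀ j₀) * φ₀ i₀ j₀ := by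
          rw [h1, h2, map_div₀]
          field_simp
        rw [h4]
        rw [hφ₀] at h5
        exact h5
    refine ⟨c', ?_⟩
    have key : ∀ᶠ w in (V : Filter ℂ), ∀ i j, F i j w = c' i j * h' w := by
      rw [Filter.eventually_all]
      intro i
      rw [Filter.eventually_all]
      intro j
      have h1 := hc' i j
      rw [hg] at h1
      exact h1
    have key' : ∃ᶠ w in 𝓝[≠] z₀, ∀ i j, F i j w = c' i j * h' w :=
      (Filter.Eventually.frequently key).filter_mono hV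
    refine (key'.and_eventually hrel').mono ?_
    rintro w ⟨h1, τ, -, h3⟩ φ hφ hq
    refine ⟨τ * h' w, fun i j => ?_⟩
    rw [h3 φ hφ hq, h1]
    ring

end Pool.Agent.Lib.MP_627a61_nt.Bx
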