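import Pool.Agent.Lib.MP_627a61_nt.Sq.All
import Pool.Agent.Lib.MP_627a61_nt.Sq.Box
import Pool.Agent.Lib.MP_627a61_nt.Bx.Dich

/-!
# Entire curves in the varieties `valSet`: the structure theorem
-/

open scoped LinearAlgebra.Projectivization Topology
open Filter MvPolynomial

namespace Pool.Agent.Lib.MP_627a61_nt.Bx

/-- index of the vector `e_j` -/
def vd {ν : Type} [DecidableEq ν] (j : ν) : ν → Fin 4 :=
  v4 1 0 0 (by norm_num) (by norm_num) (by norm_num) {j} ∅ ∅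

private lemma kb_diag {ν I : Type} [Fintype ν] [DecidableEq ν] (l : (ν → Fin 4) → I)
    (x : I → ℂ) (j : ν) : mA l x j j = x (l (vd j)) ^ 2 := by
  rw [mA, if_pos rfl]
  rfl

private lemma kb_qv_smul {ν : Type} [Fintype ν] (t : ℂ) (φ : ν → ν → ℂ) (v : ν → ℂ) :
    qv (t • φ) v = t * qv φ v := by
  rw [qv_smul, mul_comm]

private lemma mA_an {ν I : Type} [Fintype ν] [DecidableEq ν] (l : (ν → Fin 4) → I)
    {f : ℂ → I → ℂ} {z : ℂ} (hfa : ∀ a, AnalyticAt ℂ (fun w => f w a) z) (j k : ν) :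
    AnalyticAt ℂ (fun w => mA l (f w) j k) z := by
  unfold mA
  by_cases hjk : j = k
  · simp only [if_pos hjk]
    exact (hfa _).pow 2
  · simp only [if_neg hjk]
    exact ((((hfa _).pow 2).sub ((hfa _).pow 2)).sub ((hfa _).pow 2)).div analyticAt_const
      two_ne_zero

private lemma mA_an' {ν I : Type} [Fintype ν] [DecidableEq ν] [Fintype I] (l : (ν → Fin 4) → I)
    (hfa : ∀ a (x : I → ℂ), AnalyticAt ℂ (fun w : I → ℂ => w a) x) (j k : ν) (x : I → ℂ) :
    AnalyticAt ℂ (fun w => mA l w j k) x := by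
  unfold mA
  by_cases hjk : j = k
  · simp only [if_pos hjk]
    exact (hfa _ x).pow 2
  · simp only [if_neg hjk]
    exact ((((hfa _ x).pow 2).sub ((hfa _ x).pow 2)).sub ((hfa _ x).pow 2)).div analyticAt_const
      two_ne_zero

private lemma kb_mul_zero {a b : ℂ → ℂ} {z : ℂ} (ha : AnalyticAt ℂ a z)
    (h : ∀ᶠ w in 𝓝[≠] z, a w * b w = 0) :
    (∀ᶠ w in 𝓝[≠] z, a w = 0) ∨ (∀ᶠ w in 𝓝[≠] z, b w = 0) := by
  rcases ha.eventually_eq_zero_or_eventually_ne_zero with h1 | h1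
  · exact Or.inl (h1.filter_mono nhdsWithin_le_nhds)
  · right
    filter_upwards [h, h1] with w h2 h3
    exact (mul_eq_zero.1 h2).resolve_left h3

/-- two homogeneous analytic functions whose product vanishes on an entire curve: one of them
vanishes on the curve -/
lemma curve_mul_zero {I : Type} [Fintype I] {ψ : ℂ → ℙ ℂ (I → ℂ)} (hψ : ∀ z, HolomorphicAt ψ z)
    (a b : (I → ℂ) → ℂ) (ha : ∀ x, AnalyticAt ℂ a x) (hb : ∀ x, AnalyticAt ℂ b x)
    (hta : ∀ (t : ℂ) x, a (t • x) = t * a x) (htb : ∀ (t : ℂ) x, b (t • x) = t * b x)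
    (h : ∀ z, a (ψ z).rep * b (ψ z).rep = 0) :
    (∀ z, a (ψ z).rep = 0) ∨ (∀ z, b (ψ z).rep = 0) := by
  by_contra hcon
  rw [not_or] at hcon
  obtain ⟨h1, h2⟩ := hcon
  push Not at h1 h2
  obtain ⟨z₁, h1⟩ := h1
  obtain ⟨z₂, h2⟩ := h2
  obtain ⟨-, -, -, h3⟩ := exists_division (κ := Unit) hψ (fun y _ => a y)
    (fun y => by
      apply AnalyticAt.pi
      intro _
      exact ha y) 1 (fun t y => by
        funext _
        simp only [hta, pow_one, Pi.smul_apply, smul_eq_mul]) (z₀ := z₁)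
    (fun h => h1 (congrFun h ()))
  obtain ⟨-, -, -, h4⟩ := exists_division (κ := Unit) hψ (fun y _ => b y)
    (fun y => by
      apply AnalyticAt.pi
      intro _
      exact hb y) 1 (fun t y => by
        funext _
        simp only [htb, pow_one, Pi.smul_apply, smul_eq_mul]) (z₀ := z₂)
    (fun h => h2 (congrFun h ()))
  obtain ⟨w, h5, h6⟩ := ((h3 0).and (h4 0)).exists
  rcases mul_eq_zero.1 (h w) with h7 | h7
  · exact h5 (funext fun _ => h7)
  · exact h6 (funext fun _ => h7)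

/-- The rank one case: the curve comes from a curve in `sqSet Φ`. -/
theorem geo_rank_one {ν I : Type} [Fintype ν] [DecidableEq ν] [Fintype I]
    (Φ : Submodule ℂ (ν → ν → ℂ)) (hΦ : Symm Φ) (lam : I → ν → ℂ)
    (hlam : ∀ v : ν → Fin 4, ∃ l, lam l = fun a => ((v a : ℕ) : ℂ))
    (ψ : ℂ → ℙ ℂ (I → ℂ)) (hψ : ∀ z, HolomorphicAt ψ z) (hval : ∀ z, ψ z ∈ valSet Φ lam) (z₀ : ℂ)
    (hrk : ∀ᶠ z in 𝓝[≠] z₀, ∀ φ ∈ Φ, (∀ l, (ψ z).rep l ^ 2 = qv φ (lam l)) →
      ∀ i j k, φ i i * φ j k = φ i j * φ i k) :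
    ∃ (ε : I → ℂ) (χ : ℂ → ℙ ℂ (ν → ℂ)), (∀ a, ε a = 1 ∨ ε a = -1) ∧
      (∀ z, HolomorphicAt χ z) ∧ (∀ z, χ z ∈ sqSet Φ) ∧
      ∀ z, ∃ c : ℂ, ∀ a, (ψ z).rep a = c * (ε a * ∑ i, lam a i * (χ z).rep i) := by
  choose l hl using hlam
  obtain ⟨f, hf, hw⟩ := hψ z₀
  have hfa : ∀ a, AnalyticAt ℂ (fun w => f w a) z₀ := fun a =>
    ((ContinuousLinearMap.proj (R := ℂ) (φ := fun _ : I => ℂ) a).analyticAt (f z₀)).comp hf
  -- the matrix of the local lift
  have hmat : ∀ᶠ w in 𝓝[≠] z₀, f w ≠ 0 ∧ (∃ t : ℂ, t ≠ 0 ∧ (ψ w).rep = t • f w) ∧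
      (∀ i, f w i ^ 2 = qv (mA l (f w)) (lam i)) ∧
      ∀ i j k, mA l (f w) i i * mA l (f w) j k = mA l (f w) i j * mA l (f w) i k := by
    filter_upwards [hw.filter_mono nhdsWithin_le_nhds, hrk] with w h1 h2
    obtain ⟨h3, h4⟩ := h1
    obtain ⟨t, ht, hrep⟩ := exists_rep_eq h4
    obtain ⟨φ, hφ, hq⟩ := hval w
    have h5 := mA_eq l hl φ (hΦ φ hφ) _ hq
    have h6 : ∀ j k, φ j k = t ^ 2 * mA l (f w) j k := by
      intro j k
      rw [← h5 j k, hrep, mA_smul]
    have h7 : φ = t ^ 2 • mA l (f w) := by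
      funext j k
      exact h6 j k
    have ht2 : t ^ 2 ≠ 0 := pow_ne_zero _ ht
    refine ⟨h3, ⟨t, ht, hrep⟩, ?_, ?_⟩
    · intro i
      have h8 := hq i
      rw [hrep, h7, kb_qv_smul, Pi.smul_apply, smul_eq_mul, mul_pow] at h8
      exact mul_left_cancel₀ ht2 h8
    · intro i j k
      have h8 := h2 φ hφ hq i j k
      rw [h6, h6, h6, h6] at h8
      apply mul_left_cancel₀ (mul_ne_zero ht2 ht2)
      linear_combination h8
  -- the coordinate functions
  obtain ⟨x, hx⟩ : ∃ x : ν → ℂ → ℂ, x = fun j w => f w (l (vd j)) := ⟨_, rfl⟩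
  have hxan : ∀ j, AnalyticAt ℂ (x j) z₀ := by
    intro j
    rw [hx]
    exact hfa _
  obtain ⟨F, hF⟩ : ∃ F : ν → ν → ℂ → ℂ, F = fun j k w => mA l (f w) j k := ⟨_, rfl⟩
  have hFan : ∀ j k, AnalyticAt ℂ (F j k) z₀ := by
    intro j k
    rw [hF]
    exact mA_an l hfa j k
  have hFx : ∀ᶠ w in 𝓝[≠] z₀, ∀ j, F j j w = x j w ^ 2 := by
    filter_upwards [hmat] with w h1 j
    rw [hF, hx]
    exact kb_diag l _ j
  have hFF : ∀ᶠ w in 𝓝[≠] z₀, ∀ i j k, F i i w * F j k w = F i j w * F i k w := by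
    filter_upwards [hmat] with w h1 i j k
    rw [hF]
    exact h1.2.2.2 i j k
  -- a nonzero diagonal entry
  obtain ⟨i, hi⟩ : ∃ i, ∀ᶠ w in 𝓝[≠] z₀, x i w ≠ 0 := by
    by_contra hcon
    push Not at hcon
    have h1 : ∀ j, ∀ᶠ w in 𝓝[≠] z₀, x j w = 0 := by
      intro j
      rcases (hxan j).eventually_eq_zero_or_eventually_ne_zero with h2 | h2
      · exact h2.filter_mono nhdsWithin_le_nhds
      · exact absurd h2 (hcon j)
    have h2 : ∀ᶠ w in 𝓝[≠] z₀, ∀ j, x j w = 0 := Filter.eventually_all.2 h1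
    obtain ⟨w, h3, h4, h5, h6⟩ := (hmat.and (h2.and (hFx.and hFF))).exists
    have h7 : mA l (f w) = 0 := by
      funext j k
      have h8 := h6 j k k
      rw [h5 j, h5 k, h4 j, h4 k] at h8
      have h9 : F j k w = 0 := by
        have : F j k w * F j k w = 0 := by rw [← h8]; ring
        exact mul_self_eq_zero.1 this
      rw [hF] at h9
      exact h9
    apply h3.1
    funext a
    have h8 := h3.2.2.1 a
    rw [h7] at h8
    have h9 : qv (0 : ν → ν → ℂ) (lam a) = 0 := by simp [qv]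
    rw [h9] at h8
    exact pow_eq_zero_iff (two_ne_zero) |>.1 h8
  -- the signs
  have hsign : ∀ j, ∃ e : ℂ, e ^ 2 = 1 ∧ ∀ᶠ w in 𝓝[≠] z₀, F i j w = e * (x i w * x j w) := by
    intro j
    have h1 : ∀ᶠ w in 𝓝[≠] z₀, (F i j w - x i w * x j w) * (F i j w + x i w * x j w) = 0 := by
      filter_upwards [hFx, hFF] with w h2 h3
      have h4 := h3 i j j
      rw [h2 i, h2 j] at h4
      linear_combination -h4
    rcases kb_mul_zero (b := fun w => F i j w + x i w * x j w)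
      ((hFan i j).sub ((hxan i).mul (hxan j))) h1 with h2 | h2
    · refine ⟨1, by norm_num, ?_⟩
      filter_upwards [h2] with w h3
      have h4 : F i j w - x i w * x j w = 0 := h3
      linear_combination h4
    · refine ⟨-1, by norm_num, ?_⟩
      filter_upwards [h2] with w h3
      have h4 : F i j w + x i w * x j w = 0 := h3
      linear_combination h4
  choose e he hFe using hsign
  -- the matrix is a square
  have hsq : ∀ᶠ w in 𝓝[≠] z₀, ∀ j k, F j k w = (e j * x j w) * (e k * x k w) := by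
    have h1 : ∀ᶠ w in 𝓝[≠] z₀, ∀ j, F i j w = e j * (x i w * x j w) :=
      Filter.eventually_all.2 hFe
    filter_upwards [h1, hi, hFx, hFF] with w h2 h3 h4 h5 j k
    have h6 := h5 i j k
    rw [h4 i, h2 j, h2 k] at h6
    apply mul_left_cancel₀ (pow_ne_zero 2 h3)
    linear_combination h6
  -- the map to `sqSet Φ`
  obtain ⟨G, hG⟩ : ∃ G : (I → ℂ) → (ν → ℂ), G = fun y j => e j * y (l (vd j)) := ⟨_, rfl⟩
  have hGan : ∀ y, AnalyticAt ℂ G y := by
    intro y
    have : G = fun y j =>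
      e j * (ContinuousLinearMap.proj (R := ℂ) (φ := fun _ : I => ℂ) (l (vd j))) y := by
      rw [hG]; rfl
    rw [this]
    exact AnalyticAt.pi fun j => analyticAt_const.mul (ContinuousLinearMap.analyticAt _ y)
  have hGhom : ∀ (t : ℂ) y, G (t • y) = t • G y := by
    intro t y
    rw [hG]
    funext j
    simp only [Pi.smul_apply, smul_eq_mul]
    ring
  have hGj : ∀ j y, AnalyticAt ℂ (fun y => G y j) y := fun j y =>
    ((ContinuousLinearMap.proj (R := ℂ) (φ := fun _ : ν => ℂ) j).analyticAt (G y)).comp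
      (hGan y)
  have hpr : ∀ a y, AnalyticAt ℂ (fun y : I → ℂ => y a) y := fun a y =>
    (ContinuousLinearMap.proj (R := ℂ) (φ := fun _ : I => ℂ) a).analyticAt y
  -- the difference of the two matrices vanishes on the whole curve
  have hH : ∀ z j k, G (ψ z).rep j * G (ψ z).rep k = mA l (ψ z).rep j k := by
    by_contra hcon
    push Not at hcon
    obtain ⟨z₁, j, k, h1⟩ := hcon
    have h2 := exists_division (κ := Unit) hψ
      (fun y _ => G y j * G y k - mA l y j k) (fun y => by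
        apply AnalyticAt.pi
        intro _
        exact ((hGj j y).mul (hGj k y)).sub (mA_an' l hpr j k y)) 2 (fun t y => by
        funext _
        simp only [hGhom, mA_smul, Pi.smul_apply, smul_eq_mul]
        ring) (z₀ := z₁) (fun h => h1 (sub_eq_zero.1 (congrFun h ())))
    obtain ⟨-, -, -, h3⟩ := h2
    obtain ⟨w, h4, h5, h6⟩ := ((h3 z₀).and (hmat.and hsq)).exists
    apply h4
    funext _
    obtain ⟨t, ht, hrep⟩ := h5.2.1
    have h7 := h6 j k
    rw [hF, hx] at h7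
    simp only [hrep, mA_smul, Pi.smul_apply, smul_eq_mul, Pi.zero_apply, hG]
    linear_combination (-t ^ 2) * h7
  have hsqG : ∀ z, sq (G (ψ z).rep) ∈ Φ ∧ ∀ a, (ψ z).rep a ^ 2 =
      (∑ i, lam a i * G (ψ z).rep i) ^ 2 := by
    intro z
    obtain ⟨φ, hφ, hq⟩ := hval z
    have h1 : sq (G (ψ z).rep) = φ := by
      funext j k
      rw [← mA_eq l hl φ (hΦ φ hφ) _ hq j k]
      exact hH z j k
    refine ⟨h1 ▸ hφ, fun a => ?_⟩
    rw [hq a, ← h1, qv_sq]
  have hne : ∀ z, G (ψ z).rep ≠ 0 := by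
    intro z h0
    apply (ψ z).rep_nonzero
    funext a
    have h1 := (hsqG z).2 a
    rw [h0] at h1
    simp only [Pi.zero_apply, mul_zero, Finset.sum_const_zero] at h1
    have h2 : (ψ z).rep a ^ 2 = 0 := by rw [h1]; ring
    exact pow_eq_zero_iff (two_ne_zero) |>.1 h2
  obtain ⟨χ, hχ, hχval, -⟩ := exists_division hψ G hGan 1 (fun t y => by
    rw [pow_one]; exact hGhom t y) (hne 0)
  -- the signs of all coordinates
  have hsg : ∀ a, ∃ s : ℂ, (s = 1 ∨ s = -1) ∧
      ∀ z, (ψ z).rep a = s * ∑ i, lam a i * G (ψ z).rep i := by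
    intro a
    have hsum : ∀ y, AnalyticAt ℂ (fun y : I → ℂ => ∑ i, lam a i * G y i) y := by
      intro y
      exact Finset.analyticAt_fun_sum _ fun i _ => analyticAt_const.mul (hGj i y)
    have hsmul : ∀ (t : ℂ) (y : I → ℂ), ∑ i, lam a i * G (t • y) i =
        t * ∑ i, lam a i * G y i := by
      intro t y
      rw [Finset.mul_sum]
      refine Finset.sum_congr rfl fun i _ => ?_
      rw [hGhom, Pi.smul_apply, smul_eq_mul]
      ring
    rcases curve_mul_zero hψ (fun y => y a - ∑ i, lam a i * G y i)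
      (fun y => y a + ∑ i, lam a i * G y i) (fun y => (hpr a y).sub (hsum y))
      (fun y => (hpr a y).add (hsum y))
      (fun t y => by
        simp only [hsmul, Pi.smul_apply, smul_eq_mul]
        ring)
      (fun t y => by
        simp only [hsmul, Pi.smul_apply, smul_eq_mul]
        ring)
      (fun z => by
        have := (hsqG z).2 a
        linear_combination this) with h | h
    · refine ⟨1, Or.inl rfl, fun z => ?_⟩
      have := h z
      linear_combination this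
    · refine ⟨-1, Or.inr rfl, fun z => ?_⟩
      have := h z
      linear_combination this
  choose ε hε hεa using hsg
  refine ⟨ε, χ, hε, hχ, fun z => ?_, fun z => ?_⟩
  · rw [hχval z (hne z), mem_sqSet_mk]
    exact (hsqG z).1
  · obtain ⟨t, ht, hrep⟩ := exists_rep_eq (hχval z (hne z))
    refine ⟨t⁻¹, fun a => ?_⟩
    rw [hrep, hεa a z]
    simp only [Pi.smul_apply, smul_eq_mul]
    rw [show ∑ i, lam a i * (t * G (ψ z).rep i) = t * ∑ i, lam a i * G (ψ z).rep i from by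
      rw [Finset.mul_sum]
      exact Finset.sum_congr rfl fun i _ => by ring]
    field_simp

/-- The structure theorem for entire curves in `valSet Φ lam`. -/
theorem geo_structure {ν I : Type} [Fintype ν] [DecidableEq ν] [Fintype I]
    (Φ : Submodule ℂ (ν → ν → ℂ)) (hΦ : Symm Φ) (lam : I → ν → ℂ)
    (hlam : ∀ v : ν → Fin 4, ∃ l, lam l = fun a => ((v a : ℕ) : ℂ))
    (ψ : ℂ → ℙ ℂ (I → ℂ)) (hψ : ∀ z, HolomorphicAt ψ z) (hval : ∀ z, ψ z ∈ valSet Φ lam) :
    (∀ z w, ψ z = ψ w) ∨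
    ∃ (ε : I → ℂ) (χ : ℂ → ℙ ℂ (ν → ℂ)), (∀ a, ε a = 1 ∨ ε a = -1) ∧
      (∀ z, HolomorphicAt χ z) ∧ (∀ z, χ z ∈ sqSet Φ) ∧
      ∀ z, ∃ c : ℂ, ∀ a, (ψ z).rep a = c * (ε a * ∑ i, lam a i * (χ z).rep i) := by
  rcases dich3 Φ hΦ lam hlam ψ hψ hval 0 with h | ⟨c, hc⟩
  · exact Or.inr (geo_rank_one Φ hΦ lam hlam ψ hψ hval 0 h)
  · left
    apply piece_CONST I ψ hψ 0 (fun l => qv c (lam l))
    refine hc.mono ?_
    intro z hz
    obtain ⟨φ, hφ, hl⟩ := hval z
    obtain ⟨h, hh⟩ := hz φ hφ hl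
    refine ⟨h, fun l => ?_⟩
    rw [hl l]
    unfold qv
    rw [Finset.sum_mul]
    refine Finset.sum_congr rfl fun i _ => ?_
    rw [Finset.sum_mul]
    refine Finset.sum_congr rfl fun j _ => ?_
    rw [hh i j]; ring

end Pool.Agent.Lib.MP_627a61_nt.Bx
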