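import Mathlib

/-!
# Three vectors: constants in a field of functions
-/

namespace Pool.Agent.Lib.MP_627a61_nt.Bx

section

variable {C K : Type} [Field C] [Field K] (ι : C →+* K)

/-- the Gram matrix of two vectors is degenerate, or it is proportional to a constant matrix -/
def Pl (A B D : K) : Prop :=
  B ^ 2 = A * D ∨ ∃ (κ : K) (a b c : C), A = ι a * κ ∧ B = ι b * κ ∧ D = ι c * κ

variable {ι}

lemma Pl.symm {A B D : K} (h : Pl ι A B D) : Pl ι D B A := by
  rcases h with h | ⟨κ, a, b, c, h1, h2, h3⟩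
  · exact Or.inl (by rw [h, mul_comm])
  · exact Or.inr ⟨κ, c, b, a, h3, h2, h1⟩

lemma Pl.smul {A B D : K} (h : Pl ι A B D) (t : K) : Pl ι (t * A) (t * B) (t * D) := by
  rcases h with h | ⟨κ, a, b, c, h1, h2, h3⟩
  · left
    rw [mul_pow, h]
    ring
  · right
    refine ⟨t * κ, a, b, c, ?_, ?_, ?_⟩
    · rw [h1]; ring
    · rw [h2]; ring
    · rw [h3]; ring

lemma sqrt_mem [IsAlgClosed C] {x : K} (h : x ^ 2 ∈ ι.fieldRange) : x ∈ ι.fieldRange := by
  obtain ⟨a, ha⟩ := h
  obtain ⟨b, hb⟩ := IsAlgClosed.exists_pow_nat_eq a (n := 2) (by norm_num)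
  have h1 : x ^ 2 = (ι b) ^ 2 := by rw [← map_pow, hb, ha]
  rcases sq_eq_sq_iff_eq_or_eq_neg.1 h1 with h2 | h2
  · exact ⟨b, h2.symm⟩
  · exact ⟨-b, by rw [map_neg, h2]⟩

lemma mem_map (c : C) : ι c ∈ ι.fieldRange := ⟨c, rfl⟩

/-- the factor is a constant -/
lemma kappa_mem {A κ : K} {a : C} (hA : A ∈ ι.fieldRange) (h0 : A ≠ 0) (h : A = ι a * κ) :
    κ ∈ ι.fieldRange := by
  have ha : ι a ≠ 0 := by
    intro h1
    rw [h1, zero_mul] at h
    exact h0 h
  have h1 : κ = (ι a)⁻¹ * A := by
    rw [h, ← mul_assoc, inv_mul_cancel₀ ha, one_mul]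
  rw [h1]
  exact ι.fieldRange.mul_mem (ι.fieldRange.inv_mem (mem_map a)) hA

lemma Pl.left {A B D : K} (h : Pl ι A B D) (hA : A ∈ ι.fieldRange) (h0 : A ≠ 0) :
    B ^ 2 = A * D ∨ (B ∈ ι.fieldRange ∧ D ∈ ι.fieldRange) := by
  rcases h with h | ⟨κ, a, b, c, h1, h2, h3⟩
  · exact Or.inl h
  · right
    have hκ := kappa_mem hA h0 h1
    rw [h2, h3]
    exact ⟨ι.fieldRange.mul_mem (mem_map b) hκ, ι.fieldRange.mul_mem (mem_map c) hκ⟩

/-- The middle entry is a constant if the outer ones are and do not both vanish. -/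
lemma Pl.mid [IsAlgClosed C] {A B D : K} (h : Pl ι A B D) (hA : A ∈ ι.fieldRange) (h0 : A ≠ 0)
    (hD : D ∈ ι.fieldRange) : B ∈ ι.fieldRange := by
  rcases h.left hA h0 with h1 | h1
  · apply sqrt_mem
    rw [h1]
    exact ι.fieldRange.mul_mem hA hD
  · exact h1.1

/-- The third entry is a constant if the others are. -/
lemma Pl.right {A B D : K} (h : Pl ι A B D) (hA : A ∈ ι.fieldRange) (h0 : A ≠ 0)
    (hB : B ∈ ι.fieldRange) : D ∈ ι.fieldRange := by
  rcases h.left hA h0 with h1 | h1
  · have h2 : D = A⁻¹ * B ^ 2 := by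
      rw [h1, ← mul_assoc, inv_mul_cancel₀ h0, one_mul]
    rw [h2]
    exact ι.fieldRange.mul_mem (ι.fieldRange.inv_mem hA) (ι.fieldRange.pow_mem hB 2)
  · exact h1.2

/-- the form of the middle entry when `d = s ^ 2` is not a constant -/
lemma Pl.form [IsAlgClosed C] {α : C} {x d s : K} (h : Pl ι (ι α) x d) (hs : s ^ 2 = d)
    (hd : d ∉ ι.fieldRange) : ∃ q r : C, q ^ 2 = α ∧ x = ι q * s + ι r * s ^ 2 := by
  have hd0 : d ≠ 0 := by
    rintro rfl
    exact hd ι.fieldRange.zero_mem
  rcases h with h | ⟨κ, a, b, c, h1, h2, h3⟩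
  · obtain ⟨q, hq⟩ := IsAlgClosed.exists_pow_nat_eq α (n := 2) (by norm_num)
    have h1 : x ^ 2 = (ι q * s) ^ 2 := by
      rw [mul_pow, ← map_pow, hq, hs, h]
    rcases sq_eq_sq_iff_eq_or_eq_neg.1 h1 with h2 | h2
    · exact ⟨q, 0, hq, by rw [h2, map_zero, zero_mul, add_zero]⟩
    · refine ⟨-q, 0, by rw [neg_sq, hq], ?_⟩
      rw [h2, map_neg, map_zero]
      ring
  · have hα : α = 0 := by
      by_contra hα
      have hα' : ι α ≠ 0 := by
        rw [Ne, map_eq_zero]
        exact hα
      apply hd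
      rw [h3]
      exact ι.fieldRange.mul_mem (mem_map c) (kappa_mem (mem_map α) hα' h1)
    have hc : ι c ≠ 0 := by
      intro h4
      rw [h4, zero_mul] at h3
      exact hd0 h3
    refine ⟨0, b / c, by rw [hα]; ring, ?_⟩
    rw [map_zero, zero_mul, zero_add, hs, map_div₀, h2, h3]
    field_simp

theorem lemB [CharZero C] [IsAlgClosed C] [IsAlgClosed K] {α β γ : C} (hnd : β ^ 2 ≠ α * γ)
    {x y d : K} (H1 : Pl ι (ι α) x d) (H2 : Pl ι (ι γ) y d)
    (H3 : Pl ι (ι (α + 2 * β + γ)) (x + y) d)
    (H4 : Pl ι (ι α) (ι β + x) (ι γ + 2 * y + d)) (H5 : Pl ι (ι γ) (ι β + y) (ι α + 2 * x + d))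
    (HP : α = 0 → γ = 0 → d = 0 → ι β + x + y = 0 →
      ∃ (κ : K) (b₁ b₂ b₃ : C), ι β = ι b₁ * κ ∧ x = ι b₂ * κ ∧ y = ι b₃ * κ) :
    x ∈ ι.fieldRange ∧ y ∈ ι.fieldRange ∧ d ∈ ι.fieldRange := by
  have h2C : (2 : C) ≠ 0 := two_ne_zero
  have hne : ∀ {c : C}, c ≠ 0 → ι c ≠ 0 := fun h => by
    rw [Ne, map_eq_zero]
    exact h
  by_cases hd : d ∈ ι.fieldRange
  · by_cases hd0 : d = 0
    · subst hd0
      have h2K : (2 : K) ∈ ι.fieldRange := ⟨2, map_ofNat ι 2⟩
      have h2K0 : (2 : K) ≠ 0 := by
        have := hne h2C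
        rwa [map_ofNat] at this
      have hmid : ∀ {c : C} {w : K}, c ≠ 0 → Pl ι (ι c) w 0 → w ∈ ι.fieldRange := fun hc h =>
        h.mid (mem_map _) (hne hc) hd
      have hlast : ∀ {c e : C} {w v : K}, c ≠ 0 → w ∈ ι.fieldRange →
          Pl ι (ι c) (ι β + w) (ι e + 2 * v + 0) → v ∈ ι.fieldRange := by
        intro c e w v hc hw h
        have h1 := h.right (mem_map _) (hne hc) (ι.fieldRange.add_mem (mem_map β) hw)
        have h2 : v = 2⁻¹ * ((ι e + 2 * v + 0) - ι e) := by
          field_simp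
          ring
        rw [h2]
        exact ι.fieldRange.mul_mem (ι.fieldRange.inv_mem h2K)
          (ι.fieldRange.sub_mem h1 (mem_map _))
      by_cases hα : α = 0
      · by_cases hγ : γ = 0
        · have hβ : β ≠ 0 := by
            rintro rfl
            apply hnd
            rw [hα]
            ring
          have hδ : α + 2 * β + γ ≠ 0 := by
            rw [hα, hγ, zero_add, add_zero]
            exact mul_ne_zero h2C hβ
          have hxy := hmid hδ H3
          have hfin : x ∈ ι.fieldRange → x ∈ ι.fieldRange ∧ y ∈ ι.fieldRange ∧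
              (0 : K) ∈ ι.fieldRange := fun hx => by
            refine ⟨hx, ?_, hd⟩
            have h1 : y = (x + y) - x := by ring
            rw [h1]
            exact ι.fieldRange.sub_mem hxy hx
          by_cases hbx : ι β + x = 0
          · apply hfin
            have h1 : x = -ι β := by linear_combination hbx
            rw [h1]
            exact ι.fieldRange.neg_mem (mem_map _)
          rcases H4 with h | ⟨κ, a, b, c, -, h2, h3⟩
          · exfalso
            rw [hα, map_zero, zero_mul] at h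
            exact hbx (pow_eq_zero_iff (two_ne_zero) |>.1 h)
          · have hb : ι b ≠ 0 := by
              intro h4
              rw [h4, zero_mul] at h2
              exact hbx h2
            have hb' : b ≠ 0 := by
              rintro rfl
              exact hb (map_zero _)
            -- `y = m (β + x)`
            have hy : y = ι (c / (2 * b)) * (ι β + x) := by
              rw [hγ, map_zero] at h3
              rw [h2, map_div₀, map_mul, map_ofNat]
              field_simp
              linear_combination h3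
            by_cases hm : 1 + c / (2 * b) = 0
            · have hm' : c / (2 * b) = -1 := by linear_combination hm
              have hsum : ι β + x + y = 0 := by
                rw [hy, hm', map_neg, map_one]
                ring
              obtain ⟨κ', b₁, b₂, b₃, k1, k2, k3⟩ := HP hα hγ rfl hsum
              have hκ := kappa_mem (mem_map β) (hne hβ) k1
              apply hfin
              rw [k2]
              exact ι.fieldRange.mul_mem (mem_map _) hκ
            · apply hfin
              have hm' := hne hm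
              have h4 : x = (ι (1 + c / (2 * b)))⁻¹ * ((x + y) - ι (c / (2 * b) * β)) := by
                have h5 : (x + y) - ι (c / (2 * b) * β) = ι (1 + c / (2 * b)) * x := by
                  rw [map_mul, map_add, map_one]
                  linear_combination hy
                rw [h5, ← mul_assoc, inv_mul_cancel₀ hm', one_mul]
              rw [h4]
              exact ι.fieldRange.mul_mem (ι.fieldRange.inv_mem (mem_map _))
                (ι.fieldRange.sub_mem hxy (mem_map _))
        · have hy := hmid hγ H2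
          exact ⟨hlast hγ hy H5, hy, hd⟩
      · have hx := hmid hα H1
        exact ⟨hx, hlast hα hx H4, hd⟩
    · have hx : ∀ {c : C} {w : K}, Pl ι (ι c) w d → w ∈ ι.fieldRange := fun h =>
        h.symm.mid hd hd0 (mem_map _)
      exact ⟨hx H1, hx H2, hd⟩
  · exfalso
    obtain ⟨s, hs⟩ := IsAlgClosed.exists_pow_nat_eq d (n := 2) (by norm_num)
    obtain ⟨q₁, r₁, hq₁, e₁⟩ := H1.form hs hd
    obtain ⟨q₂, r₂, hq₂, e₂⟩ := H2.form hs hd
    obtain ⟨q₃, r₃, hq₃, e₃⟩ := H3.form hs hd
    have hs0 : s ∉ ι.fieldRange := by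
      intro h
      apply hd
      rw [← hs]
      exact ι.fieldRange.pow_mem h 2
    have hsne : s ≠ 0 := by
      rintro rfl
      exact hs0 ι.fieldRange.zero_mem
    have h1 : (ι (q₁ + q₂ - q₃) + ι (r₁ + r₂ - r₃) * s) * s = 0 := by
      simp only [map_add, map_sub]
      linear_combination (-1 : K) * e₁ - e₂ + e₃
    have h2 := (mul_eq_zero.1 h1).resolve_right hsne
    have h3 : r₁ + r₂ - r₃ = 0 := by
      by_contra h4
      apply hs0
      have h5 : s = -(ι (r₁ + r₂ - r₃))⁻¹ * ι (q₁ + q₂ - q₃) := by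
        have := hne h4
        field_simp
        linear_combination h2
      rw [h5]
      exact ι.fieldRange.mul_mem (ι.fieldRange.neg_mem (ι.fieldRange.inv_mem (mem_map _)))
        (mem_map _)
    rw [h3, map_zero, zero_mul, add_zero, map_eq_zero] at h2
    apply hnd
    have h4 : q₃ = q₁ + q₂ := by linear_combination -h2
    rw [h4] at hq₃
    have h5 : β = q₁ * q₂ := by
      apply mul_left_cancel₀ h2C
      linear_combination hq₁ + hq₂ - hq₃
    rw [h5, ← hq₁, ← hq₂]
    ring

end

end Pool.Agent.Lib.MP_627a61_nt.Bx
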