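import Pool.Agent.Lib.MP_627a61_nt.Bx.Curve

/-!
# Curves whose squares are multiples of the values of a linear polynomial
-/

open scoped LinearAlgebra.Projectivization Topology
open Filter

namespace Pool.Agent.Lib.MP_627a61_nt.Bx

variable {ψ : ℂ → ℙ ℂ (Fin 9 → ℂ)} {f g : ℂ → Fin 9 → ℂ} {z : ℂ}

lemma eventually_const {h : ℂ → ℂ} (ha : AnalyticAt ℂ h z) (hd : ∀ᶠ w in 𝓝 z, deriv h w = 0) :
    ∀ᶠ w in 𝓝 z, h w = h z := by
  obtain ⟨ε, hε, hball⟩ := Metric.eventually_nhds_iff_ball.1 (ha.eventually_analyticAt.and hd)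
  filter_upwards [Metric.ball_mem_nhds z hε] with w hw
  exact Metric.isOpen_ball.is_const_of_deriv_eq_zero (convex_ball z ε).isPreconnected
    (fun x hx => (hball x hx).1.differentiableAt.differentiableWithinAt)
    (fun x hx => (hball x hx).2) hw (Metric.mem_ball_self hε)

/-- If all `f j * f l * (Wronskian)` vanish near a point, the curve is constant. -/
lemma const_of_om (hψ : ∀ z, HolomorphicAt ψ z) (hf : IsLift ψ f z)
    (h0 : ∀ᶠ w in 𝓝 z, ∀ j l, f w j * f w l * om (f w) (deriv f w) j l = 0) :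
    ∀ x y, ψ x = ψ y := by
  obtain ⟨i, hi⟩ : ∃ i, f z i ≠ 0 := by
    by_contra hcon
    push Not at hcon
    exact hf.ne (funext hcon)
  have hfi : ∀ᶠ w in 𝓝 z, f w i ≠ 0 := (hf.comp i).continuousAt.eventually_ne hi
  have hconst : ∀ t, ∀ᶠ w in 𝓝 z, f w t / f w i = f z t / f z i := by
    intro t
    have ha : AnalyticAt ℂ (fun w => f w t / f w i) z := (hf.comp t).div (hf.comp i) hi
    have ha2 : AnalyticAt ℂ (fun w => (f w t / f w i) ^ 2) z := ha.pow 2
    have hd : ∀ᶠ w in 𝓝 z, deriv (fun w => (f w t / f w i) ^ 2) w = 0 := by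
      filter_upwards [hf.eventually, hfi, h0] with w h1 h2 h3
      have h4 : HasDerivAt (fun w => f w t / f w i)
          ((deriv f w t * f w i - f w t * deriv f w i) / (f w i) ^ 2) w :=
        (h1.hasDerivAt t).div (h1.hasDerivAt i) h2
      have h5 := (h4.mul h4).deriv
      have e1 : (fun w => (f w t / f w i) ^ 2)
          = (fun w => f w t / f w i) * (fun w => f w t / f w i) := by
        funext w
        simp only [Pi.mul_apply]
        ring
      rw [e1, h5]
      have h6 := h3 i t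
      simp only [om] at h6
      have e2 : (deriv f w t * f w i - f w t * deriv f w i) / f w i ^ 2 * (f w t / f w i) +
          f w t / f w i * ((deriv f w t * f w i - f w t * deriv f w i) / f w i ^ 2)
          = 2 * (f w i * f w t * (f w i * deriv f w t - f w t * deriv f w i)) / f w i ^ 4 := by
        field_simp
        ring
      rw [e2, h6]
      simp
    have hplus : ∀ᶠ w in 𝓝 z, f z t / f z i = 0 ∨ f w t / f w i + f z t / f z i ≠ 0 := by
      by_cases h0 : f z t / f z i = 0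
      · exact Filter.Eventually.of_forall fun _ => Or.inl h0
      · have h1 : ContinuousAt (fun w => f w t / f w i + f z t / f z i) z :=
          ha.continuousAt.add continuousAt_const
        have h2 : f z t / f z i + f z t / f z i ≠ 0 := by
          intro h3
          apply h0
          have : 2 * (f z t / f z i) = 0 := by linear_combination h3
          simpa using this
        filter_upwards [h1.eventually_ne h2] with w h3 using Or.inr h3
    filter_upwards [eventually_const ha2 hd, hplus] with w h1 h2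
    rcases h2 with h2 | h2
    · rw [h2] at h1 ⊢
      simpa using h1
    · have h3 : (f w t / f w i - f z t / f z i) * (f w t / f w i + f z t / f z i) = 0 := by
        linear_combination h1
      exact sub_eq_zero.1 ((mul_eq_zero.1 h3).resolve_right h2)
  have hall : ∀ᶠ w in 𝓝 z, ∀ t, f w t / f w i = f z t / f z i := by
    rw [Filter.eventually_all]
    exact hconst
  have hloc : ∀ᶠ w in 𝓝 z, ψ w = ψ z := by
    obtain ⟨h4, h5⟩ := hf.2.self_of_nhds
    filter_upwards [hall, hf.2, hfi] with w h1 h2 h3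
    obtain ⟨h6, h7⟩ := h2
    rw [h5, h7, Projectivization.mk_eq_mk_iff']
    refine ⟨f w i / f z i, ?_⟩
    funext t
    have h8 := h1 t
    simp only [Pi.smul_apply, smul_eq_mul]
    field_simp at h8 ⊢
    linear_combination -h8
  have hfin := eq_of_eventually_const hψ (p := ψ z) (z₀ := z)
    ((hloc.filter_mono nhdsWithin_le_nhds).frequently)
  intro x y
  rw [hfin x, hfin y]

/-- the product of the components with index in `S`, different from `j`, `l` -/
def PL (S : Finset (Fin 9)) (w : Fin 9 → ℂ) (j l : Fin 9) : ℂ := ∏ t ∈ S \ {j, l}, w t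

lemma card_sdiff_pair {S : Finset (Fin 9)} (hS : S.card = 5) {j l : Fin 9} (hj : j ∈ S)
    (hl : l ∈ S) (hjl : j ≠ l) : (S \ {j, l}).card = 3 := by
  rw [Finset.card_sdiff_of_subset (by
    intro x hx
    simp only [Finset.mem_insert, Finset.mem_singleton] at hx
    rcases hx with rfl | rfl
    · exact hj
    · exact hl), Finset.card_pair hjl, hS]

lemma PL_smul {S : Finset (Fin 9)} (hS : S.card = 5) {j l : Fin 9} (hj : j ∈ S)
    (hl : l ∈ S) (hjl : j ≠ l) (w : Fin 9 → ℂ) (μ : ℂ) :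
    PL S (μ • w) j l = μ ^ 3 * PL S w j l := by
  unfold PL
  simp only [Pi.smul_apply, smul_eq_mul]
  rw [Finset.prod_mul_distrib, Finset.prod_const, card_sdiff_pair hS hj hl hjl]

lemma prodS_eq {S : Finset (Fin 9)} {j l : Fin 9} (hj : j ∈ S)
    (hl : l ∈ S) (hjl : j ≠ l) (w : Fin 9 → ℂ) :
    ∏ t ∈ S, w t = w j * w l * PL S w j l := by
  unfold PL
  rw [← Finset.prod_sdiff (s₁ := {j, l}) (s₂ := S) (by
    intro x hx
    simp only [Finset.mem_insert, Finset.mem_singleton] at hx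
    rcases hx with rfl | rfl
    · exact hj
    · exact hl), Finset.prod_pair hjl]
  ring

/-- nodes whose distances are between `1` and `60` -/
def Nodes (m : Fin 9 → ℂ) : Prop :=
  (∀ j l : Fin 9, j ≠ l → 1 ≤ ‖m l - m j‖) ∧ ∀ j l : Fin 9, ‖m l - m j‖ ≤ 60

lemma Nodes.ne {m : Fin 9 → ℂ} (hm : Nodes m) {j l : Fin 9} (h : j ≠ l) : m l - m j ≠ 0 := by
  intro h0
  have h1 := hm.1 j l h
  rw [h0, norm_zero] at h1
  linarith

lemma nodes_nd : Nodes nd := ⟨fun _ _ h => one_le_norm_cast_sub h, norm_cast_sub_le⟩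

/-- the square of `W / ∏ w t` -/
noncomputable def Hf (m : Fin 9 → ℂ) (S : Finset (Fin 9)) (κ : Fin 9 → ℂ) (w v : Fin 9 → ℂ) (j l : Fin 9) : ℂ :=
  (2 * om w v j l / ((m j - m l) * κ j * κ l) / PL S w j l) ^ 2

lemma Hf_scale (m : Fin 9 → ℂ) {S : Finset (Fin 9)} (hS : S.card = 5) (κ : Fin 9 → ℂ) {j l : Fin 9} (hj : j ∈ S)
    (hl : l ∈ S) (hjl : j ≠ l) (w v : Fin 9 → ℂ) {μ : ℂ} (hμ : μ ≠ 0) (ν : ℂ) :
    Hf m S κ (μ • w) (μ • v + ν • w) j l * μ ^ 2 = Hf m S κ w v j l := by
  unfold Hf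
  rw [om_scale, PL_smul hS hj hl hjl, ← mul_pow]
  congr 1
  by_cases hP : PL S w j l = 0
  · rw [hP]
    simp
  · by_cases hd : ((m j - m l) * κ j * κ l) = 0
    · rw [hd]
      simp
    · generalize ((m j - m l) * κ j * κ l) = D at hd ⊢
      field_simp

lemma exists_pair {m : Fin 9 → ℂ} (hm : Nodes m) {S : Finset (Fin 9)} (hS : S.card = 5) {κ : Fin 9 → ℂ}
    (hκ : ∀ t ∈ S, κ t ≠ 0) :
    ∃ ε : ℝ, 0 < ε ∧ ∀ (w : Fin 9 → ℂ) (c b : ℂ), w ≠ 0 →
      (∀ t, sqv w t = κ t * (c * m t + b)) →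
      ∃ j l, j ∈ S ∧ l ∈ S ∧ j ≠ l ∧ ∀ t ∈ S, t ≠ j → t ≠ l → ε * nrm w ≤ ‖w t‖ := by
  classical
  set K : ℝ := ∑ t, ‖κ t‖ with hK
  set K' : ℝ := ∑ t ∈ S, ‖κ t‖⁻¹ with hK'
  have hK0 : 0 ≤ K := Finset.sum_nonneg fun t _ => norm_nonneg _
  have hK'0 : 0 ≤ K' := Finset.sum_nonneg fun t _ => inv_nonneg.2 (norm_nonneg _)
  have hKt : ∀ t, ‖κ t‖ ≤ K := fun t =>
    Finset.single_le_sum (f := fun t => ‖κ t‖) (fun t _ => norm_nonneg _) (Finset.mem_univ t)
  have hK't : ∀ t ∈ S, ‖κ t‖⁻¹ ≤ K' := fun t ht =>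
    Finset.single_le_sum (f := fun t => ‖κ t‖⁻¹) (fun t _ => inv_nonneg.2 (norm_nonneg _)) ht
  refine ⟨1 / (33 * (1 + K) * (1 + K')), by positivity, fun w c b hw h => ?_⟩
  have hn := nrm_pos hw
  set ε : ℝ := 1 / (33 * (1 + K) * (1 + K')) with hε
  have hε0 : 0 < ε := by positivity
  have hεK : 1080 * (K * K') * ε ^ 2 < 1 := by
    rw [hε, div_pow, one_pow, mul_one_div, div_lt_one (by positivity)]
    have h1 : K * K' < ((1 + K) * (1 + K')) ^ 2 := by nlinarith [mul_nonneg hK0 hK'0]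
    have h2 : 0 ≤ ((1 + K) * (1 + K')) ^ 2 := sq_nonneg _
    calc 1080 * (K * K') < 1080 * ((1 + K) * (1 + K')) ^ 2 := by linarith
      _ ≤ 1089 * ((1 + K) * (1 + K')) ^ 2 := by linarith
      _ = _ := by ring
  set T : Finset (Fin 9) := S.filter (fun t => ‖w t‖ < ε * nrm w) with hT
  have hcard : T.card ≤ 1 := by
    rw [Finset.card_le_one]
    intro p hp q hq
    by_contra hpq
    rw [hT, Finset.mem_filter] at hp hq
    have hval : ∀ {t}, t ∈ S → ‖w t‖ < ε * nrm w →
        ‖c * m t + b‖ ≤ K' * (ε * nrm w) ^ 2 := by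
      intro t ht h1
      have h2 : c * m t + b = (κ t)⁻¹ * sqv w t := by
        rw [h t, ← mul_assoc, inv_mul_cancel₀ (hκ t ht), one_mul]
      rw [h2, norm_mul, norm_inv]
      have h3 : ‖sqv w t‖ ≤ (ε * nrm w) ^ 2 := by
        simp only [sqv, norm_pow]
        gcongr
      have := hK't t ht
      gcongr
    have hp1 := hval hp.1 hp.2
    have hq1 := hval hq.1 hq.2
    have hall : ∀ s : Fin 9, ‖w s‖ ^ 2 ≤ K * (120 * (K' * (ε * nrm w) ^ 2)) := by
      intro s
      have h2 : ‖w s‖ ^ 2 = ‖sqv w s‖ := by simp only [sqv, norm_pow]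
      have h3 : (m q - m p) * (c * m s + b) =
          (c * m q + b) * (m s - m p)
          - (c * m p + b) * (m s - m q) := by ring
      have h4 : ‖c * m s + b‖ ≤ 120 * (K' * (ε * nrm w) ^ 2) := by
        have h5 : ‖c * m s + b‖ ≤
            ‖m q - m p‖ * ‖c * m s + b‖ :=
          le_mul_of_one_le_left (norm_nonneg _) (hm.1 p q hpq)
        rw [← norm_mul, h3] at h5
        refine h5.trans ((norm_sub_le _ _).trans ?_)
        rw [norm_mul, norm_mul]
        have h6 : ‖c * m q + b‖ * ‖m s - m p‖ ≤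
            (K' * (ε * nrm w) ^ 2) * 60 := by
          gcongr
          exact hm.2 _ _
        have h7 : ‖c * m p + b‖ * ‖m s - m q‖ ≤
            (K' * (ε * nrm w) ^ 2) * 60 := by
          gcongr
          exact hm.2 _ _
        linarith
      rw [h2, h s, norm_mul]
      have := hKt s
      gcongr
    have h4 : nrm w ^ 2 ≤ 9 * (K * (120 * (K' * (ε * nrm w) ^ 2))) := by
      calc nrm w ^ 2 = ∑ t, ‖w t‖ ^ 2 := nrm_sq w
        _ ≤ ∑ _t : Fin 9, K * (120 * (K' * (ε * nrm w) ^ 2)) := Finset.sum_le_sum fun t _ => hall t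
        _ = _ := by
            rw [Finset.sum_const, Finset.card_univ, Fintype.card_fin]
            simp
    have h5 : 9 * (K * (120 * (K' * (ε * nrm w) ^ 2))) = (1080 * (K * K') * ε ^ 2) * nrm w ^ 2 := by
      ring
    rw [h5] at h4
    have h6 : (1080 * (K * K') * ε ^ 2) * nrm w ^ 2 < 1 * nrm w ^ 2 :=
      mul_lt_mul_of_pos_right hεK (by positivity)
    linarith
  obtain ⟨U, hTU, hUS, hU⟩ := Finset.exists_subsuperset_card_eq (n := 2) (s := T) (t := S)
    (by rw [hT]; exact Finset.filter_subset _ _) (by omega) (by omega)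
  obtain ⟨j, l, hjl, rfl⟩ := Finset.card_eq_two.1 hU
  refine ⟨j, l, hUS (by simp), hUS (by simp), hjl, fun t ht h1 h2 => ?_⟩
  by_contra h4
  push Not at h4
  have h5 : t ∈ T := by
    rw [hT, Finset.mem_filter]
    exact ⟨ht, h4⟩
  have h6 := hTU h5
  simp only [Finset.mem_insert, Finset.mem_singleton] at h6
  tauto

lemma Hf_bound {m : Fin 9 → ℂ} (hm : Nodes m) {S : Finset (Fin 9)} (hS : S.card = 5) {κ : Fin 9 → ℂ} {ε : ℝ} (hε : 0 < ε) :
    ∃ C : ℝ, ∀ (w v : Fin 9 → ℂ) (t : ℂ) (j l : Fin 9), w ≠ 0 → j ∈ S → l ∈ S → j ≠ l →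
      (∀ t ∈ S, t ≠ j → t ≠ l → ε * nrm w ≤ ‖w t‖) →
      ‖Hf m S κ w v j l‖ * nrm w ^ 2 ≤ C * (nrm (v - t • w) / nrm w) ^ 2 := by
  set K' : ℝ := ∑ t ∈ S, ‖κ t‖⁻¹ with hK'
  have hK'0 : 0 ≤ K' := Finset.sum_nonneg fun t _ => inv_nonneg.2 (norm_nonneg _)
  have hK't : ∀ t ∈ S, ‖κ t‖⁻¹ ≤ K' := fun t ht =>
    Finset.single_le_sum (f := fun t => ‖κ t‖⁻¹) (fun t _ => inv_nonneg.2 (norm_nonneg _)) ht
  refine ⟨(4 * K' ^ 2 / ε ^ 3) ^ 2, fun w v t j l hw hj hl hjl h => ?_⟩
  have hn := nrm_pos hw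
  have hP : (ε * nrm w) ^ 3 ≤ ‖PL S w j l‖ := by
    unfold PL
    rw [norm_prod]
    calc (ε * nrm w) ^ 3 = ∏ _t ∈ S \ {j, l}, (ε * nrm w) := by
          rw [Finset.prod_const, card_sdiff_pair hS hj hl hjl]
      _ ≤ _ := by
          refine Finset.prod_le_prod (fun t _ => by positivity) ?_
          intro t ht
          simp only [Finset.mem_sdiff, Finset.mem_insert, Finset.mem_singleton, not_or] at ht
          exact h t ht.1 ht.2.1 ht.2.2
  have hom := norm_om_le w v t j l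
  have h3 : 0 < (ε * nrm w) ^ 3 := by positivity
  have h4 : ‖2 * om w v j l / ((m j - m l) * κ j * κ l) / PL S w j l‖
      ≤ 2 * (2 * nrm w * nrm (v - t • w)) * K' ^ 2 / (ε * nrm w) ^ 3 := by
    rw [norm_div]
    have h5 : ‖2 * om w v j l / ((m j - m l) * κ j * κ l)‖
        ≤ 2 * (2 * nrm w * nrm (v - t • w)) * K' ^ 2 := by
      have h6 : 2 * om w v j l / ((m j - m l) * κ j * κ l)
          = 2 * om w v j l * ((m j - m l)⁻¹ * ((κ j)⁻¹ * (κ l)⁻¹)) := by
        rw [div_eq_mul_inv, mul_inv, mul_inv]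
        ring
      rw [h6, norm_mul, norm_mul, norm_mul, norm_mul, norm_inv, norm_inv, norm_inv]
      have e2 : ‖(2 : ℂ)‖ = 2 := by norm_num
      rw [e2]
      have h7 : ‖m j - m l‖⁻¹ ≤ 1 :=
        inv_le_one_of_one_le₀ (hm.1 l j (Ne.symm hjl))
      have h8 : ‖m j - m l‖⁻¹ * (‖κ j‖⁻¹ * ‖κ l‖⁻¹) ≤ 1 * (K' * K') := by
        have := hK't j hj
        have := hK't l hl
        gcongr
      have h9 : 0 ≤ 2 * (2 * nrm w * nrm (v - t • w)) :=
        mul_nonneg (by norm_num) (mul_nonneg (by positivity) (nrm_nonneg _))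
      calc _ ≤ 2 * (2 * nrm w * nrm (v - t • w)) * (1 * (K' * K')) := by gcongr
        _ = _ := by ring
    have h9 : 0 ≤ 2 * (2 * nrm w * nrm (v - t • w)) * K' ^ 2 :=
      mul_nonneg (mul_nonneg (by norm_num) (mul_nonneg (by positivity) (nrm_nonneg _)))
        (by positivity)
    gcongr
  unfold Hf
  rw [norm_pow]
  have h10 : 0 ≤ 2 * (2 * nrm w * nrm (v - t • w)) * K' ^ 2 / (ε * nrm w) ^ 3 :=
    (norm_nonneg _).trans h4
  calc _ ≤ (2 * (2 * nrm w * nrm (v - t • w)) * K' ^ 2 / (ε * nrm w) ^ 3) ^ 2 * nrm w ^ 2 := by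
        gcongr
    _ = _ := by
        field_simp
        ring

lemma sqv_smul (t : ℂ) (w : Fin 9 → ℂ) : sqv (t • w) = t ^ 2 • sqv w := by
  funext x
  simp only [sqv, Pi.smul_apply, smul_eq_mul]
  ring

lemma IsLift.analyticAt_om (hf : IsLift ψ f z) (j l : Fin 9) :
    AnalyticAt ℂ (fun w => om (f w) (deriv f w) j l) z :=
  ((hf.comp j).mul (hf.comp' l)).sub ((hf.comp l).mul (hf.comp' j))

lemma IsLift.hasDerivAt_lin (h : IsLift ψ f z) (C : (Fin 9 → ℂ) →ₗ[ℂ] ℂ) :
    HasDerivAt (fun w => C (sqv (f w))) (C (dsq (f z) (deriv f z))) z := by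
  have h1 : HasDerivAt (fun w => sqv (f w)) (dsq (f z) (deriv f z)) z :=
    hasDerivAt_pi.2 fun t => h.hasDerivAt_sq t
  exact (C.toContinuousLinearMap.hasFDerivAt (x := sqv (f z))).comp_hasDerivAt z h1

/-- A curve with `w t ^ 2 = κ t * (c * t + b)` for all `t`, where at least five of the constants
`κ t` do not vanish, is constant. -/
theorem curve_linear {m : Fin 9 → ℂ} (hm : Nodes m) (hψ : ∀ z, HolomorphicAt ψ z) {κ : Fin 9 → ℂ} {S : Finset (Fin 9)}
    (hS : S.card = 5) (hκ : ∀ t ∈ S, κ t ≠ 0) (C B : (Fin 9 → ℂ) →ₗ[ℂ] ℂ)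
    (hq : ∀ z t, sqv (ψ z).rep t =
      κ t * (C (sqv (ψ z).rep) * m t + B (sqv (ψ z).rep))) :
    ∀ x y, ψ x = ψ y := by
  classical
  have hlift : ∀ z f, IsLift ψ f z → ∀ t, sqv (f z) t =
      κ t * (C (sqv (f z)) * m t + B (sqv (f z))) := by
    intro z f hf t
    obtain ⟨μ, hμ, h1⟩ := hf.rep
    have h2 := hq z t
    rw [h1, sqv_smul, map_smul, map_smul] at h2
    simp only [Pi.smul_apply, smul_eq_mul] at h2
    have h3 : μ ^ 2 * sqv (f z) t
        = μ ^ 2 * (κ t * (C (sqv (f z)) * m t + B (sqv (f z)))) := by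
      rw [h2]
      ring
    exact mul_left_cancel₀ (pow_ne_zero 2 hμ) h3
  have hlift' : ∀ z f, IsLift ψ f z → ∀ t, dsq (f z) (deriv f z) t =
      κ t * (C (dsq (f z) (deriv f z)) * m t + B (dsq (f z) (deriv f z))) := by
    intro z f hf t
    have h1 := (((hf.hasDerivAt_lin C).mul_const (m t)).add
      (hf.hasDerivAt_lin B)).const_mul (κ t)
    have h2 : (fun w => sqv (f w) t) =ᶠ[𝓝 z] fun w =>
        κ t * (C (sqv (f w)) * m t + B (sqv (f w))) := by
      filter_upwards [hf.eventually] with w hw using hlift w f hw t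
    exact (hf.hasDerivAt_sq t).unique (h1.congr_of_eventuallyEq h2)
  -- the Wronskian of the two coefficients
  set W1 : (Fin 9 → ℂ) → (Fin 9 → ℂ) → ℂ := fun s s' => C s * B s' - C s' * B s with hW1
  have hW : ∀ z f, IsLift ψ f z → ∀ j l, 2 * (f z j * f z l * om (f z) (deriv f z) j l) =
      (m j - m l) * κ j * κ l * W1 (sqv (f z)) (dsq (f z) (deriv f z)) := by
    intro z f hf j l
    have h1 : 2 * (f z j * f z l * om (f z) (deriv f z) j l) =
        sqv (f z) j * dsq (f z) (deriv f z) l - sqv (f z) l * dsq (f z) (deriv f z) j := by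
      simp only [om, sqv, dsq]
      ring
    rw [h1, hlift z f hf j, hlift z f hf l, hlift' z f hf j, hlift' z f hf l]
    simp only [hW1]
    ring
  have hfin : ∀ z f, IsLift ψ f z → W1 (sqv (f z)) (dsq (f z) (deriv f z)) = 0 := by
    by_cases hzero : ∃ t ∈ S, ∀ z, (ψ z).rep t = 0
    · obtain ⟨t, ht, h0⟩ := hzero
      intro z f hf
      obtain ⟨l, hl, hlt⟩ : ∃ l ∈ S, t ≠ l := by
        obtain ⟨l, hl, hlt⟩ := Finset.exists_mem_ne (s := S) (by omega) t
        exact ⟨l, hl, Ne.symm hlt⟩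
      have h1 := hW z f hf t l
      have h2 : f z t = 0 := by
        obtain ⟨μ, hμ, h3⟩ := hf.rep
        have h4 := h0 z
        rw [h3] at h4
        simpa [hμ] using h4
      rw [h2] at h1
      have h5 : (m t - m l) * κ t * κ l ≠ 0 :=
        mul_ne_zero (mul_ne_zero (hm.ne (Ne.symm hlt)) (hκ t ht)) (hκ l hl)
      have h6 : (m t - m l) * κ t * κ l
          * W1 (sqv (f z)) (dsq (f z) (deriv f z)) = 0 := by
        rw [← h1]
        ring
      exact (mul_eq_zero.1 h6).resolve_left h5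
    · push Not at hzero
      have hne : ∀ t ∈ S, ∀ z, ∀ᶠ w in 𝓝[≠] z, (ψ w).rep t ≠ 0 := by
        intro t ht
        refine (curve_dichotomy hψ (fun w => w t) (fun x =>
        (ContinuousLinearMap.proj (R := ℂ) (φ := fun _ : Fin 9 => ℂ) t).analyticAt x) 1
          (fun c x => by simp)).resolve_left ?_
        intro h
        obtain ⟨z, hz⟩ := hzero t ht
        exact hz (h z)
      obtain ⟨ε, hε, hpair⟩ := exists_pair hm hS hκ
      obtain ⟨C', hbound⟩ := Hf_bound hm (κ := κ) hS hε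
      have hex : ∀ z, ∃ p : Fin 9 × Fin 9, (p.1 ∈ S ∧ p.2 ∈ S ∧ p.1 ≠ p.2) ∧
          ∀ t ∈ S, t ≠ p.1 → t ≠ p.2 → ε * nrm (ψ z).rep ≤ ‖(ψ z).rep t‖ := by
        intro z
        obtain ⟨j, l, hj, hl, hjl, h⟩ := hpair (ψ z).rep _ _ (ψ z).rep_nonzero (hq z)
        exact ⟨(j, l), ⟨hj, hl, hjl⟩, h⟩
      choose i hi hi' using hex
      have hi'' : ∀ z f, IsLift ψ f z → ∀ t ∈ S, t ≠ (i z).1 → t ≠ (i z).2 →
          ε * nrm (f z) ≤ ‖f z t‖ := by
        intro z f hf t ht h1 h2
        obtain ⟨μ, hμ, h3⟩ := hf.rep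
        have h4 := hi' z t ht h1 h2
        rw [h3, nrm_smul] at h4
        simp only [Pi.smul_apply, smul_eq_mul, norm_mul] at h4
        have h5 : 0 < ‖μ‖ := norm_pos_iff.2 hμ
        have h6 : ‖μ‖ * (ε * nrm (f z)) ≤ ‖μ‖ * ‖f z t‖ := by linarith
        exact le_of_mul_le_mul_left h6 h5
      have hPne : ∀ z f, IsLift ψ f z → PL S (f z) (i z).1 (i z).2 ≠ 0 := by
        intro z f hf
        unfold PL
        refine Finset.prod_ne_zero_iff.2 fun t ht => ?_
        simp only [Finset.mem_sdiff, Finset.mem_insert, Finset.mem_singleton, not_or] at ht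
        have h1 := hi'' z f hf t ht.1 ht.2.1 ht.2.2
        have h2 := nrm_pos hf.ne
        exact norm_pos_iff.1 (lt_of_lt_of_le (by positivity) h1)
      have hcz := curve_zero hψ
        (I := {p : Fin 9 × Fin 9 // p.1 ∈ S ∧ p.2 ∈ S ∧ p.1 ≠ p.2})
        (fun p w v => Hf m S κ w v p.1.1 p.1.2) (m := 2) (by norm_num) C'
        (fun z => ⟨i z, hi z⟩)
        (fun p w v μ ν hμ => Hf_scale m hS κ p.2.1 p.2.2.1 p.2.2.2 w v hμ ν)
        (by
          intro z f hf
          have h1 : AnalyticAt ℂ (fun w => PL S (f w) (i z).1 (i z).2) z :=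
            Finset.analyticAt_fun_prod _ fun t _ => hf.comp t
          exact (((analyticAt_const.mul (hf.analyticAt_om _ _)).div_const).div h1
            (hPne z f hf)).pow 2)
        (by
          intro z f hf t
          exact hbound _ _ t _ _ hf.ne (hi z).1 (hi z).2.1 (hi z).2.2 (hi'' z f hf))
        (by
          intro z f hf
          have h1 : ∀ᶠ w in 𝓝[≠] z, ∀ t ∈ S, (ψ w).rep t ≠ 0 := by
            rw [Filter.eventually_all_finset]
            exact fun t ht => hne t ht z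
          filter_upwards [h1, hf.eventually.filter_mono nhdsWithin_le_nhds] with w h2 h3
          have h4 : ∀ t ∈ S, f w t ≠ 0 := by
            intro t ht h5
            obtain ⟨μ, hμ, h6⟩ := h3.rep
            apply h2 t ht
            rw [h6]
            simp [h5]
          have h7 : ∀ j l, j ∈ S → l ∈ S → j ≠ l → Hf m S κ (f w) (deriv f w) j l =
              (W1 (sqv (f w)) (dsq (f w) (deriv f w)) / ∏ t ∈ S, f w t) ^ 2 := by
            intro j l hj hl hjl
            unfold Hf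
            congr 1
            have hP : PL S (f w) j l ≠ 0 := by
              unfold PL
              refine Finset.prod_ne_zero_iff.2 fun t ht => h4 t ?_
              simp only [Finset.mem_sdiff] at ht
              exact ht.1
            have h8 := hW w f h3 j l
            rw [prodS_eq hj hl hjl]
            have e1 := h4 j hj
            have e2 := h4 l hl
            have e3 := hm.ne (Ne.symm hjl)
            have e4 := hκ j hj
            have e5 := hκ l hl
            rw [div_div, div_eq_div_iff (mul_ne_zero (mul_ne_zero (mul_ne_zero e3 e4) e5) hP)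
              (mul_ne_zero (mul_ne_zero e1 e2) hP)]
            linear_combination PL S (f w) j l * h8
          intro p
          rw [h7 _ _ p.2.1 p.2.2.1 p.2.2.2, h7 _ _ (hi z).1 (hi z).2.1 (hi z).2.2])
      intro z f hf
      have h1 := hcz z f hf
      dsimp only at h1
      unfold Hf at h1
      have h2 := pow_eq_zero_iff (two_ne_zero) |>.1 h1
      rw [div_eq_zero_iff] at h2
      have h3 := h2.resolve_right (hPne z f hf)
      have e3 := hm.ne (Ne.symm (hi z).2.2)
      have e4 := hκ _ (hi z).1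
      have e5 := hκ _ (hi z).2.1
      have e6 := mul_ne_zero (mul_ne_zero e3 e4) e5
      rw [div_eq_zero_iff] at h3
      have h4 := h3.resolve_right e6
      have h5 := hW z f hf (i z).1 (i z).2
      have h6 : (m (i z).1 - m (i z).2) * κ (i z).1 * κ (i z).2
          * W1 (sqv (f z)) (dsq (f z) (deriv f z)) = 0 := by
        rw [← h5]
        linear_combination (f z (i z).1 * f z (i z).2) * h4
      exact (mul_eq_zero.1 h6).resolve_left e6
  obtain ⟨f, hf⟩ : ∃ f, IsLift ψ f 0 := hψ 0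
  refine const_of_om hψ hf ?_
  filter_upwards [hf.eventually] with w hw j l
  have h1 := hW w f hw j l
  rw [hfin w f hw, mul_zero] at h1
  linear_combination h1 / 2

end Pool.Agent.Lib.MP_627a61_nt.Bx
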