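import Pool.Agent.Lib.MP_627a61_nt.Bx.Geo
import Pool.Agent.Lib.MP_627a61_nt.BoxVarietyDefs

/-!
# The box varieties
-/

open scoped LinearAlgebra.Projectivization Topology
open Filter MvPolynomial

namespace Pool.Agent.Lib.MP_627a61_nt.Bx

/-- the vectors of the box -/
abbrev bxv (n B : ℕ) (R : Type*) [Ring R] : (Fin n → Fin (B + 1)) → Fin n → R :=
  fun v i => ((v i : ℕ) : R)

lemma boxVariety_eq {n B : ℕ} {k K : Type*} [Field k] [Field K] (τ : k →+* K)
    (Φ : Submodule k (Fin n → Fin n → k)) :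
    boxVariety τ B Φ = valSet (ext τ Φ) (bxv n B K) := rfl

lemma bxv_4 {n B : ℕ} (hB : 3 ≤ B) (R : Type*) [Ring R] (v : Fin n → Fin 4) :
    ∃ l, bxv n B R l = fun a => ((v a : ℕ) : R) :=
  ⟨fun i => Fin.castLE (by omega) (v i), rfl⟩

/-- a symmetric form which vanishes on the box is zero -/
lemma form_zero_of_box {n B : ℕ} (hB : 3 ≤ B) {k : Type} [Field k] [CharZero k]
    {φ : Fin n → Fin n → k} (hs : ∀ i j, φ i j = φ j i)
    (h : ∀ v : Fin n → Fin (B + 1), formVal φ v = 0) : φ = 0 := by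
  have key : ∀ v : Fin n → Fin 4, qv φ (fun i => ((v i : ℕ) : k)) = 0 := by
    intro v
    have h1 := h fun i => Fin.castLE (by omega) (v i)
    rw [formVal_eq] at h1
    exact h1
  have hd : ∀ j, φ j j = 0 := by
    intro j
    have h1 := key (v4 1 0 0 (by norm_num) (by norm_num) (by norm_num) {j} ∅ ∅)
    rw [v4_cast _ _ _ (by simp) (by simp) (by simp), qv_vec3 hs] at h1
    simpa [fS] using h1
  funext j l
  by_cases hjl : j = l
  · rw [hjl]
    exact hd l
  · have h1 := key (v4 1 1 0 (by norm_num) (by norm_num) (by norm_num) {j} {l} ∅)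
    rw [v4_cast _ _ _ (by simpa using hjl) (by simp) (by simp), qv_vec3 hs] at h1
    simpa [fS, hd] using h1

/-- the box variety is an intersection of diagonal quadrics over `k` -/
lemma exists_diagQuad_box {n B : ℕ} (hB : 3 ≤ B) (k : Type) [Field k] [CharZero k]
    (Φ : Submodule k (Fin n → Fin n → k)) (hsym : ∀ φ ∈ Φ, ∀ i j, φ i j = φ j i) :
    ∃ a : (Fin n → Fin (B + 1)) → (Fin n → Fin (B + 1)) → k, ∀ (K : Type) [Field K]
      (τ : k →+* K), points τ (diagQuad a) = boxVariety τ B Φ := by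
  let b := Module.finBasis k Φ
  obtain ⟨a, ha⟩ := exists_diagQuad (Lmat (fun i => (b i : Fin n → Fin n → k)) (bxv n B k))
    (fun u hu => by
      have h1 : (∑ i, u i • (b i : Fin n → Fin n → k)) = 0 := by
        refine form_zero_of_box hB (fun i j => ?_) fun v => ?_
        · refine hsym _ ?_ i j
          exact Submodule.sum_mem _ fun i _ => Submodule.smul_mem _ _ (b i).2
        · rw [formVal_eq, qv_sum]
          exact hu v
      have h2 : ∑ i, u i • b i = 0 := by
        apply Subtype.ext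
        rw [Submodule.coe_sum, Submodule.coe_zero]
        exact h1
      funext i
      exact Fintype.linearIndependent_iff.1 b.linearIndependent u h2 i)
  refine ⟨a, fun K _ τ => ?_⟩
  rw [ha K τ, boxVariety_eq, ← valSet_ext τ Φ b (bxv n B k)]
  congr 1
  funext v i
  simp [bxv]

lemma pclosed_box {n B : ℕ} (hB : 3 ≤ B) (k : Type) [Field k] [CharZero k]
    (Φ : Submodule k (Fin n → Fin n → k)) (hsym : ∀ φ ∈ Φ, ∀ i j, φ i j = φ j i)
    (σ : k →+* ℂ) : PClosed (boxVariety σ B Φ) := by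
  obtain ⟨a, ha⟩ := exists_diagQuad_box hB k Φ hsym
  rw [← ha ℂ σ]
  exact pclosed_points (homog_diagQuad a) σ

lemma pclosed_squareForms {n : ℕ} (k : Type) [Field k]
    (Φ : Submodule k (Fin n → Fin n → k)) (σ : k →+* ℂ) : PClosed (squareForms σ Φ) := by
  obtain ⟨S', hS', hS'2⟩ := exists_quadrics Φ
  rw [squareForms_eq, ← (hS'2 ℂ σ).2]
  exact pclosed_points hS' σ

/-- the linear map to the box coordinates -/
def bxl {n B : ℕ} {K : Type*} [Field K] (x : Fin n → K) : (Fin n → Fin (B + 1)) → K :=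
  fun v => ∑ i, ((v i : ℕ) : K) * x i

lemma bxl_smul {n B : ℕ} {K : Type*} [Field K] (t : K) (x : Fin n → K) :
    (bxl (t • x) : (Fin n → Fin (B + 1)) → K) = t • bxl x := by
  funext v
  simp only [bxl, Pi.smul_apply, smul_eq_mul, Finset.mul_sum]
  exact Finset.sum_congr rfl fun i _ => by ring

/-- a unit vector of the box -/
def bxe {n B : ℕ} (hB : 3 ≤ B) (j : Fin n) : Fin n → Fin (B + 1) :=
  fun i => if i = j then ⟨1, by omega⟩ else ⟨0, by omega⟩

lemma bxl_e {n B : ℕ} (hB : 3 ≤ B) {K : Type*} [Field K] (x : Fin n → K) (j : Fin n) :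
    bxl (B := B) x (bxe hB j) = x j := by
  unfold bxl bxe
  rw [Finset.sum_eq_single j]
  · simp
  · intro b _ hb
    simp [hb]
  · intro h
    exact absurd (Finset.mem_univ _) h

lemma bxl_inj {n B : ℕ} (hB : 3 ≤ B) {K : Type*} [Field K] {x y : Fin n → K}
    (h : (bxl x : (Fin n → Fin (B + 1)) → K) = bxl y) : x = y := by
  funext j
  rw [← bxl_e hB x j, ← bxl_e hB y j, h]

lemma bxl_ne {n B : ℕ} (hB : 3 ≤ B) {K : Type*} [Field K] {x : Fin n → K} (h : x ≠ 0) :
    (bxl x : (Fin n → Fin (B + 1)) → K) ≠ 0 := by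
  intro h0
  apply h
  apply bxl_inj hB
  rw [h0]
  funext v
  simp [bxl]

lemma mem_box_mk {n B : ℕ} {k K : Type*} [Field k] [Field K] (τ : k →+* K)
    (Φ : Submodule k (Fin n → Fin n → k)) {z : (Fin n → Fin (B + 1)) → K} (hz : z ≠ 0)
    {φ : Fin n → Fin n → K} (hφ : φ ∈ ext τ Φ) (h : ∀ v, z v ^ 2 = formVal φ v) :
    Projectivization.mk K z hz ∈ boxVariety τ B Φ := by
  obtain ⟨t, ht, hrep⟩ := exists_rep_eq (p := Projectivization.mk K z hz) (v := z) (hv := hz) rfl
  refine ⟨t ^ 2 • φ, Submodule.smul_mem _ _ hφ, fun v => ?_⟩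
  rw [hrep, Pi.smul_apply, smul_eq_mul, mul_pow, h v, formVal_eq, formVal_eq, qv_smul]
  ring

lemma bxl_mem {n B : ℕ} (hB : 3 ≤ B) {k K : Type*} [Field k] [Field K] (τ : k →+* K)
    (Φ : Submodule k (Fin n → Fin n → k)) {p : ℙ K (Fin n → K)} (hp : p ∈ squareForms τ Φ) :
    Projectivization.mk K (bxl p.rep) (bxl_ne hB p.rep_nonzero) ∈ boxVariety τ B Φ := by
  refine mem_box_mk τ Φ _ (φ := sq p.rep) hp fun v => ?_
  rw [formVal_eq, qv_sq]
  rfl

/-- a hyperbolic box variety has a hyperbolic variety of squares -/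
lemma brody_of_box {n B : ℕ} (hB : 3 ≤ B) (k : Type) [Field k]
    (Φ : Submodule k (Fin n → Fin n → k)) (σ : k →+* ℂ)
    (h : BrodyHyperbolic (boxVariety σ B Φ)) : BrodyHyperbolic (squareForms σ Φ) := by
  intro χ hχ hmem
  obtain ⟨ψ, hψ, hψ1, -⟩ := exists_division hχ
    (fun x => (bxl x : (Fin n → Fin (B + 1)) → ℂ))
    (by
      intro x
      rw [analyticAt_pi_iff]
      intro v
      exact Finset.analyticAt_fun_sum _ fun i _ => analyticAt_const.mul (analyticAt_proj _ x)) 1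
    (by
      intro t x
      rw [pow_one]
      exact bxl_smul t x) (bxl_ne hB (χ 0).rep_nonzero)
  have hc := h ψ hψ fun z => by
    rw [hψ1 z (bxl_ne hB (χ z).rep_nonzero)]
    exact bxl_mem hB σ Φ (hmem z)
  intro z w
  have h1 := hc z w
  rw [hψ1 z (bxl_ne hB (χ z).rep_nonzero), hψ1 w (bxl_ne hB (χ w).rep_nonzero),
    Projectivization.mk_eq_mk_iff'] at h1
  obtain ⟨t, ht⟩ := h1
  rw [← (χ z).mk_rep, ← (χ w).mk_rep, Projectivization.mk_eq_mk_iff']
  refine ⟨t, ?_⟩
  apply bxl_inj hB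
  rw [bxl_smul]
  exact ht

/-- the key step: hyperbolicity of the variety of values -/
theorem key3 {ν I : Type} [Fintype ν] [DecidableEq ν] [Fintype I]
    (Φ : Submodule ℂ (ν → ν → ℂ)) (hΦ : Symm Φ) (lam : I → ν → ℂ)
    (hlam : ∀ v : ν → Fin 4, ∃ l, lam l = fun a => ((v a : ℕ) : ℂ))
    (hB : BrodyHyperbolic (sqSet Φ)) : BrodyHyperbolic (valSet Φ lam) := by
  intro ψ hψ hval
  rcases geo_structure Φ hΦ lam hlam ψ hψ hval with h | ⟨ε, χ, -, hχ, hχΦ, hrep⟩
  · exact h
  · have hc := hB χ hχ hχΦ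
    intro z w
    obtain ⟨c, h1⟩ := hrep z
    obtain ⟨c', h2⟩ := hrep w
    rw [hc z w] at h1
    have hc' : c' ≠ 0 := by
      rintro rfl
      apply (ψ w).rep_nonzero
      funext a
      rw [h2 a]
      simp
    rw [← (ψ z).mk_rep, ← (ψ w).mk_rep, Projectivization.mk_eq_mk_iff']
    refine ⟨c * c'⁻¹, ?_⟩
    funext a
    rw [Pi.smul_apply, smul_eq_mul, h1 a, h2 a]
    field_simp

/-- the box variety is hyperbolic if and only if the variety of squares is -/
lemma box_kobayashi_iff {n B : ℕ} (hB : 3 ≤ B) (k : Type) [Field k] [CharZero k]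
    (Φ : Submodule k (Fin n → Fin n → k)) (hsym : ∀ φ ∈ Φ, ∀ i j, φ i j = φ j i) (σ : k →+* ℂ) :
    KobayashiHyperbolic (boxVariety σ B Φ) ↔ KobayashiHyperbolic (squareForms σ Φ) := by
  constructor
  · intro h
    exact (brody_of_box hB k Φ σ h.brody).kobayashi (pclosed_squareForms k Φ σ)
  · intro h
    have h1 : BrodyHyperbolic (boxVariety σ B Φ) := by
      rw [boxVariety_eq]
      exact key3 (ext σ Φ) (ext_symm σ hsym) _ (bxv_4 hB ℂ) h.brody
    exact h1.kobayashi (pclosed_box hB k Φ hsym σ)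

/-- entire curves in the box variety -/
lemma box_curves {n B : ℕ} (hB : 3 ≤ B) (k : Type) [Field k]
    (Φ : Submodule k (Fin n → Fin n → k)) (hsym : ∀ φ ∈ Φ, ∀ i j, φ i j = φ j i) (σ : k →+* ℂ)
    (ψ : ℂ → ℙ ℂ ((Fin n → Fin (B + 1)) → ℂ)) (hψ : ∀ z, HolomorphicAt ψ z)
    (hmem : ∀ z, ψ z ∈ boxVariety σ B Φ) :
    (∀ z w, ψ z = ψ w) ∨
    ∃ (ε : (Fin n → Fin (B + 1)) → ℂ) (χ : ℂ → ℙ ℂ (Fin n → ℂ)), (∀ v, ε v = 1 ∨ ε v = -1) ∧
      (∀ z, HolomorphicAt χ z) ∧ (∀ z, χ z ∈ squareForms σ Φ) ∧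
      ∀ z, ∃ c : ℂ, ∀ v, (ψ z).rep v = c * (ε v * ∑ i, ((v i : ℕ) : ℂ) * (χ z).rep i) :=
  geo_structure (ext σ Φ) (ext_symm σ hsym) (bxv n B ℂ) (bxv_4 hB ℂ) ψ hψ hmem

/-- points of the box variety over the ground field -/
lemma box_points_iff {n B : ℕ} (hB : 3 ≤ B) (k : Type) [Field k] [CharZero k]
    (Φ : Submodule k (Fin n → Fin n → k)) (hsym : ∀ φ ∈ Φ, ∀ i j, φ i j = φ j i) :
    (boxVariety (RingHom.id k) B Φ).Finite ↔ (boxSquares B Φ).Finite := by
  classical
  constructor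
  · intro h
    have hch : ∀ p ∈ boxSquares B Φ, ∃ z : (Fin n → Fin (B + 1)) → k, ∃ c : k, c ≠ 0 ∧
        z ≠ 0 ∧ ∀ v, z v ^ 2 = c * formVal p.rep v := by
      rintro p ⟨hp, c, hc, hsq⟩
      choose y hy using hsq
      refine ⟨y, c, hc, ?_, fun v => by rw [hy v]; ring⟩
      intro h0
      apply p.rep_nonzero
      refine form_zero_of_box hB (hsym _ hp) fun v => ?_
      have h1 := hy v
      rw [h0, Pi.zero_apply, mul_zero] at h1
      exact (mul_eq_zero.1 h1).resolve_left hc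
    choose! z c hc hz hzv using hch
    refine Set.Finite.of_injOn (f := fun p => if hp : z p ≠ 0 then Projectivization.mk k (z p) hp
      else Projectivization.mk k (1 : (Fin n → Fin (B + 1)) → k) one_ne_zero)
      (t := boxVariety (RingHom.id k) B Φ) ?_ ?_ h
    · intro p hp
      simp only [hz p hp, ne_eq, not_false_eq_true, dif_pos]
      refine mem_box_mk _ Φ _ (φ := c p • p.rep) ?_ fun v => ?_
      · rw [ext_id]
        exact Submodule.smul_mem _ _ hp.1
      · rw [hzv p hp, formVal_eq, formVal_eq, qv_smul, mul_comm]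
    · intro p hp q hq hpq
      simp only [hz p hp, hz q hq, ne_eq, not_false_eq_true, dif_pos] at hpq
      rw [Projectivization.mk_eq_mk_iff'] at hpq
      obtain ⟨t, ht⟩ := hpq
      have hd : c p • p.rep - (t ^ 2 * c q) • q.rep = 0 := by
        refine form_zero_of_box hB (fun i j => ?_) fun v => ?_
        · exact hsym _ (Submodule.sub_mem _ (Submodule.smul_mem _ _ hp.1)
            (Submodule.smul_mem _ _ hq.1)) i j
        · have h1 := hzv p hp v
          have h2 := hzv q hq v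
          rw [← ht, Pi.smul_apply, smul_eq_mul, mul_pow, h2] at h1
          rw [formVal_eq, sub_eq_add_neg, qv_add, ← neg_smul, qv_smul, qv_smul]
          rw [formVal_eq, formVal_eq] at h1
          linear_combination -h1
      rw [← p.mk_rep, ← q.mk_rep, Projectivization.mk_eq_mk_iff']
      refine ⟨(c p)⁻¹ * (t ^ 2 * c q), ?_⟩
      rw [mul_smul, ← sub_eq_zero.1 hd, smul_smul, inv_mul_cancel₀ (hc p hp), one_smul]
  · intro hfin
    have hroots : ∀ x : ℙ k (Fin n → Fin n → k), ∃ w : (Fin n → Fin (B + 1)) → k,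
        x ∈ boxSquares B Φ → ∃ c : k, c ≠ 0 ∧ ∀ v, w v ^ 2 = c * formVal x.rep v := by
      intro x
      by_cases hx : x ∈ boxSquares B Φ
      · obtain ⟨-, c, hc, h⟩ := hx
        choose w hw using h
        exact ⟨w, fun _ => ⟨c, hc, fun v => by rw [hw v]; ring⟩⟩
      · exact ⟨0, fun h => absurd h hx⟩
    choose w hw using hroots
    have hsub : ∀ (x y : ℙ k ((Fin n → Fin (B + 1)) → k)) (t : k), x.rep = t • y.rep → x = y := by
      intro x y t h
      rw [← Projectivization.mk_rep x, ← Projectivization.mk_rep y,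
        Projectivization.mk_eq_mk_iff']
      exact ⟨t, h.symm⟩
    refine Set.Finite.subset (s := ⋃ x ∈ boxSquares B Φ, ⋃ e : (Fin n → Fin (B + 1)) → Bool,
      {z : ℙ k ((Fin n → Fin (B + 1)) → k) |
        ∃ s : k, z.rep = s • fun l => (if e l then (1 : k) else -1) * w x l}) ?_ ?_
    · refine hfin.biUnion fun x _ => Set.finite_iUnion fun e => Set.Subsingleton.finite ?_
      rintro z ⟨s, hs⟩ z' ⟨s', hs'⟩
      have hs0' : s' ≠ 0 := by
        rintro rfl
        rw [zero_smul] at hs'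
        exact z'.rep_nonzero hs'
      refine hsub z z' (s * s'⁻¹) ?_
      rw [hs, hs', smul_smul, mul_assoc, inv_mul_cancel₀ hs0', mul_one]
    · rintro z ⟨φ, hφ, hu⟩
      have hφ' : φ ∈ Φ := by
        have h1 : φ ∈ ext (RingHom.id k) Φ := hφ
        rwa [ext_id] at h1
      obtain ⟨l0, hl0⟩ : ∃ l, z.rep l ≠ 0 := by
        by_contra hcon
        push Not at hcon
        exact z.rep_nonzero (funext hcon)
      have hφ0 : φ ≠ 0 := by
        rintro rfl
        have h1 := hu l0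
        rw [formVal_eq, qv_zero] at h1
        exact hl0 (pow_eq_zero_iff (two_ne_zero) |>.mp h1)
      obtain ⟨t, ht, hrep⟩ := exists_rep_eq (p := Projectivization.mk k φ hφ0)
        (v := φ) (hv := hφ0) rfl
      obtain ⟨x, hxdef⟩ : ∃ x : ℙ k (Fin n → Fin n → k), x = Projectivization.mk k φ hφ0 :=
        ⟨_, rfl⟩
      rw [← hxdef] at hrep
      have hxv : ∀ l, formVal x.rep l = t * z.rep l ^ 2 := by
        intro l
        rw [hrep, hu l, formVal_eq, formVal_eq, qv_smul, mul_comm]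
      have hxmem : x ∈ boxSquares B Φ := by
        refine ⟨?_, t⁻¹, inv_ne_zero ht, fun l => ⟨z.rep l, ?_⟩⟩
        · rw [hrep]
          exact Submodule.smul_mem _ _ hφ'
        · rw [hxv l, ← mul_assoc, inv_mul_cancel₀ ht, one_mul, pow_two]
      obtain ⟨c, hc, hcw⟩ := hw x hxmem
      have hrel : ∀ l, w x l ^ 2 = c * t * z.rep l ^ 2 := by
        intro l
        rw [hcw l, hxv l]
        ring
      have hwl0 : w x l0 ≠ 0 := by
        intro h0
        have := hrel l0
        rw [h0] at this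
        have h1 : c * t * z.rep l0 ^ 2 ≠ 0 := mul_ne_zero (mul_ne_zero hc ht) (pow_ne_zero 2 hl0)
        apply h1
        rw [← this]
        ring
      obtain ⟨b, hb⟩ : ∃ b, b = w x l0 / z.rep l0 := ⟨_, rfl⟩
      have hb0 : b ≠ 0 := by rw [hb]; exact div_ne_zero hwl0 hl0
      have hct : c * t = b ^ 2 := by
        have := hrel l0
        rw [hb, div_pow, this]
        field_simp
      have hpm : ∀ l, w x l = b * z.rep l ∨ w x l = -(b * z.rep l) := by
        intro l
        apply sq_eq_sq_iff_eq_or_eq_neg.mp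
        rw [hrel l, hct]
        ring
      rw [Set.mem_iUnion₂]
      refine ⟨x, hxmem, ?_⟩
      rw [Set.mem_iUnion]
      refine ⟨fun l => decide (w x l = b * z.rep l), ?_⟩
      refine ⟨b⁻¹, funext fun l => ?_⟩
      rw [Pi.smul_apply, smul_eq_mul]
      by_cases h : w x l = b * z.rep l
      · simp only [h, decide_true, if_true]
        field_simp
      · have h2 := (hpm l).resolve_left h
        simp only [h, decide_false, Bool.false_eq_true, if_false]
        rw [h2]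
        field_simp

/-- From finiteness of points to finiteness of forms with square values on the box -/
lemma box_forward3 {B : ℕ} (hB : 3 ≤ B)
    (k : Type) [Field k] [CharZero k] (T : Set (k →+* ℂ))
    (h : ∀ (n : ℕ) (S : Set (MvPolynomial (Fin (n + 1)) k)), Homog S →
      (∀ σ ∈ T, KobayashiHyperbolic (points σ S)) → (points (RingHom.id k) S).Finite)
    (n : ℕ) (Φ : Submodule k (Fin n → Fin n → k)) (hsym : ∀ φ ∈ Φ, ∀ i j, φ i j = φ j i)
    (hZ : ∀ σ ∈ T, KobayashiHyperbolic (squareForms σ Φ)) : (boxSquares B Φ).Finite := by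
  classical
  obtain hr | ⟨D, hD⟩ : Module.finrank k Φ = 0 ∨ ∃ D, Module.finrank k Φ = D + 1 := by
    rcases Nat.eq_zero_or_pos (Module.finrank k Φ) with h0 | h0
    · exact Or.inl h0
    · exact Or.inr ⟨Module.finrank k Φ - 1, by omega⟩
  · have h1 : Φ = ⊥ := Submodule.finrank_eq_zero.1 hr
    have h2 : boxSquares B Φ = ∅ := by
      rw [Set.eq_empty_iff_forall_notMem]
      rintro p ⟨hp, -⟩
      rw [h1, Submodule.mem_bot] at hp
      exact p.rep_nonzero hp
    rw [h2]
    exact Set.finite_empty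
  let b : Module.Basis (Fin (D + 1)) k Φ := Module.finBasisOfFinrankEq k Φ hD
  let Bf : Fin (D + 1) → Fin n → Fin n → k := fun i => (b i).1
  have hBf : LinearIndependent k Bf :=
    b.linearIndependent.map' Φ.subtype (Submodule.ker_subtype _)
  obtain ⟨m, hm⟩ : ∃ m, Fintype.card (Fin n → Fin (B + 1)) = m + 1 :=
    ⟨Fintype.card (Fin n → Fin (B + 1)) - 1, by
      have : 0 < Fintype.card (Fin n → Fin (B + 1)) := Fintype.card_pos
      omega⟩
  let e : Fin (m + 1) ≃ (Fin n → Fin (B + 1)) := (Fintype.equivFinOfCardEq hm).symm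
  let lam : Fin (m + 1) → Fin n → k := fun l i => ((e l i : ℕ) : k)
  have hlam : ∀ v : Fin n → Fin 4, ∃ l, lam l = fun a => ((v a : ℕ) : k) := by
    intro g
    obtain ⟨v, hv⟩ := bxv_4 hB k g
    refine ⟨e.symm v, ?_⟩
    rw [← hv]
    funext i
    simp [lam, bxv]
  have hinj : ∀ u : Fin (D + 1) → k, (∀ l, ∑ i, Lmat Bf lam l i * u i = 0) → u = 0 := by
    intro u hu
    have h1 : (∑ i, u i • Bf i) = 0 := by
      refine form_zero_of_box hB (fun i j => ?_) fun v => ?_
      · refine hsym _ ?_ i j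
        exact Submodule.sum_mem _ fun i _ => Submodule.smul_mem _ _ (b i).2
      · rw [formVal_eq, qv_sum]
        have h2 := hu (e.symm v)
        simpa [lam, Lmat] using h2
    funext i
    exact Fintype.linearIndependent_iff.1 hBf u h1 i
  obtain ⟨a, ha⟩ := exists_diagQuad (Lmat Bf lam) hinj
  have hfin : (squarePoints (Lmat Bf lam)).Finite := by
    rw [piece_SQFIN k D (m + 1) (Lmat Bf lam) hinj, ← ha]
    refine h m (diagQuad a) (homog_diagQuad a) fun σ hσ => ?_
    have h1 : BrodyHyperbolic (points σ (diagQuad a)) := by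
      rw [ha, ← valSet_ext σ Φ b lam]
      refine key3 (ext σ Φ) (ext_symm σ hsym) _ ?_ (hZ σ hσ).brody
      intro g
      obtain ⟨l, hl⟩ := hlam g
      exact ⟨l, by
        rw [hl]
        funext a
        exact map_natCast σ _⟩
    exact h1.kobayashi (pclosed_points (homog_diagQuad a) σ)
  -- coordinates
  let cd : ℙ k (Fin n → Fin n → k) → Fin (D + 1) → k := fun p =>
    if hp : p.rep ∈ Φ then b.equivFun ⟨p.rep, hp⟩ else fun _ => 1
  have hcd : ∀ p : ℙ k (Fin n → Fin n → k), p.rep ∈ Φ → p.rep = ∑ i, cd p i • Bf i := by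
    intro p hp
    have h1 := congrArg Φ.subtype (b.sum_equivFun ⟨p.rep, hp⟩)
    rw [map_sum] at h1
    simp only [map_smul, Submodule.subtype_apply] at h1
    simp only [cd, dif_pos hp]
    exact h1.symm
  have hcd0 : ∀ p : ℙ k (Fin n → Fin n → k), cd p ≠ 0 := by
    intro p h0
    by_cases hp : p.rep ∈ Φ
    · have h1 := hcd p hp
      rw [h0] at h1
      apply p.rep_nonzero
      rw [h1]
      simp
    · simp only [cd, dif_neg hp] at h0
      exact one_ne_zero (congrFun h0 0)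
  refine Set.Finite.of_injOn (f := fun p => Projectivization.mk k (cd p) (hcd0 p))
    (t := squarePoints (Lmat Bf lam)) ?_ ?_ hfin
  · rintro p ⟨hp, c, hc, hsq⟩
    obtain ⟨t, ht, hrep⟩ := exists_rep_eq (p := Projectivization.mk k (cd p) (hcd0 p))
      (v := cd p) (hv := hcd0 p) rfl
    refine ⟨c * t⁻¹, mul_ne_zero hc (inv_ne_zero ht), fun l => ?_⟩
    have h1 := hsq (e l)
    rw [formVal_eq, hcd p hp, qv_sum] at h1
    have h2 : c * t⁻¹ * ∑ i, Lmat Bf lam l i * (Projectivization.mk k (cd p) (hcd0 p)).rep i =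
        c * ∑ i, qv (Bf i) (fun i => ((e l i : ℕ) : k)) * cd p i := by
      rw [hrep]
      simp only [Pi.smul_apply, smul_eq_mul, Finset.mul_sum]
      refine Finset.sum_congr rfl fun i _ => ?_
      have h3 : Lmat Bf lam l i = qv (Bf i) (fun i => ((e l i : ℕ) : k)) := rfl
      rw [h3]
      field_simp
    rw [h2]
    exact h1
  · rintro p ⟨hp, -⟩ q ⟨hq, -⟩ hpq
    rw [Projectivization.mk_eq_mk_iff'] at hpq
    obtain ⟨t, ht⟩ := hpq
    rw [← p.mk_rep, ← q.mk_rep, Projectivization.mk_eq_mk_iff']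
    refine ⟨t, ?_⟩
    rw [hcd p hp, hcd q hq, ← ht, Finset.smul_sum]
    exact Finset.sum_congr rfl fun i _ => by rw [Pi.smul_apply, smul_smul, smul_eq_mul]

/-- The theorem on box varieties. -/
theorem box_variety (B : ℕ) (hB : 3 ≤ B) (k : Type) [Field k] [CharZero k] :
    (∀ (n : ℕ) (Φ : Submodule k (Fin n → Fin n → k)), (∀ φ ∈ Φ, ∀ i j, φ i j = φ j i) →
      (∃ a : (Fin n → Fin (B + 1)) → (Fin n → Fin (B + 1)) → k, ∀ (K : Type) [Field K]
        (τ : k →+* K), points τ (diagQuad a) = boxVariety τ B Φ) ∧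
      (∀ σ : k →+* ℂ,
        (KobayashiHyperbolic (boxVariety σ B Φ) ↔ KobayashiHyperbolic (squareForms σ Φ)) ∧
        ∀ ψ : ℂ → ℙ ℂ ((Fin n → Fin (B + 1)) → ℂ), (∀ z, HolomorphicAt ψ z) →
          (∀ z, ψ z ∈ boxVariety σ B Φ) → (∀ z w, ψ z = ψ w) ∨
          ∃ (ε : (Fin n → Fin (B + 1)) → ℂ) (χ : ℂ → ℙ ℂ (Fin n → ℂ)),
            (∀ v, ε v = 1 ∨ ε v = -1) ∧ (∀ z, HolomorphicAt χ z) ∧
            (∀ z, χ z ∈ squareForms σ Φ) ∧
            ∀ z, ∃ c : ℂ, ∀ v, (ψ z).rep v = c * (ε v * ∑ i, ((v i : ℕ) : ℂ) * (χ z).rep i)) ∧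
      ((boxVariety (RingHom.id k) B Φ).Finite ↔ (boxSquares B Φ).Finite)) ∧
    ∀ T : Set (k →+* ℂ), List.TFAE [
      ∀ (n : ℕ) (S : Set (MvPolynomial (Fin (n + 1)) k)), (∀ P ∈ S, ∃ m, P.IsHomogeneous m) →
        (∀ σ ∈ T, KobayashiHyperbolic (points σ S)) → (points (RingHom.id k) S).Finite,
      ∀ (n : ℕ) (Φ : Submodule k (Fin n → Fin n → k)), (∀ φ ∈ Φ, ∀ i j, φ i j = φ j i) →
        (∀ σ ∈ T, KobayashiHyperbolic (boxVariety σ B Φ)) →
        (boxVariety (RingHom.id k) B Φ).Finite,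
      ∀ (n : ℕ) (Φ : Submodule k (Fin n → Fin n → k)), (∀ φ ∈ Φ, ∀ i j, φ i j = φ j i) →
        (∀ σ ∈ T, KobayashiHyperbolic (squareForms σ Φ)) →
        (squareForms (RingHom.id k) Φ).Finite,
      ∀ (n : ℕ) (Φ : Submodule k (Fin n → Fin n → k)), (∀ φ ∈ Φ, ∀ i j, φ i j = φ j i) →
        (∀ σ ∈ T, KobayashiHyperbolic (squareForms σ Φ)) → (boxSquares B Φ).Finite] := by
  refine ⟨fun n Φ hsym => ⟨exists_diagQuad_box hB k Φ hsym, fun σ =>
    ⟨box_kobayashi_iff hB k Φ hsym σ, fun ψ hψ hmem => box_curves hB k Φ hsym σ ψ hψ hmem⟩,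
    box_points_iff hB k Φ hsym⟩, fun T => ?_⟩
  tfae_have 1 → 4 := fun h n Φ hsym hZ => box_forward3 hB k T h n Φ hsym hZ
  tfae_have 4 → 3 := fun h n Φ hsym hZ => squareForms_finite_of_box (h n Φ hsym hZ)
  tfae_have 3 → 1 := fun h n S hS hZ =>
    box_back (piece_VER piece_VERDEG piece_VER1) k T h n S hS hZ
  tfae_have 4 → 2 := by
    intro h n Φ hsym hσ
    rw [box_points_iff hB k Φ hsym]
    exact h n Φ hsym fun σ hσT => (box_kobayashi_iff hB k Φ hsym σ).1 (hσ σ hσT)
  tfae_have 2 → 4 := by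
    intro h n Φ hsym hσ
    rw [← box_points_iff hB k Φ hsym]
    exact h n Φ hsym fun σ hσT => (box_kobayashi_iff hB k Φ hsym σ).2 (hσ σ hσT)
  tfae_finish

end Pool.Agent.Lib.MP_627a61_nt.Bx
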