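import Pool.Agent.Lib.MP_627a61_nt.Bx.Plane

/-!
# Five coordinates in a pencil
-/

open scoped LinearAlgebra.Projectivization Topology
open Filter

namespace Pool.Agent.Lib.MP_627a61_nt.Bx

/-- the coefficients of the five forms -/
def qa : Fin 5 → ℤ := ![2, 0, -2, 8, 6]

/-- the coefficients of the five forms -/
def qb : Fin 5 → ℤ := ![0, 2, -2, 2, -2]

/-- the nodes of the pencil -/
def mdZ : Fin 9 → ℤ := ![10, 0, 5, 8, 15, 20, 25, 30, 35]

/-- the nodes of the pencil -/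
def md (t : Fin 9) : ℂ := ((mdZ t : ℤ) : ℂ)

lemma mdZ_ne : ∀ j l : Fin 9, j ≠ l → mdZ l - mdZ j ≠ 0 := by decide

lemma mdZ_le : ∀ j l : Fin 9, |mdZ l - mdZ j| ≤ 60 := by decide

lemma md_sub (j l : Fin 9) : md l - md j = ((mdZ l - mdZ j : ℤ) : ℂ) := by
  unfold md
  push_cast
  ring

lemma nodes_md : Nodes md := by
  refine ⟨fun j l h => ?_, fun j l => ?_⟩
  · rw [md_sub, Complex.norm_intCast]
    have h3 : 1 ≤ |mdZ l - mdZ j| := Int.one_le_abs (mdZ_ne j l h)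
    exact_mod_cast h3
  · rw [md_sub, Complex.norm_intCast]
    exact_mod_cast mdZ_le j l

/-- the index with five values -/
def i5 (t : Fin 9) : Fin 5 := if h : (t : ℕ) < 5 then ⟨t, h⟩ else 0

/-- the factors -/
def k5 (t : Fin 9) : ℤ := if (t : ℕ) < 5 then qa (i5 t) + qb (i5 t) else 0

lemma k5_ne : ∀ t ∈ ({0, 1, 2, 3, 4} : Finset (Fin 9)), k5 t ≠ 0 := by decide

lemma k5_eq : ∀ t : Fin 9, (t : ℕ) < 5 → k5 t * mdZ t = 10 * qa (i5 t) := by decide

lemma k5_eq' : ∀ t : Fin 9, (t : ℕ) < 5 → k5 t = qa (i5 t) + qb (i5 t) := by decide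

lemma k5_zero : ∀ t : Fin 9, ¬ (t : ℕ) < 5 → k5 t = 0 := by decide

/-- PENCIL: five coordinates whose squares are combinations of two functions. -/
theorem pencil5 {I : Type} [Fintype I] (ψ : ℂ → ℙ ℂ (I → ℂ)) (hψ : ∀ z, HolomorphicAt ψ z)
    (l : Fin 5 → I) (z₀ : ℂ)
    (hsq : ∃ᶠ z in 𝓝[≠] z₀, ∃ x y : ℂ, ∀ i : Fin 5, (ψ z).rep (l i) ^ 2 =
      ((qa i : ℤ) : ℂ) * x + ((qb i : ℤ) : ℂ) * y) :
    ∃ p : Fin 5 → ℂ, ∀ᶠ w in 𝓝[≠] z₀, ∃ r : ℂ, ∀ i, (ψ w).rep (l i) = r * p i := by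
  obtain ⟨G, hG⟩ : ∃ G : (I → ℂ) → (Fin 9 → ℂ),
      G = fun (x : I → ℂ) (t : Fin 9) =>
        (if (t : ℕ) < 5 then (1 : ℂ) else 0) * x (l (i5 t)) := ⟨_, rfl⟩
  have hGx : ∀ (x : I → ℂ) (t : Fin 9), G x t =
      (if (t : ℕ) < 5 then (1 : ℂ) else 0) * x (l (i5 t)) :=
    fun x t => by rw [hG]
  by_cases hz : ∀ z, G (ψ z).rep = 0
  · refine ⟨0, Filter.Eventually.of_forall fun w => ⟨0, fun t => ?_⟩⟩
    have h1 := congrFun (hz w) ⟨(t : ℕ), by omega⟩
    rw [hGx] at h1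
    have h2 : i5 ⟨(t : ℕ), by omega⟩ = t := by
      unfold i5
      rw [dif_pos t.2]
    have h3 : ((⟨(t : ℕ), by omega⟩ : Fin 9) : ℕ) < 5 := t.2
    rw [if_pos h3, h2] at h1
    simpa using h1
  push Not at hz
  obtain ⟨z₁, hz₁⟩ := hz
  have hGan : ∀ x, AnalyticAt ℂ G x := by
    intro x
    have : G = fun (x : I → ℂ) (t : Fin 9) => (if (t : ℕ) < 5 then (1 : ℂ) else 0) *
        (ContinuousLinearMap.proj (R := ℂ) (φ := fun _ : I => ℂ) (l (i5 t))) x := by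
      rw [hG]; rfl
    rw [this]
    exact AnalyticAt.pi fun t => analyticAt_const.mul (ContinuousLinearMap.analyticAt _ x)
  obtain ⟨χ, hχ, hval, hne⟩ := exists_division hψ G hGan 1 (fun t x => by
    rw [pow_one]
    funext i
    rw [hGx, Pi.smul_apply, Pi.smul_apply, hGx, smul_eq_mul, smul_eq_mul]
    ring) hz₁
  have hrel : ∀ z (h : G (ψ z).rep ≠ 0), ∃ r : ℂ, r ≠ 0 ∧ (χ z).rep = r • G (ψ z).rep :=
    fun z h => exists_rep_eq (hval z h)
  obtain ⟨C, hCx⟩ : ∃ C : (Fin 9 → ℂ) →ₗ[ℂ] ℂ, ∀ s : Fin 9 → ℂ, C s = (s 0 - s 1) / 20 := by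
    refine ⟨{ toFun := fun s => (s 0 - s 1) / 20, map_add' := ?_, map_smul' := ?_ },
      fun _ => rfl⟩
    · intro x y
      simp only [Pi.add_apply]
      ring
    · intro r x
      simp only [Pi.smul_apply, smul_eq_mul, RingHom.id_apply]
      ring
  obtain ⟨B, hBx⟩ : ∃ B : (Fin 9 → ℂ) →ₗ[ℂ] ℂ, ∀ s : Fin 9 → ℂ, B s = s 1 / 2 := by
    refine ⟨{ toFun := fun s => s 1 / 2, map_add' := ?_, map_smul' := ?_ }, fun _ => rfl⟩
    · intro x y
      simp only [Pi.add_apply]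
      ring
    · intro r x
      simp only [Pi.smul_apply, smul_eq_mul, RingHom.id_apply]
      ring
  have hlin : ∀ z, ∀ t, sqv (χ z).rep t =
      ((k5 t : ℤ) : ℂ) * (C (sqv (χ z).rep) * md t + B (sqv (χ z).rep)) := by
    intro z t
    have hdich := curve_dichotomy hχ (fun w => sqv w t -
      ((k5 t : ℤ) : ℂ) * ((sqv w 0 - sqv w 1) / 20 * md t + sqv w 1 / 2)) (fun w => by
        have hp : ∀ a, AnalyticAt ℂ (fun w : Fin 9 → ℂ => sqv w a) w := fun a =>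
          ((ContinuousLinearMap.proj (R := ℂ) (φ := fun _ : Fin 9 => ℂ) a).analyticAt w).pow 2
        exact (hp t).sub (analyticAt_const.mul (((((hp 0).sub (hp 1)).div_const).mul
          analyticAt_const).add ((hp 1).div_const)))) 2 (fun r w => by
        rw [sqv_smul]
        simp only [Pi.smul_apply, smul_eq_mul]
        ring)
    rcases hdich with h1 | h1
    · rw [hCx, hBx]
      exact sub_eq_zero.1 (h1 z)
    · exfalso
      obtain ⟨w, ⟨x, y, h2⟩, h3, h4⟩ := (hsq.and_eventually ((hne z₀).and (h1 z₀))).exists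
      apply h4
      obtain ⟨r, hr, hrep⟩ := hrel w h3
      have hs : ∀ t : Fin 9, sqv (χ w).rep t = r ^ 2 * (if (t : ℕ) < 5 then
          ((qa (i5 t) : ℤ) : ℂ) * x + ((qb (i5 t) : ℤ) : ℂ) * y else 0) := by
        intro t
        rw [hrep, sqv_smul, Pi.smul_apply, smul_eq_mul]
        congr 1
        unfold sqv
        rw [hGx]
        by_cases h5 : (t : ℕ) < 5
        · rw [if_pos h5, if_pos h5, one_mul, h2]
        · rw [if_neg h5, if_neg h5]
          ring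
      have e0 := hs 0
      have e1 := hs 1
      have f0 : (if ((0 : Fin 9) : ℕ) < 5 then
          ((qa (i5 0) : ℤ) : ℂ) * x + ((qb (i5 0) : ℤ) : ℂ) * y else 0) = 2 * x := by
        have g1 : qa (i5 0) = 2 := by decide
        have g2 : qb (i5 0) = 0 := by decide
        rw [g1, g2]
        norm_num
      have f1 : (if ((1 : Fin 9) : ℕ) < 5 then
          ((qa (i5 1) : ℤ) : ℂ) * x + ((qb (i5 1) : ℤ) : ℂ) * y else 0) = 2 * y := by
        have g1 : qa (i5 1) = 0 := by decide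
        have g2 : qb (i5 1) = 2 := by decide
        rw [g1, g2]
        norm_num
      rw [f0] at e0
      rw [f1] at e1
      rw [hs t, e0, e1]
      by_cases h5 : (t : ℕ) < 5
      · rw [if_pos h5]
        have k1 : ((k5 t : ℤ) : ℂ) * md t = 10 * ((qa (i5 t) : ℤ) : ℂ) := by
          unfold md
          exact_mod_cast k5_eq t h5
        have k2 : ((k5 t : ℤ) : ℂ) = ((qa (i5 t) : ℤ) : ℂ) + ((qb (i5 t) : ℤ) : ℂ) := by
          exact_mod_cast k5_eq' t h5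
        linear_combination (-(r ^ 2 * (x - y)) / 10) * k1 - (r ^ 2 * y) * k2
      · rw [if_neg h5, k5_zero t h5]
        simp
  have hconst := curve_linear nodes_md hχ (κ := fun t => ((k5 t : ℤ) : ℂ))
    (S := {0, 1, 2, 3, 4}) rfl (fun t ht => by exact_mod_cast k5_ne t ht) C B hlin
  refine ⟨fun i => (χ z₀).rep ⟨(i : ℕ), by omega⟩, ?_⟩
  filter_upwards [hne z₀] with w hw
  obtain ⟨r, hr, hrep⟩ := hrel w hw
  refine ⟨r⁻¹, fun i => ?_⟩
  rw [hconst z₀ w, hrep, Pi.smul_apply, smul_eq_mul, ← mul_assoc, inv_mul_cancel₀ hr, one_mul,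
    hGx]
  have h2 : i5 ⟨(i : ℕ), by omega⟩ = i := by
    unfold i5
    rw [dif_pos i.2]
  have h3 : ((⟨(i : ℕ), by omega⟩ : Fin 9) : ℕ) < 5 := i.2
  rw [if_pos h3, h2, one_mul]

end Pool.Agent.Lib.MP_627a61_nt.Bx
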