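import Pool.Agent.Lib.MP_627a61_nt.Bx.Buchi

/-!
# Planes and pencils of binary forms along an entire curve
-/

open scoped LinearAlgebra.Projectivization Topology
open Filter

namespace Pool.Agent.Lib.MP_627a61_nt.Bx

lemma nd_smul {w v : Fin 9 → ℂ} {r a b c : ℂ} (hw : w = r • v)
    (h : ∀ t : Fin 9, v t ^ 2 = a + 2 * nd t * b + nd t ^ 2 * c) :
    ∀ t : Fin 9, w t ^ 2 = r ^ 2 * a + 2 * nd t * (r ^ 2 * b) + nd t ^ 2 * (r ^ 2 * c) := by
  intro t
  rw [hw, Pi.smul_apply, smul_eq_mul]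
  linear_combination r ^ 2 * h t

/-- the condition that the square of the coordinate `t` is the value at the node `t` of the
quadratic polynomial through the first three squares -/
noncomputable def planeP (t : Fin 9) (w : Fin 9 → ℂ) : ℂ :=
  sqv w t - (ca (sqv w) + 2 * nd t * cb (sqv w) + nd t ^ 2 * cc (sqv w))

lemma planeP_cont (t : Fin 9) : Continuous (planeP t) := by
  unfold planeP cb cc ca sqv
  fun_prop

lemma planeP_smul (t : Fin 9) (r : ℂ) (w : Fin 9 → ℂ) :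
    planeP t (r • w) = r ^ 2 * planeP t w := by
  unfold planeP cb cc ca sqv
  simp only [Pi.smul_apply, smul_eq_mul]
  ring

/-- nine scaled coordinates whose squares are the values of quadratic polynomials at the nodes -/
theorem plane_nd {I : Type} [Fintype I] (ψ : ℂ → ℙ ℂ (I → ℂ)) (hψ : ∀ z, HolomorphicAt ψ z)
    (l : Fin 9 → I) (s : Fin 9 → ℂ)
    (hsq : ∀ z, ∃ a b c : ℂ, ∀ t : Fin 9, (s t * (ψ z).rep (l t)) ^ 2 =
      a + 2 * nd t * b + nd t ^ 2 * c) :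
    (∀ z, ∀ a b c : ℂ, (∀ t : Fin 9, (s t * (ψ z).rep (l t)) ^ 2 =
      a + 2 * nd t * b + nd t ^ 2 * c) → b ^ 2 = a * c) ∨
    (∃ p : Fin 9 → ℂ, ∀ z, ∀ᶠ w in 𝓝[≠] z, ∃ r : ℂ, ∀ t, s t * (ψ w).rep (l t) = r * p t) := by
  obtain ⟨G, hG⟩ : ∃ G : (I → ℂ) → (Fin 9 → ℂ), G = fun x t => s t * x (l t) := ⟨_, rfl⟩
  have hGx : ∀ x t, G x t = s t * x (l t) := fun x t => by rw [hG]
  by_cases hz : ∀ z, G (ψ z).rep = 0
  · right
    refine ⟨0, fun z => Filter.Eventually.of_forall fun w => ⟨0, fun t => ?_⟩⟩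
    have := congrFun (hz w) t
    rw [hGx] at this
    simpa using this
  push Not at hz
  obtain ⟨z₀, hz₀⟩ := hz
  have hGan : ∀ x, AnalyticAt ℂ G x := by
    intro x
    have : G = fun x t => s t *
        (ContinuousLinearMap.proj (R := ℂ) (φ := fun _ : I => ℂ) (l t)) x := by
      rw [hG]; rfl
    rw [this]
    exact AnalyticAt.pi fun t => analyticAt_const.mul (ContinuousLinearMap.analyticAt _ x)
  obtain ⟨χ, hχ, hval, hne⟩ := exists_division hψ G hGan 1 (fun t x => by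
    rw [pow_one]
    funext i
    rw [hGx, Pi.smul_apply, Pi.smul_apply, hGx, smul_eq_mul, smul_eq_mul]
    ring) hz₀
  have hrel : ∀ z (h : G (ψ z).rep ≠ 0), ∃ r : ℂ, r ≠ 0 ∧ (χ z).rep = r • G (ψ z).rep :=
    fun z h => exists_rep_eq (hval z h)
  have hsq' : ∀ z, ∃ a b c : ℂ, ∀ t : Fin 9, (G (ψ z).rep) t ^ 2 =
      a + 2 * nd t * b + nd t ^ 2 * c := by
    intro z
    obtain ⟨a, b, c, h⟩ := hsq z
    exact ⟨a, b, c, fun t => by rw [hGx]; exact h t⟩
  have hQ : ∀ z, ∃ a b c : ℂ, ∀ t : Fin 9,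
      (χ z).rep t ^ 2 = a + 2 * nd t * b + nd t ^ 2 * c := by
    intro z
    have hp : ∀ t, planeP t (χ z).rep = 0 := by
      intro t
      refine HolomorphicAt.zero_of_punctured (hχ z) (planeP t) (planeP_cont t) ?_ ?_
      · intro r x hr
        rw [planeP_smul]
        constructor
        · intro h
          exact (mul_eq_zero.1 h).resolve_left (pow_ne_zero _ hr)
        · intro h
          rw [h, mul_zero]
      · filter_upwards [hne z] with w hw
        obtain ⟨r, hr, hrep⟩ := hrel w hw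
        obtain ⟨a, b, c, habc⟩ := hsq' w
        have h1 := nd_smul (v := G (ψ w).rep) hrep habc
        have h2 := isQ_of (s := sqv (χ w).rep) ⟨_, _, _, h1⟩ t
        unfold planeP
        rw [← h2, sub_self]
    refine ⟨ca (sqv (χ z).rep), cb (sqv (χ z).rep), cc (sqv (χ z).rep), fun t => ?_⟩
    have := hp t
    unfold planeP at this
    exact sub_eq_zero.1 this
  rcases buchi χ hχ hQ with h | h
  · right
    refine ⟨(χ 0).rep, fun z => ?_⟩
    filter_upwards [hne z] with w hw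
    obtain ⟨r, hr, hrep⟩ := hrel w hw
    refine ⟨r⁻¹, fun t => ?_⟩
    rw [h 0 w, hrep, Pi.smul_apply, smul_eq_mul, ← mul_assoc, inv_mul_cancel₀ hr, one_mul, hGx]
  · left
    intro z a b c habc'
    have habc : ∀ t : Fin 9, (G (ψ z).rep) t ^ 2 = a + 2 * nd t * b + nd t ^ 2 * c :=
      fun t => by rw [hGx]; exact habc' t
    by_cases h0 : G (ψ z).rep = 0
    · have h1 : disc9 (G (ψ z).rep) = b ^ 2 - a * c := disc9_of habc
      rw [h0] at h1
      have h2 : disc9 (0 : Fin 9 → ℂ) = 0 := by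
        unfold disc9 cb cc ca sqv
        simp
      rw [h2] at h1
      exact (sub_eq_zero.1 h1.symm)
    · obtain ⟨r, hr, hrep⟩ := hrel z h0
      have h1 := disc9_of (nd_smul (v := G (ψ z).rep) hrep habc)
      rw [h z] at h1
      have h2 : r ^ 4 * (b ^ 2 - a * c) = 0 := by
        rw [h1]; ring
      exact sub_eq_zero.1 ((mul_eq_zero.1 h2).resolve_left (pow_ne_zero _ hr))

/-- coefficients of the nine vectors in a plane -/
def pa : Fin 9 → ℕ := ![1, 1, 0, 3, 1, 2, 1, 3, 2]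

/-- coefficients of the nine vectors in a plane -/
def pb : Fin 9 → ℕ := ![0, 1, 1, 1, 3, 1, 2, 2, 3]

lemma pa_le : ∀ t, pa t ≤ 3 := by decide

lemma pb_le : ∀ t, pb t ≤ 3 := by decide

lemma pab_ne (t : Fin 9) : ((pa t : ℕ) : ℂ) + ((pb t : ℕ) : ℂ) ≠ 0 := by
  have h : pa t + pb t ≠ 0 := by revert t; decide
  exact_mod_cast h

lemma nd_pab (t : Fin 9) : nd t * (((pa t : ℕ) : ℂ) + ((pb t : ℕ) : ℂ)) = 60 * ((pb t : ℕ) : ℂ) := by
  have h : ndZ t * ((pa t : ℤ) + (pb t : ℤ)) = 60 * (pb t : ℤ) := by revert t; decide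
  unfold nd
  exact_mod_cast h

/-- PLANE: nine coordinates with indices of the form `a p + b q` -/
theorem plane9 {I : Type} [Fintype I] (ψ : ℂ → ℙ ℂ (I → ℂ)) (hψ : ∀ z, HolomorphicAt ψ z)
    (l : Fin 9 → I)
    (hsq : ∀ z, ∃ a b c : ℂ, ∀ t : Fin 9, (ψ z).rep (l t) ^ 2 =
      (pa t : ℂ) ^ 2 * a + 2 * (pa t : ℂ) * (pb t : ℂ) * b + (pb t : ℂ) ^ 2 * c) :
    (∀ z, ∀ a b c : ℂ, (∀ t : Fin 9, (ψ z).rep (l t) ^ 2 =
      (pa t : ℂ) ^ 2 * a + 2 * (pa t : ℂ) * (pb t : ℂ) * b + (pb t : ℂ) ^ 2 * c) →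
      b ^ 2 = a * c) ∨
    (∃ p : Fin 9 → ℂ, ∀ z, ∀ᶠ w in 𝓝[≠] z, ∃ r : ℂ, ∀ t, (ψ w).rep (l t) = r * p t) := by
  have key : ∀ (z : ℂ) (a b c : ℂ), (∀ t : Fin 9, (ψ z).rep (l t) ^ 2 =
      (pa t : ℂ) ^ 2 * a + 2 * (pa t : ℂ) * (pb t : ℂ) * b + (pb t : ℂ) ^ 2 * c) →
      ∀ t : Fin 9, (((pa t : ℂ) + (pb t : ℂ))⁻¹ * (ψ z).rep (l t)) ^ 2 =
        a + 2 * nd t * ((b - a) / 60) + nd t ^ 2 * ((a - 2 * b + c) / 3600) := by
    intro z a b c h t
    have h1 := nd_pab t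
    have h2 := pab_ne t
    rw [mul_pow, h t]
    have h3 : nd t = 60 * (pb t : ℂ) / ((pa t : ℂ) + (pb t : ℂ)) := by
      rw [eq_div_iff h2, h1]
    rw [h3]
    field_simp
    ring
  rcases plane_nd ψ hψ l (fun t => ((pa t : ℂ) + (pb t : ℂ))⁻¹) (fun z => by
      obtain ⟨a, b, c, h⟩ := hsq z
      exact ⟨_, _, _, key z a b c h⟩) with h | ⟨p, hp⟩
  · left
    intro z a b c habc
    have h1 := h z _ _ _ (key z a b c habc)
    have h2 : ((b - a) / 60) ^ 2 - a * ((a - 2 * b + c) / 3600) = (b ^ 2 - a * c) / 3600 := by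
      ring
    have h3 : (b ^ 2 - a * c) / 3600 = 0 := by
      rw [← h2, h1, sub_self]
    have h4 : b ^ 2 - a * c = 0 := by
      rcases div_eq_zero_iff.1 h3 with h5 | h5
      · exact h5
      · norm_num at h5
    exact sub_eq_zero.1 h4
  · right
    refine ⟨fun t => ((pa t : ℂ) + (pb t : ℂ)) * p t, fun z => ?_⟩
    filter_upwards [hp z] with w hw
    obtain ⟨r, hr⟩ := hw
    refine ⟨r, fun t => ?_⟩
    have h2 := pab_ne t
    have h3 := hr t
    have h4 : (ψ w).rep (l t) = ((pa t : ℂ) + (pb t : ℂ)) *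
        (((pa t : ℂ) + (pb t : ℂ))⁻¹ * (ψ w).rep (l t)) := by
      rw [← mul_assoc, mul_inv_cancel₀ h2, one_mul]
    rw [h4, h3]
    ring

end Pool.Agent.Lib.MP_627a61_nt.Bx
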