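import Pool.Agent.Lib.MP_627a61_nt.Bx.Main

/-!
# The box `{0, 1, 2} ^ n` is too small
-/

open scoped LinearAlgebra.Projectivization Topology
open Filter MvPolynomial

namespace Pool.Agent.Lib.MP_627a61_nt.Bx

/-- the binary forms `a x ^ 2 + 2 b x y + a y ^ 2` -/
def exF (k : Type*) [Field k] : Submodule k (Fin 2 → Fin 2 → k) where
  carrier := {φ | φ 0 0 = φ 1 1 ∧ φ 0 1 = φ 1 0}
  add_mem' := by
    rintro a b ⟨h1, h2⟩ ⟨h3, h4⟩
    exact ⟨by simp [h1, h3], by simp [h2, h4]⟩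
  zero_mem' := ⟨rfl, rfl⟩
  smul_mem' := by
    rintro c a ⟨h1, h2⟩
    exact ⟨by simp [h1], by simp [h2]⟩

/-- the matrix with entries `a` on the diagonal and `b` off the diagonal -/
def exM {k : Type*} (a b : k) : Fin 2 → Fin 2 → k := fun i j => if i = j then a else b

lemma exM_mem {k : Type*} [Field k] (a b : k) : exM a b ∈ exF k := by
  constructor <;> simp [exM]

lemma exF_symm {k : Type*} [Field k] : ∀ φ ∈ exF k, ∀ i j, φ i j = φ j i := by
  rintro φ ⟨-, h⟩ i j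
  fin_cases i <;> fin_cases j <;> simp [h]

lemma ext_exF {k K : Type*} [Field k] [Field K] (τ : k →+* K) {φ : Fin 2 → Fin 2 → K}
    (h : φ ∈ ext τ (exF k)) : φ ∈ exF K := by
  unfold ext at h
  refine Submodule.span_le.2 ?_ h
  rintro _ ⟨ψ, ⟨h1, h2⟩, rfl⟩
  exact ⟨by simp [h1], by simp [h2]⟩

lemma exM_ext {k K : Type*} [Field k] [Field K] (τ : k →+* K) (a b : K) :
    exM a b ∈ ext τ (exF k) := by
  have h1 : exM a b = a • (fun i j => τ (exM (1 : k) 0 i j)) +
      b • (fun i j => τ (exM (0 : k) 1 i j)) := by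
    funext i j
    fin_cases i <;> fin_cases j <;> simp [exM]
  rw [h1]
  exact Submodule.add_mem _ (Submodule.smul_mem _ _ (Submodule.subset_span ⟨_, exM_mem _ _, rfl⟩))
    (Submodule.smul_mem _ _ (Submodule.subset_span ⟨_, exM_mem _ _, rfl⟩))

/-- the value of the square root -/
def exz {k : Type*} [Field k] (t : k) (v : Fin 2 → Fin 3) : k :=
  if v 0 = v 1 then 2 * ((v 0 : ℕ) : k) * t else
    if v 0 = 0 ∨ v 1 = 0 then (((v 0 : ℕ) : k) + ((v 1 : ℕ) : k)) * (t ^ 2 - 2) else t ^ 2 + 2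

lemma exz_sq {k : Type*} [Field k] (t : k) (v : Fin 2 → Fin 3) :
    exz t v ^ 2 = formVal (exM ((t ^ 2 - 2) ^ 2) (2 * t ^ 2 - (t ^ 2 - 2) ^ 2)) v := by
  obtain ⟨a, ha⟩ : ∃ a, a = v 0 := ⟨_, rfl⟩
  obtain ⟨b, hb⟩ : ∃ b, b = v 1 := ⟨_, rfl⟩
  unfold exz formVal exM
  simp only [Fin.sum_univ_two, ← ha, ← hb]
  fin_cases a <;> fin_cases b <;> simp <;> ring

lemma mem_sq_exF {K : Type*} [Field K] {x : Fin 2 → K} (h : sq x ∈ exF K) :
    (x 0 - x 1) * (x 0 + x 1) = 0 := by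
  obtain ⟨h1, -⟩ := h
  simp only [sq] at h1
  linear_combination h1

/-- the variety of squares consists of at most two points -/
lemma exF_finite (k : Type) [Field k] : (squareForms (RingHom.id k) (exF k)).Finite := by
  have hne : ∀ c : k, (![1, c] : Fin 2 → k) ≠ 0 := by
    intro c h
    have := congrFun h 0
    simp at this
  refine Set.Finite.subset (s := {Projectivization.mk k ![1, 1] (hne 1),
    Projectivization.mk k ![1, -1] (hne (-1))}) (Set.toFinite _) ?_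
  intro p hp
  rw [squareForms_eq] at hp
  have h1 := mem_sq_exF (ext_exF _ hp)
  have h0 : p.rep 0 ≠ 0 := by
    intro h0
    apply p.rep_nonzero
    have h2 : p.rep 1 = 0 := by
      rw [h0] at h1
      have h3 : p.rep 1 ^ 2 = 0 := by linear_combination -h1
      exact pow_eq_zero_iff (two_ne_zero) |>.1 h3
    funext i
    fin_cases i
    · exact h0
    · exact h2
  rcases mul_eq_zero.1 h1 with h2 | h2
  · left
    rw [← p.mk_rep, Projectivization.mk_eq_mk_iff']
    refine ⟨p.rep 0, ?_⟩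
    funext i
    fin_cases i
    · simp
    · simp
      linear_combination h2
  · right
    rw [Set.mem_singleton_iff, ← p.mk_rep, Projectivization.mk_eq_mk_iff']
    refine ⟨p.rep 0, ?_⟩
    funext i
    fin_cases i
    · simp
    · simp
      linear_combination -h2

lemma exF_kob (k : Type) [Field k] (σ : k →+* ℂ) : KobayashiHyperbolic (squareForms σ (exF k)) := by
  refine BrodyHyperbolic.kobayashi ?_ (pclosed_squareForms k (exF k) σ)
  intro χ hχ hmem
  have hp : ∀ (i : Fin 2) (x : Fin 2 → ℂ), AnalyticAt ℂ (fun y : Fin 2 → ℂ => y i) x :=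
    fun i x => (ContinuousLinearMap.proj (R := ℂ) (φ := fun _ : Fin 2 => ℂ) i).analyticAt x
  have h1 : ∀ z, ((χ z).rep 0 - (χ z).rep 1) * ((χ z).rep 0 + (χ z).rep 1) = 0 := by
    intro z
    have h2 := hmem z
    rw [squareForms_eq] at h2
    exact mem_sq_exF (ext_exF _ h2)
  have h2 : ∃ c : ℂ, ∀ z, (χ z).rep 1 = c * (χ z).rep 0 := by
    rcases curve_mul_zero hχ (fun y => y 0 - y 1) (fun y => y 0 + y 1)
      (fun x => (hp 0 x).sub (hp 1 x)) (fun x => (hp 0 x).add (hp 1 x))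
      (fun t y => by simp only [Pi.smul_apply, smul_eq_mul]; ring)
      (fun t y => by simp only [Pi.smul_apply, smul_eq_mul]; ring) h1 with h | h
    · exact ⟨1, fun z => by linear_combination -(h z)⟩
    · exact ⟨-1, fun z => by linear_combination h z⟩
  obtain ⟨c, hc⟩ := h2
  have h0 : ∀ z, (χ z).rep 0 ≠ 0 := by
    intro z h0
    apply (χ z).rep_nonzero
    funext i
    fin_cases i
    · exact h0
    · simp [hc z, h0]
  intro z w
  rw [← (χ z).mk_rep, ← (χ w).mk_rep, Projectivization.mk_eq_mk_iff']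
  have := h0 w
  refine ⟨(χ z).rep 0 / (χ w).rep 0, ?_⟩
  funext i
  fin_cases i
  · simp only [Pi.smul_apply, smul_eq_mul]
    show (χ z).rep 0 / (χ w).rep 0 * (χ w).rep 0 = (χ z).rep 0
    field_simp
  · simp only [Pi.smul_apply, smul_eq_mul]
    show (χ z).rep 0 / (χ w).rep 0 * (χ w).rep 1 = (χ z).rep 1
    rw [hc z, hc w]
    field_simp

lemma exz_11 {k : Type*} [Field k] (t : k) : exz t ![1, 1] = 2 * t := by
  unfold exz
  rw [if_pos (by decide)]
  simp

lemma exz_12 {k : Type*} [Field k] (t : k) : exz t ![1, 2] = t ^ 2 + 2 := by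
  unfold exz
  rw [if_neg (by decide), if_neg (by decide)]

lemma exz_ne {k : Type*} [Field k] [CharZero k] (t : k) : exz t ≠ 0 := by
  intro h
  have h1 := congrFun h ![1, 1]
  have h2 := congrFun h ![1, 2]
  rw [exz_11, Pi.zero_apply] at h1
  rw [exz_12, Pi.zero_apply] at h2
  have h3 : t = 0 := (mul_eq_zero.1 h1).resolve_left two_ne_zero
  rw [h3] at h2
  norm_num at h2

lemma exF_not (k : Type) [Field k] (σ : k →+* ℂ) :
    ¬ KobayashiHyperbolic (boxVariety σ 2 (exF k)) := by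
  intro h
  have h1 := h.brody (fun t => Projectivization.mk ℂ (exz t) (exz_ne t)) (fun t => by
    refine ⟨fun t => exz t, ?_, Filter.Eventually.of_forall fun w => ⟨exz_ne w, rfl⟩⟩
    rw [analyticAt_pi_iff]
    intro v
    unfold exz
    split_ifs
    · exact analyticAt_const.mul analyticAt_id
    · exact analyticAt_const.mul ((analyticAt_id.pow 2).sub analyticAt_const)
    · exact (analyticAt_id.pow 2).add analyticAt_const) (fun t =>
    mem_box_mk σ (exF k) (exz_ne t) (exM_ext σ _ _) (exz_sq t)) 0 1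
  rw [Projectivization.mk_eq_mk_iff'] at h1
  obtain ⟨c, hc⟩ := h1
  have h2 := congrFun hc ![1, 1]
  have h3 := congrFun hc ![1, 2]
  rw [Pi.smul_apply, smul_eq_mul, exz_11, exz_11] at h2
  rw [Pi.smul_apply, smul_eq_mul, exz_12, exz_12] at h3
  have h4 : c = 0 := by linear_combination h2 / 2
  rw [h4] at h3
  norm_num at h3

lemma exM_ne {k : Type*} [Field k] [CharZero k] (t : k) :
    exM ((t ^ 2 - 2) ^ 2) (2 * t ^ 2 - (t ^ 2 - 2) ^ 2) ≠ 0 := by
  intro h
  apply exz_ne t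
  funext v
  have h1 := exz_sq t v
  rw [h, formVal_eq, qv_zero] at h1
  exact pow_eq_zero_iff (two_ne_zero) |>.1 h1

lemma exF_infinite (k : Type) [Field k] [CharZero k] : (boxSquares 2 (exF k)).Infinite := by
  refine Set.infinite_of_injective_forall_mem (f := fun n : ℕ =>
    Projectivization.mk k (exM ((((n + 2 : ℕ) : k) ^ 2 - 2) ^ 2)
      (2 * ((n + 2 : ℕ) : k) ^ 2 - (((n + 2 : ℕ) : k) ^ 2 - 2) ^ 2)) (exM_ne _)) ?_ ?_
  · intro n m hnm
    simp only [Projectivization.mk_eq_mk_iff'] at hnm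
    obtain ⟨c, hc⟩ := hnm
    have h1 := congrFun (congrFun hc 0) 0
    have h2 := congrFun (congrFun hc 0) 1
    simp only [exM, Pi.smul_apply, smul_eq_mul, if_true, Fin.zero_eq_one_iff,
      OfNat.ofNat_ne_one, if_false] at h1 h2
    obtain ⟨x, hx⟩ : ∃ x : ℕ, x = n + 2 := ⟨_, rfl⟩
    obtain ⟨y, hy⟩ : ∃ y : ℕ, y = m + 2 := ⟨_, rfl⟩
    rw [← hx, ← hy] at h1 h2
    have h3 : c * (y : k) ^ 2 = (x : k) ^ 2 := by
      apply mul_left_cancel₀ (two_ne_zero (α := k))
      linear_combination h1 + h2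
    have h4 : (x : k) ^ 2 * ((y : k) ^ 2 - 2) ^ 2 = (y : k) ^ 2 * ((x : k) ^ 2 - 2) ^ 2 := by
      linear_combination (-1 : k) * ((y : k) ^ 2 - 2) ^ 2 * h3 + (y : k) ^ 2 * h1
    have h5 : (x : ℤ) ^ 2 * ((y : ℤ) ^ 2 - 2) ^ 2 = (y : ℤ) ^ 2 * ((x : ℤ) ^ 2 - 2) ^ 2 := by
      exact_mod_cast h4
    have hx2 : (2 : ℤ) ≤ x := by omega
    have hy2 : (2 : ℤ) ≤ y := by omega
    have h6 : ((x : ℤ) * ((y : ℤ) ^ 2 - 2)) ^ 2 = ((y : ℤ) * ((x : ℤ) ^ 2 - 2)) ^ 2 := by
      linear_combination h5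
    have p1 : 0 < (x : ℤ) * ((y : ℤ) ^ 2 - 2) := by
      apply mul_pos (by omega)
      nlinarith
    have p2 : 0 < (y : ℤ) * ((x : ℤ) ^ 2 - 2) := by
      apply mul_pos (by omega)
      nlinarith
    have h7 : (x : ℤ) * ((y : ℤ) ^ 2 - 2) = (y : ℤ) * ((x : ℤ) ^ 2 - 2) := by
      rcases sq_eq_sq_iff_eq_or_eq_neg.1 h6 with h | h
      · exact h
      · omega
    have h8 : ((y : ℤ) - x) * ((x : ℤ) * y + 2) = 0 := by linear_combination h7
    have h9 : (x : ℤ) * y + 2 ≠ 0 := by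
      have : 0 < (x : ℤ) * y := mul_pos (by omega) (by omega)
      omega
    have h10 := (mul_eq_zero.1 h8).resolve_right h9
    omega
  · intro n
    obtain ⟨t, ht⟩ : ∃ t : k, t = ((n + 2 : ℕ) : k) := ⟨_, rfl⟩
    simp only [← ht]
    obtain ⟨s, hs, hrep⟩ := exists_rep_eq (p := Projectivization.mk k (exM ((t ^ 2 - 2) ^ 2)
      (2 * t ^ 2 - (t ^ 2 - 2) ^ 2)) (exM_ne t)) (v := exM ((t ^ 2 - 2) ^ 2)
      (2 * t ^ 2 - (t ^ 2 - 2) ^ 2)) (hv := exM_ne t) rfl
    refine ⟨?_, s⁻¹, inv_ne_zero hs, fun v => ⟨exz t v, ?_⟩⟩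
    · rw [hrep]
      exact Submodule.smul_mem _ _ (exM_mem _ _)
    · rw [hrep, formVal_eq, qv_smul, ← formVal_eq, ← exz_sq]
      field_simp

end Pool.Agent.Lib.MP_627a61_nt.Bx
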